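import Pool.Agent.Lib_helper57.QI.EDefs

/-!
# Basic lemmas on words and automata (part c of E0)
-/

set_option autoImplicit false

namespace H57.QI

variable {H : Type} [Group H]

/-- commuting words of the same length are equal -/
theorem word_eq_of_comm {S : Type} {u v : List S} (h : u ++ v = v ++ u) (hl : u.length = v.length) :
    u = v := (List.append_inj h hl).1

/-- `u` repeated `n` times -/
def rep {S : Type} (u : List S) (n : ℕ) : List S := (List.replicate n u).flatten

theorem rep_zero {S : Type} (u : List S) : rep u 0 = [] := rfl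

theorem rep_succ {S : Type} (u : List S) (n : ℕ) : rep u (n + 1) = u ++ rep u n := by
  simp [rep, List.replicate_succ]

theorem rep_add {S : Type} (u : List S) (m n : ℕ) : rep u (m + n) = rep u m ++ rep u n := by
  unfold rep
  rw [List.replicate_add, List.flatten_append]

theorem length_rep {S : Type} (u : List S) (n : ℕ) : (rep u n).length = n * u.length := by
  simp [rep]

theorem rep_comm {S : Type} {u v : List S} (h : u ++ v = v ++ u) (n : ℕ) :
    rep u n ++ v = v ++ rep u n := by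
  induction n with
  | zero => simp [rep_zero]
  | succ n ih => rw [rep_succ, List.append_assoc, ih, ← List.append_assoc, h, List.append_assoc]

/-- commuting words have a common power -/
theorem rep_eq_of_comm {S : Type} {u v : List S} (h : u ++ v = v ++ u) :
    rep u v.length = rep v u.length := by
  apply word_eq_of_comm
  · exact rep_comm (rep_comm h.symm _).symm _
  · rw [length_rep, length_rep, mul_comm]

namespace Auto

variable {D : Geo H} (A : Auto D)

theorem val_nil : A.val [] = 1 := rfl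

theorem val_append (u v : List A.S) : A.val (u ++ v) = A.val u * A.val v := by
  simp [val]

theorem val_cons (a : A.S) (v : List A.S) : A.val (a :: v) = A.mu a * A.val v := by
  simp [val]

theorem val_rep (u : List A.S) (n : ℕ) : A.val (rep u n) = A.val u ^ n := by
  induction n with
  | zero => simp [rep_zero, val_nil]
  | succ n ih => rw [rep_succ, val_append, ih, pow_succ']

theorem st_nil (p : A.Q) : A.st p [] = p := rfl

theorem st_append (p : A.Q) (u v : List A.S) : A.st p (u ++ v) = A.st (A.st p u) v := by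
  simp [st, DFA.evalFrom_of_append]

theorem st_rep {p : A.Q} {u : List A.S} (h : A.st p u = p) (n : ℕ) : A.st p (rep u n) = p := by
  induction n with
  | zero => rfl
  | succ n ih => rw [rep_succ, st_append, h, ih]

theorem mem_accepts (w : List A.S) : w ∈ A.M.accepts ↔ A.st A.q0 w ∈ A.M.accept := by
  rfl

theorem take_append_drop_st (p : A.Q) (V : List A.S) (t : ℕ) :
    A.st (A.st p (V.take t)) (V.drop t) = A.st p V := by
  rw [← st_append, List.take_append_drop]

theorem L_val_le (w : List A.S) : D.L (A.val w) ≤ w.length := by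
  induction w with
  | nil => simp [val_nil, D.L_one]
  | cons a w ih =>
    rw [val_cons, List.length_cons]
    have h1 := D.L_mul (A.mu a) (A.val w)
    have h2 := A.mu_L a
    omega

theorem abs_e_val_le (w : List A.S) : |D.e (A.val w)| ≤ w.length :=
  (D.e_le _).trans (by exact_mod_cast A.L_val_le w)

theorem exists_xi : ∃ ξ : ℝ, 1 ≤ ξ ∧ ∀ w : List A.S, D.N (A.val w) ≤ ξ * w.length := by
  classical
  obtain ⟨c, hc⟩ : ∃ c : ℝ, ∀ a : A.S, D.N (A.mu a) ≤ c := by
    refine ⟨∑ a : A.S, |D.N (A.mu a)|, fun a => ?_⟩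
    refine (le_abs_self _).trans ?_
    exact Finset.single_le_sum (f := fun a => |D.N (A.mu a)|) (fun _ _ => abs_nonneg _)
      (Finset.mem_univ a)
  refine ⟨max c 1, le_max_right _ _, fun w => ?_⟩
  have hx1 : D.x 1 = 0 := by
    have h := D.x_mul 1 1
    simp only [mul_one] at h
    have h2 : D.al ^ (D.e 1) * D.x 1 = 0 := by
      have := h
      linear_combination -this
    rcases mul_eq_zero.1 h2 with h3 | h3
    · exfalso
      have : D.al ≠ 0 := by
        intro h0
        have := D.al_norm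
        rw [h0] at this
        simp at this
      exact zpow_ne_zero _ this h3
    · exact h3
  have hN : ∀ g h : H, D.N (g * h) ≤ D.N g + D.N h := by
    intro g h
    unfold Geo.N
    rw [D.x_mul]
    have h1 : ‖D.x g + D.al ^ (D.e g) * D.x h‖ ≤ ‖D.x g‖ + ‖D.x h‖ := by
      refine (norm_add_le _ _).trans ?_
      rw [norm_mul, norm_zpow, D.al_norm]
      simp
    have h2 : (D.L (g * h) : ℝ) ≤ D.L g + D.L h := by exact_mod_cast D.L_mul g h
    linarith
  induction w with
  | nil => simp [val_nil, Geo.N, hx1, D.L_one]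
  | cons a w ih =>
    rw [val_cons, List.length_cons]
    refine (hN _ _).trans ?_
    push_cast
    have := hc a
    have := le_max_left c 1
    nlinarith

theorem acc_q0 : A.acc A.q0 := ⟨[], rfl⟩

theorem acc_st {p : A.Q} (h : A.acc p) (V : List A.S) : A.acc (A.st p V) := by
  obtain ⟨u, rfl⟩ := h
  exact ⟨u ++ V, A.st_append _ _ _⟩

theorem coacc_of_st {p : A.Q} {V : List A.S} (h : A.coacc (A.st p V)) : A.coacc p := by
  obtain ⟨z, hz⟩ := h
  exact ⟨V ++ z, by rw [A.st_append]; exact hz⟩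

theorem coacc_take {p : A.Q} {V : List A.S} (h : A.coacc (A.st p V)) (t : ℕ) :
    A.coacc (A.st p (V.take t)) := by
  rw [← A.take_append_drop_st p V t] at h
  exact A.coacc_of_st h

theorem live_of_mem {W : List A.S} (h : W ∈ A.M.accepts) (t : ℕ) :
    A.live (A.st A.q0 (W.take t)) :=
  ⟨⟨_, rfl⟩, A.coacc_take (p := A.q0) (V := W) ⟨[], h⟩ t⟩

theorem live_st {p : A.Q} (h : A.live p) {V : List A.S} (hV : A.coacc (A.st p V)) :
    A.live (A.st p V) := ⟨A.acc_st h.1 V, hV⟩

theorem sc_refl (p : A.Q) : A.sc p p := ⟨⟨[], rfl⟩, ⟨[], rfl⟩⟩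

theorem sc_symm {p q : A.Q} (h : A.sc p q) : A.sc q p := ⟨h.2, h.1⟩

theorem sc_trans {p q r : A.Q} (h : A.sc p q) (h' : A.sc q r) : A.sc p r := by
  obtain ⟨⟨a, rfl⟩, ⟨b, hb⟩⟩ := h
  obtain ⟨⟨c, rfl⟩, ⟨d, hd⟩⟩ := h'
  exact ⟨⟨a ++ c, A.st_append _ _ _⟩, ⟨d ++ b, by rw [A.st_append, hd, hb]⟩⟩

theorem sc_take {p : A.Q} {V : List A.S} (h : A.sc p (A.st p V)) (t : ℕ) :
    A.sc p (A.st p (V.take t)) := by
  obtain ⟨_, ⟨b, hb⟩⟩ := h
  refine ⟨⟨_, rfl⟩, ⟨V.drop t ++ b, ?_⟩⟩
  rw [A.st_append, A.take_append_drop_st, hb]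

theorem sc_drop {p : A.Q} {V : List A.S} (h : A.sc p (A.st p V)) (t : ℕ) :
    A.sc (A.st p (V.take t)) (A.st (A.st p (V.take t)) (V.drop t)) := by
  rw [A.take_append_drop_st]
  exact A.sc_trans (A.sc_symm (A.sc_take h t)) h

theorem live_sc {p q : A.Q} (h : A.live p) (h' : A.sc p q) : A.live q := by
  obtain ⟨⟨a, rfl⟩, ⟨b, hb⟩⟩ := h'
  refine ⟨A.acc_st h.1 _, A.coacc_of_st (V := b) ?_⟩
  rw [hb]; exact h.2

theorem Vert_sc {p q : A.Q} (h : A.Vert p) (h' : A.sc p q) : A.Vert q := by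
  obtain ⟨hl, z, hz, hze⟩ := h
  refine ⟨A.live_sc hl h', ?_⟩
  obtain ⟨⟨a, ha⟩, ⟨b, hb⟩⟩ := h'
  by_cases h0 : D.e (A.val (b ++ a)) = 0
  · refine ⟨b ++ z ++ a, ?_, ?_⟩
    · rw [A.st_append, A.st_append, hb, hz, ha]
    · rw [A.val_append, D.e_mul] at h0
      rw [A.val_append, A.val_append, D.e_mul, D.e_mul]
      intro h1
      apply hze
      omega
  · exact ⟨b ++ a, by rw [A.st_append, hb, ha], h0⟩

theorem EE_sc {p q : A.Q} (h : A.EE p) (h' : A.sc p q) : A.EE q := by
  obtain ⟨hl, r, y, hr, hy⟩ := h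
  exact ⟨A.live_sc hl h', r, y, A.sc_trans (A.sc_symm h') hr, hy⟩

theorem Nice_st {p : A.Q} (h : A.Nice p) {V : List A.S} (hV : A.coacc (A.st p V)) :
    A.Nice (A.st p V) := by
  obtain ⟨_, s, W, hs, rfl⟩ := h
  exact ⟨hV, s, W ++ V, hs, A.st_append _ _ _⟩

theorem Nice_live {p : A.Q} (h : A.Nice p) : A.live p := by
  obtain ⟨h1, s, W, hs, rfl⟩ := h
  exact ⟨A.acc_st hs.1.1 _, h1⟩

theorem NiceRoot_Vert {p : A.Q} (h : A.NiceRoot p) : A.Vert p := by
  obtain ⟨h1, A1, A2, h2, h3, h4, h5, h6⟩ := h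
  exact ⟨h1, A1, h2, h4⟩

theorem NiceRoot_Nice {p : A.Q} (h : A.NiceRoot p) : A.Nice p := ⟨h.1.2, p, [], h, rfl⟩

/-- uniqueness (U') -/
theorem uniq_path {p : A.Q} {V V' : List A.S} (hp : A.acc p) (hV : A.coacc (A.st p V))
    (h : A.st p V = A.st p V') (hv : A.val V = A.val V') : V = V' := by
  obtain ⟨u, hu⟩ := hp
  obtain ⟨z, hz⟩ := hV
  have h1 : u ++ V ++ z ∈ A.M.accepts := by
    rw [A.mem_accepts, A.st_append, A.st_append, hu]; exact hz
  have h2 : u ++ V' ++ z ∈ A.M.accepts := by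
    rw [A.mem_accepts, A.st_append, A.st_append, hu, ← h]; exact hz
  have h3 : A.val (u ++ V ++ z) = A.val (u ++ V' ++ z) := by
    rw [A.val_append, A.val_append, A.val_append, A.val_append, hv]
  have h4 := A.uniq _ _ h1 h2 h3
  simpa using h4

/-- accepted word with a given value -/
theorem exists_word (g : H) : ∃ W ∈ A.M.accepts, A.val W = g := A.surj g

/-- fellow traveller property in terms of `val` -/
theorem ft' {W W' : List A.S} (h : W ∈ A.M.accepts) (h' : W' ∈ A.M.accepts) (t : ℕ) :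
    D.N ((A.val (W.take t))⁻¹ * A.val (W'.take t)) ≤ A.k * (D.N ((A.val W)⁻¹ * A.val W') + 1) :=
  A.ft W W' h h' t

theorem ll' {W W' : List A.S} (h : W ∈ A.M.accepts) (h' : W' ∈ A.M.accepts) :
    |(W.length : ℝ) - W'.length| ≤ A.k * (D.N ((A.val W)⁻¹ * A.val W') + 1) :=
  A.ll W W' h h'

/-- number of states reachable from `q` -/
noncomputable def rk (q : A.Q) : ℕ := {r | ∃ V, A.st q V = r}.ncard

theorem reach_subset (q : A.Q) (V : List A.S) :
    {r | ∃ U, A.st (A.st q V) U = r} ⊆ {r | ∃ U, A.st q U = r} := by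
  rintro r ⟨U, rfl⟩
  exact ⟨V ++ U, A.st_append _ _ _⟩

theorem rk_le (q : A.Q) (V : List A.S) : A.rk (A.st q V) ≤ A.rk q :=
  Set.ncard_le_ncard (A.reach_subset q V) (Set.toFinite _)

theorem rk_le_card (q : A.Q) : A.rk q ≤ Fintype.card A.Q := by
  unfold rk
  rw [← Nat.card_eq_fintype_card, ← Set.ncard_univ]
  exact Set.ncard_le_ncard (Set.subset_univ _) (Set.toFinite _)

theorem rk_pos (q : A.Q) : 0 < A.rk q :=
  (Set.ncard_pos (Set.toFinite _)).2 ⟨q, [], rfl⟩

theorem sc_of_rk_eq {q : A.Q} {V : List A.S} (h : A.rk (A.st q V) = A.rk q) :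
    A.sc q (A.st q V) := by
  refine ⟨⟨V, rfl⟩, ?_⟩
  have h1 := Set.eq_of_subset_of_ncard_le (A.reach_subset q V) (le_of_eq h.symm) (Set.toFinite _)
  have h2 : q ∈ {r | ∃ U, A.st q U = r} := ⟨[], rfl⟩
  rw [← h1] at h2
  exact h2

theorem rk_eq_of_sc {p q : A.Q} (h : A.sc p q) : A.rk p = A.rk q := by
  obtain ⟨⟨a, ha⟩, ⟨b, hb⟩⟩ := h
  apply le_antisymm
  · have := A.rk_le q b; rwa [hb] at this
  · have := A.rk_le p a; rwa [ha] at this

end Auto

end H57.QI
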