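import Mathlib

/-!
# Definitions for MP_5bc3cb_al : combable groups and automatic groups
-/

set_option autoImplicit false

namespace H57.Combable

/-- the word distance: the least length of a word in the elements of `S` and their inverses which
represents `g⁻¹ * h` -/
noncomputable def wordDist {G : Type} [Group G] (S : Finset G) (g h : G) : ℕ :=
  sInf {n | ∃ l : List G, l.length = n ∧ (∀ s ∈ l, s ∈ S ∨ s⁻¹ ∈ S) ∧ l.prod = g⁻¹ * h}

/-- a `(k, ε)`-broken path in `X` starting at `x0`, with domain `[0, b]`, extended to `[0, ∞)` by its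
end point -/
structure BrokenPath (X : Type) [MetricSpace X] (k ε : ℝ) (x0 : X) where
  b : ℝ
  b_nonneg : 0 ≤ b
  p : ℝ → X
  start : p 0 = x0
  broken : ∀ s t, 0 ≤ s → s ≤ b → 0 ≤ t → t ≤ b → dist (p s) (p t) ≤ k * |s - t| + ε
  ext : ∀ t, b ≤ t → p t = p b

/-- the distance `d_P` of two broken paths -/
noncomputable def dP {X : Type} [MetricSpace X] {k ε : ℝ} {x0 : X} (p q : BrokenPath X k ε x0) :
    ENNReal :=
  (⨆ t : {t : ℝ // 0 ≤ t}, edist (p.p t) (q.p t)) + ENNReal.ofReal |p.b - q.b|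

/-- `X`, with base point `x0`, is combable -/
def IsCombable (X : Type) [MetricSpace X] (x0 : X) : Prop :=
  ∃ (k ε : ℝ) (σ : X → BrokenPath X k ε x0) (lam c : ℝ), 1 ≤ k ∧ 0 ≤ ε ∧ 1 ≤ lam ∧ 0 ≤ c ∧
    (∀ x, (σ x).p (σ x).b = x) ∧
    (∀ x y, ENNReal.ofReal (lam⁻¹ * dist x y - c) ≤ dP (σ x) (σ y) ∧
      dP (σ x) (σ y) ≤ ENNReal.ofReal (lam * dist x y + c))

/-- the value in `G` of a word over the subset `A` of `G` -/
def value {G : Type} [Group G] (A : Finset G) (w : List {a : G // a ∈ A}) : G :=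
  (w.map Subtype.val).prod

/-- automatic group (fellow traveller form) -/
def IsAutomatic (G : Type) [Group G] : Prop :=
  ∃ A : Finset G, (∀ a ∈ A, a⁻¹ ∈ A) ∧ Subgroup.closure (A : Set G) = ⊤ ∧
    ∃ L : Language {a : G // a ∈ A}, L.IsRegular ∧ (∀ g : G, ∃ w ∈ L, value A w = g) ∧
      ∃ K : ℕ, ∀ u ∈ L, ∀ v ∈ L, wordDist A (value A u) (value A v) ≤ 1 →
        ∀ t : ℕ, wordDist A (value A (u.take t)) (value A (v.take t)) ≤ K

end H57.Combable
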