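import Pool.Agent.Lib_helper57.QI.DTree

/-!
# Arithmetic of `O = ℤ[ω]`
-/

set_option autoImplicit false

open FreeGroup (of toWord)


namespace H57.QI

/-- the ring `ℤ[ω]`, `ω² = ω - 2` -/
abbrev RO := QuadraticAlgebra ℤ (-2) 1

/-- the embedding of `ℤ[ω]` into `ℂ` -/
noncomputable def psi : RO →+* ℂ where
  toFun z := z.re + z.im * om
  map_one' := by simp [QuadraticAlgebra.re_one, QuadraticAlgebra.im_one]
  map_zero' := by simp
  map_add' z w := by simp only [QuadraticAlgebra.re_add, QuadraticAlgebra.im_add]; push_cast; ring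
  map_mul' z w := by
    simp only [QuadraticAlgebra.re_mul, QuadraticAlgebra.im_mul]
    push_cast
    linear_combination (-(z.im : ℂ) * w.im) * om_sq

theorem psi_apply (z : RO) : psi z = z.re + z.im * om := rfl

theorem psi_eq_iota (z : RO) : psi z = iota (z.re, z.im) := rfl

theorem psi_injective : Function.Injective psi := by
  intro z w h
  have := iota_injective (show iota (z.re, z.im) = iota (w.re, w.im) from h)
  rw [Prod.mk.injEq] at this
  ext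
  · exact this.1
  · exact this.2

/-- `ω` and its conjugate -/
def wR : RO := ⟨0, 1⟩
def wcR : RO := ⟨1, -1⟩

theorem psi_wR : psi wR = om := by simp [psi_apply, wR]
theorem psi_wcR : psi wcR = omc := by
  simp only [psi_apply, wcR]
  push_cast
  linear_combination om_add * (-1)

theorem wR_add : wR + wcR = 1 := by
  ext <;> simp [wR, wcR, QuadraticAlgebra.re_one, QuadraticAlgebra.im_one]

theorem wR_mul : wR * wcR = 2 := by
  apply psi_injective
  rw [map_mul, psi_wR, psi_wcR, om_mul]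
  exact (map_ofNat psi 2).symm

theorem wR_coprime : IsCoprime wR wcR := ⟨1, 1, by rw [one_mul, one_mul, wR_add]⟩

/-- the norm form -/
def nm (z : RO) : ℤ := z.re ^ 2 + z.re * z.im + 2 * z.im ^ 2

theorem normSq_psi (z : RO) : ‖psi z‖ ^ 2 = nm z := by
  rw [← Complex.normSq_eq_norm_sq, Complex.normSq_apply]
  simp only [psi_apply, om, Complex.add_re, Complex.mul_re, Complex.intCast_re, Complex.intCast_im,
    zero_mul, sub_zero, Complex.add_im, Complex.mul_im, zero_add, add_zero]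
  unfold nm
  push_cast
  nlinarith [sq7]

theorem norm_om_sq : ‖om‖ ^ 2 = 2 := by
  rw [← psi_wR, normSq_psi]; simp [nm, wR]

theorem nm_pos {z : RO} (h : z ≠ 0) : 1 ≤ nm z := by
  have h1 : 0 < ‖psi z‖ ^ 2 := by
    have : psi z ≠ 0 := by
      intro h0
      apply h
      apply psi_injective
      rw [h0, map_zero]
    positivity
  rw [normSq_psi] at h1
  have : (0 : ℤ) < nm z := by exact_mod_cast h1
  omega

/-- the lattice -/
noncomputable def OO : AddSubgroup ℂ := psi.toAddMonoidHom.range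

theorem mem_OO {z : ℂ} : z ∈ OO ↔ ∃ a : RO, psi a = z := Iff.rfl

theorem psi_mem (a : RO) : psi a ∈ OO := ⟨a, rfl⟩

theorem iota_mem (p : ℤ × ℤ) : iota p ∈ OO := ⟨⟨p.1, p.2⟩, rfl⟩

theorem OO_mul (a : RO) {z : ℂ} (hz : z ∈ OO) : psi a * z ∈ OO := by
  obtain ⟨b, rfl⟩ := mem_OO.1 hz
  rw [← map_mul]; exact psi_mem _

theorem mem_OO_iota {z : ℂ} : z ∈ OO ↔ ∃ p : ℤ × ℤ, iota p = z := by
  rw [mem_OO]
  constructor
  · rintro ⟨a, rfl⟩; exact ⟨(a.re, a.im), rfl⟩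
  · rintro ⟨p, rfl⟩; exact ⟨⟨p.1, p.2⟩, rfl⟩

theorem OO_min : ∀ z ∈ OO, z ≠ 0 → 1 ≤ ‖z‖ := by
  intro z hz h0
  obtain ⟨a, rfl⟩ := mem_OO.1 hz
  have ha : a ≠ 0 := by rintro rfl; exact h0 (map_zero _)
  have h1 := nm_pos ha
  have h2 := normSq_psi a
  have h3 : (1 : ℝ) ≤ nm a := by exact_mod_cast h1
  rw [← h2] at h3
  by_contra hlt
  push Not at hlt
  have := norm_nonneg (psi a)
  nlinarith

theorem sqrt7_bounds : (2 : ℝ) < √7 ∧ √7 < 2.7 := by
  have h := sq7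
  have h0 : 0 ≤ √7 := Real.sqrt_nonneg 7
  constructor <;> nlinarith

theorem iota_im_bound (p : ℤ × ℤ) : |(p.2 : ℝ)| ≤ ‖iota p‖ := by
  have h1 : (iota p).im = p.2 * (√7 / 2) := by simp [iota, om]
  have h2 := Complex.abs_im_le_norm (iota p)
  rw [h1, abs_mul, abs_of_pos (by linarith [sqrt7_bounds.1] : (0:ℝ) < √7 / 2)] at h2
  have h3 := sqrt7_bounds.1
  nlinarith [abs_nonneg (p.2 : ℝ)]

theorem iota_re_bound (p : ℤ × ℤ) : |(p.1 : ℝ)| ≤ 2 * ‖iota p‖ := by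
  have h1 : (iota p).re = p.1 + p.2 / 2 := by simp [iota, om]; ring
  have h2 := Complex.abs_re_le_norm (iota p)
  have h3 := iota_im_bound p
  rw [h1] at h2
  have h4 : |(p.1 : ℝ)| ≤ |(p.1 : ℝ) + p.2 / 2| + |(p.2 : ℝ) / 2| := by
    have := abs_sub (((p.1 : ℝ) + p.2 / 2)) ((p.2 : ℝ) / 2)
    rwa [add_sub_cancel_right] at this
  have h5 : |(p.2 : ℝ) / 2| = |(p.2 : ℝ)| / 2 := by rw [abs_div]; norm_num
  rw [h5] at h4
  linarith [norm_nonneg (iota p)]

theorem OO_fin (R : ℝ) : {z : ℂ | z ∈ OO ∧ ‖z‖ ≤ R}.Finite := by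
  set N : ℤ := ⌈2 * |R|⌉ with hN
  have hfin : (Set.Icc (-N, -N) (N, N) : Set (ℤ × ℤ)).Finite := Set.finite_Icc _ _
  apply (hfin.image iota).subset
  rintro z ⟨hz, hzR⟩
  obtain ⟨p, rfl⟩ := mem_OO_iota.1 hz
  refine ⟨p, ?_, rfl⟩
  have h1 := iota_im_bound p
  have h2 := iota_re_bound p
  have h3 : 2 * |R| ≤ N := Int.le_ceil _
  have h4 : R ≤ |R| := le_abs_self R
  have h5 : |(p.1 : ℝ)| ≤ N := by linarith
  have h6 : |(p.2 : ℝ)| ≤ N := by linarith [abs_nonneg R]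
  rw [abs_le] at h5 h6
  have h7 : -N ≤ p.1 ∧ p.1 ≤ N := ⟨by exact_mod_cast h5.1, by exact_mod_cast h5.2⟩
  have h8 : -N ≤ p.2 ∧ p.2 ≤ N := ⟨by exact_mod_cast h6.1, by exact_mod_cast h6.2⟩
  exact ⟨⟨h7.1, h8.1⟩, ⟨h7.2, h8.2⟩⟩

theorem OO_cover (z : ℂ) : ∃ o ∈ OO, ‖z - o‖ ≤ 2 := by
  have h7 := sqrt7_bounds
  set b : ℤ := round (z.im / (√7 / 2)) with hb
  set a : ℤ := round (z.re - b / 2) with ha
  refine ⟨iota (a, b), iota_mem _, ?_⟩
  have h1 : (iota (a, b)).re = a + b / 2 := by simp [iota, om]; ring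
  have h2 : (iota (a, b)).im = b * (√7 / 2) := by simp [iota, om]
  have h3 := abs_sub_round (z.im / (√7 / 2))
  have h4 := abs_sub_round (z.re - b / 2)
  refine (Complex.norm_le_abs_re_add_abs_im _).trans ?_
  rw [Complex.sub_re, Complex.sub_im, h1, h2]
  have h5 : |z.re - (a + b / 2)| ≤ 1 / 2 := by
    have : z.re - (a + b / 2) = z.re - b / 2 - a := by ring
    rw [this]; exact h4
  have h6 : |z.im - b * (√7 / 2)| ≤ 1 / 2 * (√7 / 2) := by
    have hp : (0:ℝ) < √7 / 2 := by linarith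
    have : z.im - b * (√7 / 2) = (z.im / (√7 / 2) - b) * (√7 / 2) := by
      field_simp
    rw [this, abs_mul, abs_of_pos hp]
    exact mul_le_mul_of_nonneg_right h3 hp.le
  linarith

theorem OO_int (m : ℕ) (z : ℂ) (hz : z ∈ OO) (hz2 : al ^ (-(m : ℤ)) * z ∈ OO) (h0 : z ≠ 0) :
    (2 : ℝ) ^ m ≤ ‖z‖ ^ 2 := by
  obtain ⟨a, rfl⟩ := mem_OO.1 hz
  obtain ⟨b, hb⟩ := mem_OO.1 hz2
  have h1 : omc ^ m * psi a = om ^ m * psi b := by
    rw [hb, zpow_neg, zpow_natCast, al, div_pow]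
    have := om_ne
    have := omc_ne
    field_simp
  have h2 : wcR ^ m * a = wR ^ m * b := by
    apply psi_injective
    rw [map_mul, map_mul, map_pow, map_pow, psi_wR, psi_wcR]
    exact h1
  have h3 : wR ^ m ∣ a := by
    have hc : IsCoprime (wR ^ m) (wcR ^ m) := wR_coprime.pow
    exact hc.dvd_of_dvd_mul_left ⟨b, h2⟩
  obtain ⟨c, rfl⟩ := h3
  have hc : c ≠ 0 := by
    rintro rfl
    apply h0
    rw [mul_zero, map_zero]
  rw [map_mul, map_pow, psi_wR, norm_mul, norm_pow, mul_pow, ← pow_mul, mul_comm m 2, pow_mul,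
    norm_om_sq, normSq_psi]
  have h4 : (1 : ℝ) ≤ nm c := by exact_mod_cast nm_pos hc
  have h5 : (0:ℝ) < 2 ^ m := by positivity
  nlinarith

theorem al_ne (n : ℕ) (hn : 0 < n) : al ^ n ≠ 1 := by
  intro h
  have h1 : (1 : ℂ) ∈ OO := ⟨1, map_one psi⟩
  have h2 := OO_int n 1 h1 (by rw [zpow_neg, zpow_natCast, h]; simpa using h1) one_ne_zero
  rw [norm_one, one_pow] at h2
  have : (1 : ℝ) < 2 ^ n := one_lt_pow₀ (by norm_num) hn.ne'
  linarith

/-! ### `O[1/2]` -/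

noncomputable def OO2 : AddSubgroup ℂ where
  carrier := {z | ∃ n : ℕ, (2 : ℂ) ^ n * z ∈ OO}
  zero_mem' := ⟨0, by simp⟩
  add_mem' := by
    rintro a b ⟨n, hn⟩ ⟨m, hm⟩
    refine ⟨n + m, ?_⟩
    have h2 : psi 2 = 2 := map_ofNat psi 2
    have e : (2 : ℂ) ^ (n + m) * (a + b) = psi (2 ^ m) * (2 ^ n * a) + psi (2 ^ n) * (2 ^ m * b) := by
      rw [map_pow, map_pow, h2]; ring
    rw [e]
    exact add_mem (OO_mul _ hn) (OO_mul _ hm)
  neg_mem' := by
    rintro a ⟨n, hn⟩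
    exact ⟨n, by rw [mul_neg]; exact neg_mem hn⟩

theorem mem_OO2 {z : ℂ} : z ∈ OO2 ↔ ∃ n : ℕ, (2 : ℂ) ^ n * z ∈ OO := Iff.rfl

theorem OO_le : OO ≤ OO2 := fun z hz => ⟨0, by simpa using hz⟩

theorem OO2_mul (a : RO) {z : ℂ} (hz : z ∈ OO2) : psi a * z ∈ OO2 := by
  obtain ⟨n, hn⟩ := mem_OO2.1 hz
  refine ⟨n, ?_⟩
  have e : (2 : ℂ) ^ n * (psi a * z) = psi a * (2 ^ n * z) := by ring
  rw [e]; exact OO_mul _ hn

theorem OO2_half {z : ℂ} (hz : z ∈ OO2) : z / 2 ∈ OO2 := by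
  obtain ⟨n, hn⟩ := mem_OO2.1 hz
  refine ⟨n + 1, ?_⟩
  have e : (2 : ℂ) ^ (n + 1) * (z / 2) = 2 ^ n * z := by rw [pow_succ]; ring
  rw [e]; exact hn

theorem al_eq : al = om ^ 2 / 2 := by
  have h1 := om_ne
  have h2 := omc_ne
  rw [al, ← om_mul]
  field_simp

theorem al_inv_eq : al⁻¹ = omc ^ 2 / 2 := by
  have h1 := om_ne
  have h2 := omc_ne
  rw [al, ← om_mul]
  field_simp

theorem OO2_al1 {z : ℂ} (hz : z ∈ OO2) : al * z ∈ OO2 := by
  have e : al * z = psi (wR ^ 2) * z / 2 := by rw [al_eq, map_pow, psi_wR]; ring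
  rw [e]; exact OO2_half (OO2_mul _ hz)

theorem OO2_al2 {z : ℂ} (hz : z ∈ OO2) : al⁻¹ * z ∈ OO2 := by
  have e : al⁻¹ * z = psi (wcR ^ 2) * z / 2 := by rw [al_inv_eq, map_pow, psi_wcR]; ring
  rw [e]; exact OO2_half (OO2_mul _ hz)

theorem OO2_al : ∀ z ∈ OO2, ∀ n : ℤ, al ^ n * z ∈ OO2 := by
  intro z hz n
  induction n using Int.induction_on with
  | zero => simpa using hz
  | succ n ih =>
    rw [zpow_add₀ al_ne_zero, zpow_one, mul_comm (al ^ (n : ℤ)) al, mul_assoc]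
    exact OO2_al1 ih
  | pred n ih =>
    rw [sub_eq_add_neg, zpow_add₀ al_ne_zero, zpow_neg_one, mul_comm (al ^ (-(n : ℤ))) al⁻¹, mul_assoc]
    exact OO2_al2 ih

theorem one_mem_OO2 : (1 : ℂ) ∈ OO2 := OO_le ⟨1, map_one psi⟩

theorem XF_mem (f : FB) : XF f ∈ OO2 := by
  have hxc : ∀ c, xc c ∈ OO2 := by
    intro c
    cases c
    · simp only [xc, Bool.false_eq_true, if_false]; exact zero_mem _
    · simp only [xc, if_true]
      have := OO2_al1 one_mem_OO2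
      rw [mul_one] at this
      exact add_mem one_mem_OO2 this
  induction f using FB_induction with
  | one => simp only [XF_one]; exact zero_mem _
  | of c => rw [XF_of]; exact hxc c
  | inv_of c =>
    rw [XF, AA_inv_of, zero_sub]
    exact OO2_al2 (neg_mem (hxc c))
  | mul x y hx hy =>
    rw [XF_mul]
    exact add_mem hx (OO2_al _ hy _)

theorem LM.x_mem (g : LM) : LM.x g ∈ OO2 := add_mem (XF_mem _) (OO2_al _ (OO_le (iota_mem _)) _)

/-! ### centres -/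

theorem conj_psi (u : RO) : (starRingEnd ℂ) (psi u) = psi ⟨u.re + u.im, -u.im⟩ := by
  rw [psi_apply, psi_apply, map_add, map_mul, ← omc_eq_conj]
  simp only [map_intCast]
  push_cast
  linear_combination (u.im : ℂ) * om_add

theorem pow_ne_pow {n : ℕ} (hn : 0 < n) : wcR ^ n ≠ wR ^ n := by
  intro h
  apply al_ne n hn
  have h1 := congrArg psi h
  rw [map_pow, map_pow, psi_wR, psi_wcR] at h1
  rw [al, div_pow, ← h1, div_self (pow_ne_zero _ omc_ne)]

theorem one_sub_al_pow (n : ℕ) : 1 - al ^ n = psi (wcR ^ n - wR ^ n) / omc ^ n := by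
  have := pow_ne_zero n omc_ne
  rw [map_sub, map_pow, map_pow, psi_wR, psi_wcR, al, div_pow]
  field_simp

theorem cen_den_pos (n : ℕ) (hn : 0 < n) :
    ∃ D : ℕ, 0 < D ∧ ∀ z ∈ OO2, (D : ℂ) * (z / (1 - al ^ n)) ∈ OO2 := by
  set u := wcR ^ n - wR ^ n with hu
  have hu0 : u ≠ 0 := sub_ne_zero.2 (pow_ne_pow hn)
  have h1 := nm_pos hu0
  refine ⟨(nm u).toNat, by omega, fun z hz => ?_⟩
  have h2 : ((nm u).toNat : ℂ) = psi u * psi ⟨u.re + u.im, -u.im⟩ := by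
    rw [← conj_psi, Complex.mul_conj, Complex.normSq_eq_norm_sq, normSq_psi]
    have : ((nm u).toNat : ℤ) = nm u := Int.toNat_of_nonneg (by omega)
    have h3 : (((nm u).toNat : ℤ) : ℂ) = ((nm u : ℤ) : ℂ) := by rw [this]
    push_cast at h3 ⊢
    exact h3
  have hpu : psi u ≠ 0 := by
    intro h0
    apply hu0
    apply psi_injective
    rw [h0, map_zero]
  have h4 := pow_ne_zero n omc_ne
  have e : ((nm u).toNat : ℂ) * (z / (1 - al ^ n)) =
      psi (⟨u.re + u.im, -u.im⟩ * wcR ^ n) * z := by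
    rw [one_sub_al_pow, ← hu, h2, map_mul, map_pow, psi_wcR]
    field_simp
  rw [e]
  exact OO2_mul _ hz

theorem cen_den (n : ℤ) (hn : n ≠ 0) :
    ∃ D : ℕ, 0 < D ∧ ∀ z ∈ OO2, (D : ℂ) * (z / (1 - al ^ n)) ∈ OO2 := by
  rcases lt_or_gt_of_ne hn with h | h
  · obtain ⟨k, hk⟩ := Int.eq_ofNat_of_zero_le (show 0 ≤ -n by omega)
    have hk0 : 0 < k := by omega
    obtain ⟨D, hD, hz⟩ := cen_den_pos k hk0
    refine ⟨D, hD, fun z hzO => ?_⟩
    have h1 : n = -(k : ℤ) := by omega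
    have h2 : (1 : ℂ) - al ^ n = -(al ^ n) * (1 - al ^ k) := by
      rw [h1, zpow_neg, zpow_natCast]
      have := pow_ne_zero k al_ne_zero
      field_simp
      ring
    have h3 : z / (1 - al ^ n) = (-(al ^ (-n) * z)) / (1 - al ^ k) := by
      rw [h2]
      have h4 : al ^ n ≠ 0 := zpow_ne_zero _ al_ne_zero
      have h5 : (1 : ℂ) - al ^ k ≠ 0 := sub_ne_zero.2 (Ne.symm (al_ne k hk0))
      rw [zpow_neg]
      field_simp
    rw [h3]
    exact hz _ (neg_mem (OO2_al _ hzO _))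
  · obtain ⟨k, hk⟩ := Int.eq_ofNat_of_zero_le h.le
    have hk0 : 0 < k := by omega
    rw [hk]
    simp only [zpow_natCast]
    exact cen_den_pos k hk0

end H57.QI
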