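import Pool.Agent.Lib_helper57.QI.LM

/-!
# The action of `LM` on the plane
-/

set_option autoImplicit false

open FreeGroup (of)

namespace H57.QI

noncomputable def om : ℂ := ⟨1 / 2, √7 / 2⟩
noncomputable def omc : ℂ := ⟨1 / 2, -(√7 / 2)⟩

theorem om_add : om + omc = 1 := by
  apply Complex.ext
  · simp [om, omc]; norm_num
  · simp [om, omc]

theorem sq7 : √7 * √7 = (7 : ℝ) := Real.mul_self_sqrt (by norm_num)

theorem om_mul : om * omc = 2 := by
  apply Complex.ext
  · simp only [om, omc, Complex.mul_re]
    norm_num
    nlinarith [sq7]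
  · simp only [om, omc, Complex.mul_im, Complex.im_ofNat]
    ring

theorem om_sq : om * om = om - 2 := by
  have h : om * (om + omc) = om := by rw [om_add, mul_one]
  rw [mul_add, om_mul] at h
  linear_combination h

theorem omc_sq : omc * omc = omc - 2 := by
  have h : (om + omc) * omc = omc := by rw [om_add, one_mul]
  rw [add_mul, om_mul] at h
  linear_combination h

theorem om_ne : om ≠ 0 := by
  intro h
  have := om_mul
  rw [h, zero_mul] at this
  norm_num at this

theorem omc_ne : omc ≠ 0 := by
  intro h
  have := om_mul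
  rw [h, mul_zero] at this
  norm_num at this

theorem omc_eq_conj : omc = (starRingEnd ℂ) om := by
  apply Complex.ext <;> simp [om, omc]

theorem norm_omc : ‖omc‖ = ‖om‖ := by rw [omc_eq_conj, RCLike.norm_conj]

/-- the rotation -/
noncomputable def al : ℂ := om / omc

theorem al_norm : ‖al‖ = 1 := by
  rw [al, norm_div, norm_omc, div_self]
  exact norm_ne_zero_iff.2 om_ne

theorem al_ne_zero : al ≠ 0 := div_ne_zero om_ne omc_ne

theorem al_mul_omc : al * omc = om := by rw [al, div_mul_cancel₀ _ omc_ne]

/-- the lattice coordinates -/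
noncomputable def iota (p : ℤ × ℤ) : ℂ := p.1 + p.2 * om

theorem iota_add (p q : ℤ × ℤ) : iota (p + q) = iota p + iota q := by
  simp only [iota, Prod.fst_add, Prod.snd_add]; push_cast; ring

@[simp] theorem iota_zero : iota 0 = 0 := by simp [iota]

theorem iota_neg (p : ℤ × ℤ) : iota (-p) = -iota p := by
  simp only [iota, Prod.fst_neg, Prod.snd_neg]; push_cast; ring

theorem iota_injective : Function.Injective iota := by
  intro p q h
  have h1 := congrArg Complex.im h
  have h2 := congrArg Complex.re h
  simp only [iota, om, Complex.add_im, Complex.mul_im, Complex.intCast_im, Complex.intCast_re,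
    Complex.add_re, Complex.mul_re, zero_mul, sub_zero, add_zero, zero_add] at h1 h2
  have h7 : (0:ℝ) < √7 := Real.sqrt_pos.2 (by norm_num)
  have h3 : (p.2 : ℝ) = q.2 := by
    have : (p.2 : ℝ) * (√7 / 2) = q.2 * (√7 / 2) := h1
    exact mul_right_cancel₀ (by positivity) this
  have h4 : (p.1 : ℝ) = q.1 := by rw [h3] at h2; linarith
  ext
  · exact_mod_cast h4
  · exact_mod_cast h3

/-- translation parts of the generators -/
noncomputable def xc (c : Bool) : ℂ := if c then 1 + al else 0

/-- the generators as affine maps -/
noncomputable def Ag (c : Bool) : Equiv.Perm ℂ where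
  toFun z := al * z + xc c
  invFun z := al⁻¹ * (z - xc c)
  left_inv z := by
    simp only [add_sub_cancel_right]
    rw [← mul_assoc, inv_mul_cancel₀ al_ne_zero, one_mul]
  right_inv z := by
    simp only
    rw [← mul_assoc, mul_inv_cancel₀ al_ne_zero, one_mul, sub_add_cancel]

/-- the action of the free group on the plane -/
noncomputable def AA : FB →* Equiv.Perm ℂ := FreeGroup.lift Ag

/-- exponent sum -/
def eF : FB →* Multiplicative ℤ := FreeGroup.lift fun _ => Multiplicative.ofAdd 1

/-- exponent sum -/
def ee (f : FB) : ℤ := (eF f).toAdd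

@[simp] theorem ee_one : ee 1 = 0 := by simp [ee]
theorem ee_mul (f g : FB) : ee (f * g) = ee f + ee g := by simp [ee]
theorem ee_inv (f : FB) : ee f⁻¹ = - ee f := by simp [ee]
@[simp] theorem ee_of (c : Bool) : ee (of c) = 1 := by simp [ee, eF]

/-- translation part -/
noncomputable def XF (f : FB) : ℂ := AA f 0

theorem AA_of (c : Bool) (z : ℂ) : AA (of c) z = al * z + xc c := by simp [AA, Ag]

theorem AA_inv_of (c : Bool) (z : ℂ) : AA (of c)⁻¹ z = al⁻¹ * (z - xc c) := by
  have h : AA (of c)⁻¹ = (Ag c).symm := by simp [AA]; rfl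
  rw [h]; rfl

theorem FB_induction {C : FB → Prop} (g : FB) (one : C 1) (of : ∀ c, C (FreeGroup.of c))
    (inv_of : ∀ c, C (FreeGroup.of c)⁻¹) (mul : ∀ x y, C x → C y → C (x * y)) : C g :=
  FreeGroup.induction_on g one of (fun c _ => inv_of c) mul

theorem AA_apply (f : FB) : ∀ z, AA f z = XF f + al ^ (ee f) * z := by
  induction f using FB_induction with
  | one => intro z; simp [XF]
  | of c => intro z; simp [XF, AA_of, add_comm]
  | inv_of c =>
    intro z
    rw [XF, AA_inv_of, AA_inv_of, ee_inv, ee_of, zpow_neg, zpow_one]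
    ring
  | mul x y hx hy =>
    intro z
    have h1 : ∀ z, AA (x * y) z = AA x (AA y z) := fun z => by simp
    have h2 : XF (x * y) = AA x (AA y 0) := by rw [XF, h1]
    rw [h2, h1, hx, hy, hx, hy, ee_mul, zpow_add₀ al_ne_zero]
    ring

theorem XF_mul (f g : FB) : XF (f * g) = XF f + al ^ (ee f) * XF g := by
  rw [← AA_apply f, XF, XF]; simp

@[simp] theorem XF_one : XF 1 = 0 := by simp [XF]
theorem XF_of (c : Bool) : XF (of c) = xc c := by simp [XF, AA_of]

/-- compatibility for generators -/
theorem gen_compat (p : ℤ × ℤ) (c : Bool) :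
    al * iota (resF c p) + xc (lam c p) = iota p + xc c := by
  have key : om * iota (resF c p) + omc * xc (lam c p) = omc * (iota p + xc c) := by
    obtain ⟨a, b⟩ := p
    have hx : ∀ c : Bool, omc * xc c = if c then 1 else 0 := by
      intro c
      cases c
      · simp [xc]
      · simp only [xc, if_true]
        rw [mul_add, mul_one, mul_comm omc al, al_mul_omc, add_comm, om_add]
    rw [mul_add, hx, hx]
    have hm := om_mul
    have hs := om_sq
    have ha := om_add
    have hc : omc = 1 - om := by rw [← ha]; ring
    rcases Int.even_or_odd' a with ⟨k, rfl | rfl⟩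
    · have e1 : (2 * k) % 2 = 0 := by omega
      have e2 : (2 * k) / 2 = k := by omega
      simp only [lam, resF, e1, if_true, e2, iota]
      push_cast
      rw [hc] at hm ⊢
      linear_combination (-(k : ℂ) - b) * hs + (b : ℂ) * hs
    · have e1 : ¬ (2 * k + 1) % 2 = 0 := by omega
      have e2 : (2 * k + 1 - 1) / 2 = k := by omega
      have e3 : (2 * k + 1 + 1) / 2 = k + 1 := by omega
      cases c
      · simp only [lam, resF, e1, if_false, e2, iota]
        push_cast
        rw [hc] at hm ⊢
        simp
        linear_combination (-(k : ℂ) - b) * hs + (b : ℂ) * hs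
      · simp only [lam, resF, e1, if_false, e3, iota]
        push_cast
        rw [hc] at hm ⊢
        simp
        linear_combination (-(k : ℂ) - 1 - b) * hs + (b : ℂ) * hs
  have h2 : omc * (al * iota (resF c p) + xc (lam c p)) = omc * (iota p + xc c) := by
    rw [← key, mul_add, ← mul_assoc, mul_comm omc al, al_mul_omc]
  exact mul_left_cancel₀ omc_ne h2

/-- `p * g = act p g * res p g` as affine maps -/
theorem compat (g : FB) : ∀ (p : ℤ × ℤ) (z : ℂ),
    iota p + AA g z = AA (act p g) (z + iota (res p g)) := by
  induction g using FB_induction with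
  | one => intro p z; simp [act_one, res_one, add_comm]
  | of c =>
    intro p z
    rw [act_of, res_of, AA_of, AA_of]
    have := gen_compat p c
    linear_combination (-1 : ℂ) * this
  | inv_of c =>
    intro p z
    rw [act_inv_of, res_inv_of]
    have h := gen_compat (resG c p) c
    rw [resF_resG] at h
    rw [AA_inv_of, AA_inv_of]
    have h0 := al_ne_zero
    field_simp
    linear_combination h
  | mul x y hx hy =>
    intro p z
    have h1 : ∀ (x y : FB) (z : ℂ), AA (x * y) z = AA x (AA y z) := fun x y z => by simp
    rw [h1, act_mul, res_mul, h1, hx, add_comm (AA y z), hy]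

theorem ee_act (g : FB) : ∀ p : ℤ × ℤ, ee (act p g) = ee g := by
  induction g using FB_induction with
  | one => intro p; simp [act_one]
  | of c => intro p; simp [act_of]
  | inv_of c => intro p; simp [act_inv_of, ee_inv]
  | mul x y hx hy => intro p; rw [act_mul, ee_mul, ee_mul, hx, hy]

namespace LM

/-- exponent -/
def e (g : LM) : ℤ := ee g.f

/-- image of the origin of the plane -/
noncomputable def x (g : LM) : ℂ := XF g.f + al ^ (ee g.f) * iota g.p

theorem x_eq (g : LM) : x g = AA g.f (iota g.p) := by rw [x, AA_apply]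

theorem e_mul (g h : LM) : e (g * h) = e g + e h := by
  rw [e, mul_f, ee_mul, ee_act]; rfl

theorem x_mul (g h : LM) : x (g * h) = x g + al ^ (e g) * x h := by
  rw [x_eq, mul_f, mul_p, iota_add]
  have h1 : ∀ (x y : FB) (z : ℂ), AA (x * y) z = AA x (AA y z) := fun x y z => by simp
  rw [h1, add_comm (iota (res g.p h.f)), ← compat, AA_apply g.f, ← x_eq h, e, x_eq g,
    AA_apply g.f (iota g.p)]
  ring

end LM

end H57.QI
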