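import Pool.Agent.Lib_helper57.QI.DPlane

/-!
# The length function of `LM` : norms in the free group
-/

set_option autoImplicit false

open FreeGroup (of toWord invRev)


namespace H57.QI

theorem red_sub {u v : List (Bool × Bool)} (h : FreeGroup.IsReduced u) (h' : v <:+: u) :
    FreeGroup.IsReduced v := by
  obtain ⟨a, c, rfl⟩ := h'
  exact (List.IsChain.left_of_append h).right_of_append

/-! ### common initial parts -/

/-- length of the common initial part -/
def lcp {α : Type*} [DecidableEq α] : List α → List α → ℕ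
  | x :: u, y :: v => if x = y then lcp u v + 1 else 0
  | _, _ => 0

@[simp] theorem lcp_nil_left {α : Type*} [DecidableEq α] (v : List α) : lcp [] v = 0 := by
  cases v <;> rfl
@[simp] theorem lcp_nil_right {α : Type*} [DecidableEq α] (v : List α) : lcp v [] = 0 := by
  cases v <;> rfl
theorem lcp_cons {α : Type*} [DecidableEq α] (x y : α) (u v : List α) :
    lcp (x :: u) (y :: v) = if x = y then lcp u v + 1 else 0 := rfl

theorem lcp_min {α : Type*} [DecidableEq α] (u : List α) : ∀ v w : List α,
    min (lcp u v) (lcp v w) ≤ lcp u w := by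
  induction u with
  | nil => intro v w; simp
  | cons x u ih =>
    intro v w
    cases v with
    | nil => simp
    | cons y v =>
      cases w with
      | nil => simp
      | cons z w =>
        rw [lcp_cons, lcp_cons, lcp_cons]
        by_cases h1 : x = y
        · by_cases h2 : y = z
          · rw [if_pos h1, if_pos h2, if_pos (h1.trans h2)]
            have := ih v w
            omega
          · rw [if_neg h2]; simp
        · rw [if_neg h1]; simp

theorem isReduced_invRev {u : List (Bool × Bool)} (h : FreeGroup.IsReduced u) : FreeGroup.IsReduced (invRev u) := by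
  rw [FreeGroup.isReduced_iff_reduce_eq] at h ⊢
  rw [FreeGroup.reduce_invRev, h]

theorem norm_mk_of_reduced {u : List (Bool × Bool)} (h : FreeGroup.IsReduced u) : FreeGroup.norm (FreeGroup.mk u) = u.length := by
  rw [FreeGroup.norm, FreeGroup.toWord_mk, h.reduce_eq]

theorem mk_cons (x : Bool × Bool) (u : List (Bool × Bool)) : (FreeGroup.mk (x :: u) : FB) = FreeGroup.mk [x] * FreeGroup.mk u := by
  rw [FreeGroup.mul_mk]; rfl

theorem norm_inv_mul_words (u : List (Bool × Bool)) : ∀ v : List (Bool × Bool), FreeGroup.IsReduced u →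
    FreeGroup.IsReduced v → FreeGroup.norm ((FreeGroup.mk u)⁻¹ * FreeGroup.mk v : FB) + 2 * lcp u v = u.length + v.length := by
  induction u with
  | nil =>
    intro v _ hv
    have h1 : (FreeGroup.mk ([] : List (Bool × Bool)) : FB) = 1 := rfl
    rw [h1, inv_one, one_mul, norm_mk_of_reduced hv]
    simp
  | cons x u ih =>
    intro v hu hv
    cases v with
    | nil =>
      have h1 : (FreeGroup.mk ([] : List (Bool × Bool)) : FB) = 1 := rfl
      rw [h1, mul_one, FreeGroup.norm_inv_eq, norm_mk_of_reduced hu]
      simp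
    | cons y v =>
      rw [lcp_cons]
      by_cases h : x = y
      · subst h
        rw [if_pos rfl]
        have e : ((FreeGroup.mk (x :: u))⁻¹ * FreeGroup.mk (x :: v) : FB) = (FreeGroup.mk u)⁻¹ * FreeGroup.mk v := by
          rw [mk_cons x u, mk_cons x v]; group
        rw [e]
        have := ih v (red_sub hu ⟨[x], [], by simp⟩) (red_sub hv ⟨[x], [], by simp⟩)
        simp only [List.length_cons]
        omega
      · rw [if_neg h, mul_zero, add_zero, FreeGroup.inv_mk, FreeGroup.mul_mk,
          norm_mk_of_reduced]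
        · simp
        · have h1 := isReduced_invRev hu
          unfold FreeGroup.IsReduced at h1 hv ⊢
          rw [List.isChain_append]
          refine ⟨h1, hv, ?_⟩
          intro a ha b hb
          have e1 : (invRev (x :: u)).getLast? = some (x.1, !x.2) := by
            simp [invRev]
          rw [e1] at ha
          simp only [Option.mem_def, Option.some.injEq, List.head?_cons] at ha hb
          subst ha; subst hb
          intro h2
          simp only at h2 ⊢
          by_contra h3
          apply h
          ext1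
          · exact h2
          · cases hx : x.2 <;> cases hy : y.2 <;> simp_all

theorem norm_inv_mul (a b : FB) : FreeGroup.norm (a⁻¹ * b) + 2 * lcp a.toWord b.toWord = FreeGroup.norm a + FreeGroup.norm b := by
  have := norm_inv_mul_words a.toWord b.toWord FreeGroup.isReduced_toWord FreeGroup.isReduced_toWord
  rwa [FreeGroup.mk_toWord, FreeGroup.mk_toWord] at this

theorem norm_hyp (a b c : FB) :
    min ((FreeGroup.norm a : ℤ) + FreeGroup.norm b - FreeGroup.norm (a⁻¹ * b)) ((FreeGroup.norm b : ℤ) + FreeGroup.norm c - FreeGroup.norm (b⁻¹ * c)) ≤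
    (FreeGroup.norm a : ℤ) + FreeGroup.norm c - FreeGroup.norm (a⁻¹ * c) := by
  have h1 := norm_inv_mul a b
  have h2 := norm_inv_mul b c
  have h3 := norm_inv_mul a c
  have h4 := lcp_min a.toWord b.toWord c.toWord
  omega

/-! ### parity and exponent sum -/

theorem ee_letter (x : Bool × Bool) : ee (FreeGroup.mk [x]) = 1 ∨ ee (FreeGroup.mk [x]) = -1 := by
  obtain ⟨c, s⟩ := x
  cases s
  · right
    have : (FreeGroup.mk [(c, false)] : FB) = (of c)⁻¹ := rfl
    rw [this, ee_inv, ee_of]
  · left
    have : (FreeGroup.mk [(c, true)] : FB) = of c := rfl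
    rw [this, ee_of]

theorem ee_word (w : List (Bool × Bool)) : |ee (FreeGroup.mk w)| ≤ w.length ∧
    (ee (FreeGroup.mk w) + w.length) % 2 = 0 := by
  induction w with
  | nil =>
    have h1 : (FreeGroup.mk ([] : List (Bool × Bool)) : FB) = 1 := rfl
    rw [h1]; simp
  | cons x w ih =>
    rw [mk_cons, ee_mul]
    simp only [List.length_cons, Nat.cast_add, Nat.cast_one]
    obtain ⟨h1, h2⟩ := ih
    rw [abs_le] at h1 ⊢
    rcases ee_letter x with h | h <;> rw [h] <;> refine ⟨⟨by omega, by omega⟩, by omega⟩

theorem ee_le_norm (f : FB) : |ee f| ≤ FreeGroup.norm f := by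
  have := (ee_word f.toWord).1
  rwa [FreeGroup.mk_toWord] at this

theorem ee_parity (f : FB) : (ee f + FreeGroup.norm f) % 2 = 0 := by
  have := (ee_word f.toWord).2
  rwa [FreeGroup.mk_toWord] at this

/-! ### the action of the lattice on the free group -/

theorem act_letter (p : ℤ × ℤ) (x : Bool × Bool) : ∃ y : Bool × Bool, act p (FreeGroup.mk [x]) = FreeGroup.mk [y] := by
  obtain ⟨c, s⟩ := x
  cases s
  · refine ⟨(lam c (resG c p), false), ?_⟩
    exact act_inv_of p c
  · refine ⟨(lam c p, true), ?_⟩
    exact act_of p c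

theorem act_word (w : List (Bool × Bool)) : ∀ p : ℤ × ℤ, ∃ w' : List (Bool × Bool),
    w'.length = w.length ∧ act p (FreeGroup.mk w) = FreeGroup.mk w' := by
  induction w with
  | nil =>
    intro p
    exact ⟨[], rfl, act_one p⟩
  | cons x w ih =>
    intro p
    obtain ⟨y, hy⟩ := act_letter p x
    obtain ⟨w', hw, h⟩ := ih (res p (FreeGroup.mk [x]))
    refine ⟨y :: w', by simp [hw], ?_⟩
    rw [mk_cons x w, act_mul, hy, h, ← mk_cons]

theorem norm_act_le (p : ℤ × ℤ) (g : FB) : FreeGroup.norm (act p g) ≤ FreeGroup.norm g := by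
  obtain ⟨w', hw, h⟩ := act_word g.toWord p
  rw [FreeGroup.mk_toWord] at h
  rw [h]
  exact FreeGroup.norm_mk_le.trans (le_of_eq hw)

theorem act_neg_act (p : ℤ × ℤ) (g : FB) : act (-p) (act p g) = g := by
  rw [← act_add, neg_add_cancel, act_zero]

theorem act_act_neg (p : ℤ × ℤ) (g : FB) : act p (act (-p) g) = g := by
  rw [← act_add, add_neg_cancel, act_zero]

@[simp] theorem norm_act (p : ℤ × ℤ) (g : FB) : FreeGroup.norm (act p g) = FreeGroup.norm g := by
  apply le_antisymm (norm_act_le p g)
  calc FreeGroup.norm g = FreeGroup.norm (act (-p) (act p g)) := by rw [act_neg_act]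
    _ ≤ FreeGroup.norm (act p g) := norm_act_le _ _

namespace LM

/-- the length function -/
def L (g : LM) : ℕ := FreeGroup.norm g.f

theorem inv_mul_f (a b : LM) : (a⁻¹ * b).f = act (-a.p) (a.f⁻¹ * b.f) := by
  rw [mul_f, inv_f, inv_p, act_mul]

theorem L_inv_mul (a b : LM) : L (a⁻¹ * b) = FreeGroup.norm (a.f⁻¹ * b.f) := by
  rw [L, inv_mul_f, norm_act]

theorem L_one : L 1 = 0 := by simp [L]

theorem L_inv (g : LM) : L g⁻¹ = L g := by
  have := L_inv_mul g 1
  rw [mul_one, one_f, mul_one, FreeGroup.norm_inv_eq] at this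
  exact this

theorem L_mul (g h : LM) : L (g * h) ≤ L g + L h := by
  rw [L, mul_f]
  exact (FreeGroup.norm_mul_le _ _).trans (by rw [norm_act]; rfl)

theorem L_hyp (a b c : LM) :
    min ((L a : ℤ) + L b - L (a⁻¹ * b)) ((L b : ℤ) + L c - L (b⁻¹ * c)) ≤
    (L a : ℤ) + L c - L (a⁻¹ * c) := by
  rw [L_inv_mul, L_inv_mul, L_inv_mul]
  exact norm_hyp a.f b.f c.f

theorem L_even (a b : LM) : Even (L a + L b + L (a * b)) := by
  have h1 := ee_parity a.f
  have h2 := ee_parity b.f
  have h3 := ee_parity (a * b).f
  have h4 : ee (a * b).f = ee a.f + ee b.f := e_mul a b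
  rw [h4] at h3
  rw [Nat.even_iff]
  unfold L
  omega

theorem L_geod (g : LM) (i : ℕ) (hi : i ≤ L g) : ∃ h, L h = i ∧ L (h⁻¹ * g) = L g - i := by
  have hr : FreeGroup.IsReduced g.f.toWord := FreeGroup.isReduced_toWord
  refine ⟨⟨FreeGroup.mk (g.f.toWord.take i), 0⟩, ?_, ?_⟩
  · rw [L, norm_mk_of_reduced (red_sub hr (List.take_prefix _ _).isInfix), List.length_take]
    exact min_eq_left hi
  · rw [L_inv_mul]
    simp only
    have e : (FreeGroup.mk (g.f.toWord.take i) : FB)⁻¹ * g.f = FreeGroup.mk (g.f.toWord.drop i) := by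
      rw [inv_mul_eq_iff_eq_mul, FreeGroup.mul_mk, List.take_append_drop, FreeGroup.mk_toWord]
    rw [e, norm_mk_of_reduced (red_sub hr (List.drop_suffix _ _).isInfix), List.length_drop]
    rfl

theorem e_le (g : LM) : |e g| ≤ L g := ee_le_norm g.f

theorem L_eq_zero {g : LM} : L g = 0 ↔ g.f = 1 := FreeGroup.norm_eq_zero

theorem ball_fin (R : ℕ) : ∃ S : Finset LM, ∀ g, L g ≤ R → ∃ s ∈ S, L (s⁻¹ * g) = 0 := by
  classical
  have hfin : {l : List (Bool × Bool) | l.length ≤ R}.Finite := List.finite_length_le _ _
  refine ⟨hfin.toFinset.image (fun l => (⟨FreeGroup.mk l, 0⟩ : LM)), fun g hg => ?_⟩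
  refine ⟨⟨g.f, 0⟩, ?_, ?_⟩
  · rw [Finset.mem_image]
    refine ⟨g.f.toWord, ?_, by rw [FreeGroup.mk_toWord]⟩
    rw [Set.Finite.mem_toFinset]
    exact hg
  · rw [L_inv_mul]; simp

theorem act_even {P : ℤ × ℤ} (h1 : P.1 % 2 = 0) (h2 : P.2 % 2 = 0) (f : FB) (hf : FreeGroup.norm f ≤ 1) :
    act P f = f := by
  have hl : ∀ c, lam c P = c := fun c => by simp [lam, h1]
  have hl2 : ∀ c, lam c (resG c P) = c := fun c => by
    have h3 : (P.1 + P.2) % 2 = 0 := by omega
    unfold lam resG
    rw [if_pos h3]
    unfold alO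
    rw [if_pos (by simp)]
  have hw : f.toWord.length ≤ 1 := hf
  rw [← FreeGroup.mk_toWord (x := f)]
  match hfw : f.toWord with
  | [] => exact act_one P
  | [(c, true)] =>
    have : (FreeGroup.mk [(c, true)] : FB) = of c := rfl
    rw [this, act_of, hl]
  | [(c, false)] =>
    have : (FreeGroup.mk [(c, false)] : FB) = (of c)⁻¹ := rfl
    rw [this, act_inv_of, hl2]
  | a :: b :: l => rw [hfw] at hw; simp at hw

/-- ascending extension -/
theorem up_ext (g : LM) (n : ℕ) : ∃ h, e h = n ∧ L h = n ∧ L (g * h) = L g + n := by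
  -- choose the letter
  obtain ⟨s, hs⟩ : ∃ s : Bool, FreeGroup.IsReduced (g.f.toWord ++ List.replicate n (s, true)) := by
    have hr : FreeGroup.IsReduced g.f.toWord := FreeGroup.isReduced_toWord
    have hrep : ∀ s : Bool, FreeGroup.IsReduced (List.replicate n (s, true)) := by
      intro s
      unfold FreeGroup.IsReduced
      exact List.isChain_replicate_of_rel _ (fun _ => rfl)
    rcases hlast : g.f.toWord.getLast? with _ | ⟨c, b⟩
    · refine ⟨true, ?_⟩
      rw [List.getLast?_eq_none_iff] at hlast
      rw [hlast, List.nil_append]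
      exact hrep true
    · refine ⟨if b then c else !c, ?_⟩
      have hr' := hr
      have hrep' := hrep (if b then c else !c)
      unfold FreeGroup.IsReduced at hr' hrep' ⊢
      rw [List.isChain_append]
      refine ⟨hr', hrep', ?_⟩
      intro a ha d hd
      rw [hlast] at ha
      simp only [Option.mem_def, Option.some.injEq] at ha
      subst ha
      have hd' : d = (if b then c else !c, true) := by
        have := List.mem_of_mem_head? hd
        exact List.eq_of_mem_replicate this
      subst hd'
      cases b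
      · simp only
        intro h
        exfalso
        cases c <;> simp at h
      · simp
  refine ⟨⟨act (-g.p) (FreeGroup.mk (List.replicate n (s, true))), 0⟩, ?_, ?_, ?_⟩
  · rw [e]
    simp only
    rw [ee_act]
    induction n with
    | zero => exact ee_one
    | succ n ih =>
      rw [List.replicate_succ, mk_cons, ee_mul, ih (red_sub hs ?_)]
      · have : (FreeGroup.mk [(s, true)] : FB) = of s := rfl
        rw [this, ee_of]; push_cast; ring
      · rw [List.replicate_succ']
        exact ⟨[], [(s, true)], by simp⟩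
  · rw [L]
    simp only
    rw [norm_act, norm_mk_of_reduced, List.length_replicate]
    exact red_sub hs (List.suffix_append _ _).isInfix
  · rw [L, mul_f]
    simp only
    rw [act_act_neg]
    nth_rewrite 1 [← FreeGroup.mk_toWord (x := g.f)]
    rw [FreeGroup.mul_mk, norm_mk_of_reduced hs, List.length_append, List.length_replicate]
    rfl

end LM

end H57.QI
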