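import Mathlib

/-!
# Interface for the disproof of quasi-isometry invariance of automaticity

`Geo H` : a group `H` acting on (tree) x (Euclidean plane), the action on the plane being
`z ↦ x g + al ^ (e g) * z` and the action on the tree being recorded by the length function `L`
(`d (g, h) = L (g⁻¹ * h)` is the distance of the translates of the base vertex).

`Auto D` : a finite automaton whose accepted words are in bijection with `H`, with the fellow traveller
property and such that the letters move the base vertex by at most one edge.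
-/

set_option autoImplicit false

namespace H57.QI

/-- the group `H` acts on tree x plane -/
structure Geo (H : Type) [Group H] where
  /-- rotation -/
  al : ℂ
  al_norm : ‖al‖ = 1
  al_ne : ∀ n : ℕ, 0 < n → al ^ n ≠ 1
  /-- exponent of the rotation -/
  e : H → ℤ
  e_mul : ∀ g h, e (g * h) = e g + e h
  /-- image of the origin of the plane -/
  x : H → ℂ
  x_mul : ∀ g h, x (g * h) = x g + al ^ (e g) * x h
  /-- length function of the action on the tree -/
  L : H → ℕ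
  L_one : L 1 = 0
  L_inv : ∀ g, L g⁻¹ = L g
  L_mul : ∀ g h, L (g * h) ≤ L g + L h
  L_hyp : ∀ a b c : H, min ((L a : ℤ) + L b - L (a⁻¹ * b)) ((L b : ℤ) + L c - L (b⁻¹ * c)) ≤
    (L a : ℤ) + L c - L (a⁻¹ * c)
  L_even : ∀ a b : H, Even (L a + L b + L (a * b))
  L_geod : ∀ (g : H) (i : ℕ), i ≤ L g → ∃ h, L h = i ∧ L (h⁻¹ * g) = L g - i
  e_le : ∀ g, |e g| ≤ L g
  /-- the lattice of translations of the stabiliser of the base vertex -/
  O : AddSubgroup ℂ
  O_min : ∀ z ∈ O, z ≠ 0 → 1 ≤ ‖z‖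
  O_fin : ∀ R : ℝ, {z : ℂ | z ∈ O ∧ ‖z‖ ≤ R}.Finite
  O_cover : ∀ z : ℂ, ∃ o ∈ O, ‖z - o‖ ≤ 2
  O_int : ∀ (m : ℕ) (z : ℂ), z ∈ O → al ^ (-(m : ℤ)) * z ∈ O → z ≠ 0 → (2 : ℝ) ^ m ≤ ‖z‖ ^ 2
  P_mem : ∀ g, L g = 0 → x g ∈ O
  P_surj : ∀ z ∈ O, ∃ p, L p = 0 ∧ x p = z
  P_inj : ∀ g, L g = 0 → x g = 0 → g = 1
  P_div : ∀ p g, L p = 0 → (∃ z ∈ O, x p = 2 * z) → L g ≤ 1 → L (g⁻¹ * p * g) = 0
  ball_fin : ∀ R : ℕ, ∃ S : Finset H, ∀ g, L g ≤ R → ∃ s ∈ S, L (s⁻¹ * g) = 0
  /-- ascending elements are determined by their action on the plane -/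
  up_inj : ∀ g h, e g = L g → e h = L h → e g = e h → x g = x h → g = h
  up_ext : ∀ (g : H) (n : ℕ), ∃ h, e h = n ∧ L h = n ∧ L (g * h) = L g + n
  /-- `O[1/2]` -/
  O2 : AddSubgroup ℂ
  O_le : O ≤ O2
  x_mem : ∀ g, x g ∈ O2
  O2_al : ∀ z ∈ O2, ∀ n : ℤ, al ^ n * z ∈ O2
  cen_den : ∀ n : ℤ, n ≠ 0 → ∃ D : ℕ, 0 < D ∧ ∀ z ∈ O2, (D : ℂ) * (z / (1 - al ^ n)) ∈ O2
  special : ∀ D : ℕ, 0 < D → ∃ g, 0 < e g ∧ e g = L g ∧ (D : ℂ) * (x g / (1 - al ^ (e g))) ∉ O2
  gen : ∃ C : ℕ, ∀ h, ∃ l : List H, l.prod = h ∧ (l.length : ℝ) ≤ C * (‖x h‖ + L h + 1) ∧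
    ∀ s ∈ l, ‖x s‖ + L s ≤ C

variable {H : Type} [Group H]

/-- the norm of an element: displacement of the base point of plane x tree -/
noncomputable def Geo.N (D : Geo H) (g : H) : ℝ := ‖D.x g‖ + D.L g

/-- automatic structure with uniqueness, with letters of tree length at most one -/
structure Auto (D : Geo H) where
  Q : Type
  S : Type
  [fQ : Fintype Q]
  [fS : Fintype S]
  M : DFA S Q
  mu : S → H
  mu_L : ∀ a, D.L (mu a) ≤ 1
  surj : ∀ h, ∃ w ∈ M.accepts, (w.map mu).prod = h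
  uniq : ∀ w w', w ∈ M.accepts → w' ∈ M.accepts → (w.map mu).prod = (w'.map mu).prod → w = w'
  k : ℝ
  one_le_k : 1 ≤ k
  /-- fellow traveller property -/
  ft : ∀ w w', w ∈ M.accepts → w' ∈ M.accepts → ∀ t : ℕ,
    D.N ((((w.take t).map mu).prod)⁻¹ * ((w'.take t).map mu).prod) ≤
      k * (D.N (((w.map mu).prod)⁻¹ * (w'.map mu).prod) + 1)
  /-- lengths of words of nearby elements -/
  ll : ∀ w w', w ∈ M.accepts → w' ∈ M.accepts →
    |(w.length : ℝ) - w'.length| ≤ k * (D.N (((w.map mu).prod)⁻¹ * (w'.map mu).prod) + 1)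

/-- automaticity, verbatim as in the frozen statement S00911 -/
def IsAut (G : Type) [Group G] : Prop :=
  ∃ (α : Type) (_ : Fintype α) (μ : α → G) (σ : Type) (_ : Fintype σ) (W : DFA α σ),
    (∀ g : G, ∃ w : List α, w ∈ W.accepts ∧ (w.map μ).prod = g) ∧
    ∀ x : Option α, ∃ (τ : Type) (_ : Fintype τ) (M : DFA (Option α × Option α) τ),
      ∀ p : List (Option α × Option α), p ∈ M.accepts ↔
        ∃ u v : List α, u ∈ W.accepts ∧ v ∈ W.accepts ∧
          p = (u.map some ++ List.replicate (v.length - u.length) none).zip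
                (v.map some ++ List.replicate (u.length - v.length) none) ∧
          (u.map μ).prod * (x.map μ).getD 1 = (v.map μ).prod

/-- quasi-isometry, verbatim as in the frozen statement S00911 -/
def IsQI (G H : Type) [Group G] [Group H] : Prop :=
  ∃ (S : Finset G) (T : Finset H) (f : G → H) (K C : ℕ),
    Subgroup.closure (S : Set G) = ⊤ ∧ Subgroup.closure (T : Set H) = ⊤ ∧
    (∀ a b : G,
      (SimpleGraph.fromRel (fun h k : H => ∃ t ∈ T, k = h * t)).dist (f a) (f b)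
        ≤ K * (SimpleGraph.fromRel (fun g k : G => ∃ s ∈ S, k = g * s)).dist a b + C) ∧
    (∀ a b : G,
      (SimpleGraph.fromRel (fun g k : G => ∃ s ∈ S, k = g * s)).dist a b
        ≤ K * (SimpleGraph.fromRel (fun h k : H => ∃ t ∈ T, k = h * t)).dist (f a) (f b) + C) ∧
    (∀ h : H, ∃ g : G,
      (SimpleGraph.fromRel (fun h' k : H => ∃ t ∈ T, k = h' * t)).dist (f g) h ≤ C)

end H57.QI
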