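import Pool.Agent.Lib_helper57.QI.EDefs
import Pool.Agent.Lib_helper57.QI.E0c
import Pool.Agent.Lib_helper96.QI.E0a
import Pool.Agent.Lib_helper41.QI.E0b

/-!
# Basic lemmas for module E (statements first; proofs being filled in by helper57)
-/

set_option autoImplicit false

namespace H57.QI

variable {H : Type} [Group H]

namespace Auto

variable {D : Geo H} (A : Auto D)

/-- (QG) -/
theorem exists_QG : ∃ lam : ℝ, 1 ≤ lam ∧ ∀ (p : A.Q) (V : List A.S), A.acc p → A.coacc (A.st p V) →
    (V.length : ℝ) ≤ lam * (D.N (A.val V) + 1) := by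
  classical
  -- words reaching the states and leading to acceptance
  have hu : ∀ p : A.Q, ∃ u : List A.S, A.acc p → A.st A.q0 u = p := by
    intro p
    by_cases h : A.acc p
    · obtain ⟨u, hu⟩ := h
      exact ⟨u, fun _ => hu⟩
    · exact ⟨[], fun h' => absurd h' h⟩
  choose u hu using hu
  have hz : ∀ p : A.Q, ∃ z : List A.S, A.coacc p → A.st p z ∈ A.M.accept := by
    intro p
    by_cases h : A.coacc p
    · obtain ⟨z, hz⟩ := h
      exact ⟨z, fun _ => hz⟩
    · exact ⟨[], fun h' => absurd h' h⟩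
  choose z hz using hz
  obtain ⟨c, hc0, hc⟩ : ∃ c : ℝ, 0 ≤ c ∧ ∀ p : A.Q, D.N (A.val (z p)) ≤ c ∧ ((z p).length : ℝ) ≤ c := by
    refine ⟨∑ p : A.Q, (D.N (A.val (z p)) + (z p).length),
      Finset.sum_nonneg fun p _ => add_nonneg (D.N_nonneg _) (Nat.cast_nonneg _), fun p => ?_⟩
    have h1 := Finset.single_le_sum (f := fun p => D.N (A.val (z p)) + ((z p).length : ℝ))
      (fun p _ => add_nonneg (D.N_nonneg _) (Nat.cast_nonneg _)) (Finset.mem_univ p)
    have h2 := D.N_nonneg (A.val (z p))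
    have h3 : (0 : ℝ) ≤ (z p).length := Nat.cast_nonneg _
    constructor <;> linarith
  have hk := A.one_le_k
  refine ⟨A.k * (2 * c + 2) + c + 1, by nlinarith, fun p V hp hV => ?_⟩
  have ha1 : u p ++ V ++ z (A.st p V) ∈ A.M.accepts := by
    rw [A.mem_accepts, A.st_append, A.st_append, hu p hp]; exact hz _ hV
  have ha2 : u p ++ z p ∈ A.M.accepts := by
    rw [A.mem_accepts, A.st_append, hu p hp]; exact hz _ (A.coacc_of_st hV)
  have h1 := A.ll' ha1 ha2
  have h2 : (A.val (u p ++ V ++ z (A.st p V)))⁻¹ * A.val (u p ++ z p) =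
      (A.val (z (A.st p V)))⁻¹ * ((A.val V)⁻¹ * A.val (z p)) := by
    simp only [A.val_append]; group
  rw [h2] at h1
  have h3 : D.N ((A.val (z (A.st p V)))⁻¹ * ((A.val V)⁻¹ * A.val (z p))) ≤
      D.N (A.val V) + 2 * c := by
    refine (D.N_mul _ _).trans ?_
    have := D.N_mul (A.val V)⁻¹ (A.val (z p))
    rw [D.N_inv] at this ⊢
    have h4 := (hc (A.st p V)).1
    have h5 := (hc p).1
    linarith
  have h6 := (abs_le.1 h1).2
  simp only [List.length_append] at h6
  push_cast at h6
  have h7 := (hc p).2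
  have h8 : (0 : ℝ) ≤ (z (A.st p V)).length := Nat.cast_nonneg _
  have h9 := D.N_nonneg (A.val V)
  have h10 : A.k * (D.N ((A.val (z (A.st p V)))⁻¹ * ((A.val V)⁻¹ * A.val (z p))) + 1) ≤
      A.k * (D.N (A.val V) + 2 * c + 1) := by
    apply mul_le_mul_of_nonneg_left _ (by linarith)
    linarith
  have h11 : A.k * (D.N (A.val V) + 2 * c + 1) + c ≤ (A.k * (2 * c + 2) + c + 1) * (D.N (A.val V) + 1) := by
    have : 0 ≤ A.k * c * D.N (A.val V) := by positivity
    have : 0 ≤ A.k * D.N (A.val V) := by positivity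
    have : 0 ≤ c * D.N (A.val V) := by positivity
    nlinarith
  linarith

theorem prod_take_map (V : List A.S) (t : ℕ) : ((V.map A.mu).take t).prod = A.val (V.take t) := by
  rw [val, List.map_take]

/-- the path `V` from the base vertex visits all vertices of the segment `[1, val V]` -/
theorem visit (V : List A.S) (h : H)
    (hh : D.L h + D.L (h⁻¹ * A.val V) = D.L (A.val V)) :
    ∃ t ≤ V.length, D.L ((A.val (V.take t))⁻¹ * h) = 0 := by
  obtain ⟨t, ht, h1⟩ := D.visit (V.map A.mu) (by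
    intro s hs
    obtain ⟨a, _, rfl⟩ := List.mem_map.1 hs
    exact A.mu_L a) h hh
  rw [List.length_map] at ht
  rw [A.prod_take_map] at h1
  exact ⟨t, ht, h1⟩

theorem conj_path (r : ℕ) {p : H} (hp : D.L p = 0) (hd : ∃ z ∈ D.O, D.x p = 2 ^ r * z)
    (V : List A.S) (hh : ∀ t < V.length, |D.e (A.val (V.take t))| < r) :
    D.L ((A.val V)⁻¹ * p * A.val V) = 0 := by
  apply D.conj_path r hp hd (V.map A.mu) (by
    intro s hs
    obtain ⟨a, _, rfl⟩ := List.mem_map.1 hs
    exact A.mu_L a)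
  intro t ht
  rw [List.length_map] at ht
  rw [A.prod_take_map]
  exact hh t ht

end Auto

end H57.QI
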