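import Pool.Agent.Lib_helper57.QI.E0

/-!
# The combinatorial part of the final argument
-/

set_option autoImplicit false

namespace H57.QI

variable {H : Type} [Group H]

/-- three points of a circle with nearly equal real parts: two of them are close -/
theorem three_points (r d1 : ℝ) (z : Fin 3 → ℂ) (hz : ∀ i, ‖z i‖ = r)
    (hre : ∀ i j, |(z i).re - (z j).re| ≤ d1) :
    ∃ i j, i ≠ j ∧ ‖z i - z j‖ ^ 2 ≤ d1 ^ 2 + 2 * r * d1 := by
  have hd1 : 0 ≤ d1 := (abs_nonneg _).trans (hre 0 0)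
  -- two with the same sign of the imaginary part
  have key : ∀ i j, 0 ≤ (z i).im * (z j).im → ‖z i - z j‖ ^ 2 ≤ d1 ^ 2 + 2 * r * d1 := by
    intro i j hij
    have h1 : ‖z i - z j‖ ^ 2 = ((z i).re - (z j).re) ^ 2 + ((z i).im - (z j).im) ^ 2 := by
      rw [← Complex.normSq_eq_norm_sq, Complex.normSq_apply]
      simp; ring
    have h2 : ∀ k, (z k).re ^ 2 + (z k).im ^ 2 = r ^ 2 := by
      intro k
      rw [← hz k, ← Complex.normSq_eq_norm_sq, Complex.normSq_apply]; ring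
    have h3 : ∀ k, |(z k).re| ≤ r := fun k => by rw [← hz k]; exact Complex.abs_re_le_norm _
    have h4 := h2 i
    have h5 := h2 j
    have h6 : ((z i).re - (z j).re) ^ 2 ≤ d1 ^ 2 := by
      rw [← sq_abs]
      exact pow_le_pow_left₀ (abs_nonneg _) (hre i j) 2
    -- (a-b)^2 ≤ |a^2-b^2| when ab ≥ 0
    have h7 : ((z i).im - (z j).im) ^ 2 ≤ |(z i).im ^ 2 - (z j).im ^ 2| := by
      have e1 : (z i).im ^ 2 - (z j).im ^ 2 = ((z i).im - (z j).im) * ((z i).im + (z j).im) := by ring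
      have e2 : |(z i).im - (z j).im| ≤ |(z i).im + (z j).im| := by
        rw [← sq_le_sq]
        nlinarith
      rw [e1, abs_mul, ← sq_abs, sq]
      exact mul_le_mul_of_nonneg_left e2 (abs_nonneg _)
    have h8 : |(z i).im ^ 2 - (z j).im ^ 2| ≤ 2 * r * d1 := by
      have : (z i).im ^ 2 - (z j).im ^ 2 = -(((z i).re - (z j).re) * ((z i).re + (z j).re)) := by
        linarith
      rw [this, abs_neg, abs_mul]
      have h9 : |(z i).re + (z j).re| ≤ 2 * r := by
        refine (abs_add_le _ _).trans ?_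
        linarith [h3 i, h3 j]
      calc |(z i).re - (z j).re| * |(z i).re + (z j).re| ≤ d1 * (2 * r) :=
            mul_le_mul (hre i j) h9 (abs_nonneg _) hd1
        _ = 2 * r * d1 := by ring
    rw [h1]
    linarith
  by_cases h01 : 0 ≤ (z 0).im * (z 1).im
  · exact ⟨0, 1, by decide, key 0 1 h01⟩
  by_cases h02 : 0 ≤ (z 0).im * (z 2).im
  · exact ⟨0, 2, by decide, key 0 2 h02⟩
  · refine ⟨1, 2, by decide, key 1 2 ?_⟩
    push Not at h01 h02
    have h3 : 0 < ((z 0).im * (z 1).im) * ((z 0).im * (z 2).im) := mul_pos_of_neg_of_neg h01 h02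
    have h4 : ((z 0).im * (z 1).im) * ((z 0).im * (z 2).im) = (z 0).im ^ 2 * ((z 1).im * (z 2).im) := by
      ring
    rw [h4] at h3
    by_contra h5
    push Not at h5
    nlinarith [mul_nonpos_of_nonneg_of_nonpos (sq_nonneg (z 0).im) h5.le]

namespace Auto

variable {D : Geo H} (A : Auto D)

/-- data produced by the geometric part -/
def Config (l n : ℕ) (K0 C0 : ℝ) : Prop :=
  ∃ (X : Fin n → ℕ → H) (q : Fin n → ℕ → A.Q) (Bf : A.Q → ℕ → ℝ),
  (∀ j i, i ≤ l → D.e (X j i) = i) ∧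
  (∀ j j' i, i ≤ l → D.L ((X j i)⁻¹ * X j' i) = 0 ∧ ‖D.x ((X j i)⁻¹ * X j' i)‖ ≤ K0) ∧
  (∀ j j' i, i ≤ l → j ≠ j' → q j i = q j' i → X j i ≠ X j' i) ∧
  (∀ j i i', i ≤ i' → i' ≤ l →
    (D.x (X j i')).re + Bf (q j i') i' ≤ (D.x (X j i)).re + Bf (q j i) i) ∧
  (∀ j, ((D.x (X j 0)).re + Bf (q j 0) 0) - ((D.x (X j l)).re + Bf (q j l) l) ≤ C0)

theorem comb (K0 C0 : ℝ) : ∃ l, ¬ A.Config l (Fintype.card A.Q + 1) K0 C0 := by
  classical
  set n := Fintype.card A.Q + 1 with hn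
  set Ω := (D.O_fin K0).toFinset with hΩ
  set M := n * n * Ω.card with hM
  -- separation of the rotations
  obtain ⟨δ, hδ, hδ'⟩ : ∃ δ : ℝ, 0 < δ ∧ ∀ m : ℤ, m ≠ 0 → |m| ≤ 2 * M → δ ≤ ‖D.al ^ m - 1‖ := by
    have hfin : {m : ℤ | m ≠ 0 ∧ |m| ≤ 2 * M}.Finite :=
      (Set.finite_Icc (-(2 * M : ℤ)) (2 * M)).subset fun m hm => by
        have := abs_le.1 hm.2
        exact ⟨this.1, this.2⟩
    rcases hfin.toFinset.eq_empty_or_nonempty with h0 | h0
    · refine ⟨1, one_pos, fun m hm hm' => ?_⟩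
      have : m ∈ hfin.toFinset := by simp [hm, hm']
      rw [h0] at this
      simp at this
    · obtain ⟨m0, hm0, hmin⟩ := Finset.exists_min_image hfin.toFinset (fun m => ‖D.al ^ m - 1‖) h0
      refine ⟨‖D.al ^ m0 - 1‖, ?_, fun m hm hm' => hmin m (by simp [hm, hm'])⟩
      rw [norm_pos_iff, sub_ne_zero]
      apply D.al_zpow_ne_one
      simp at hm0
      exact hm0.1
  obtain ⟨d1, hd1, hd1'⟩ : ∃ d1 : ℝ, 0 < d1 ∧ d1 ^ 2 + 2 * |K0| * d1 < δ ^ 2 := by
    refine ⟨min 1 (δ ^ 2 / (2 * (1 + 2 * |K0|))), by positivity, ?_⟩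
    set d1 := min 1 (δ ^ 2 / (2 * (1 + 2 * |K0|))) with hd
    have h1 : d1 ≤ 1 := min_le_left _ _
    have h2 : d1 ≤ δ ^ 2 / (2 * (1 + 2 * |K0|)) := min_le_right _ _
    have h0 : 0 < d1 := by positivity
    have h3 : d1 * (1 + 2 * |K0|) ≤ δ ^ 2 / 2 := by
      have h4 : 0 < 1 + 2 * |K0| := by positivity
      calc d1 * (1 + 2 * |K0|) ≤ δ ^ 2 / (2 * (1 + 2 * |K0|)) * (1 + 2 * |K0|) :=
            mul_le_mul_of_nonneg_right h2 h4.le
        _ = δ ^ 2 / 2 := by field_simp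
    have h5 : 0 < δ ^ 2 := by positivity
    nlinarith
  obtain ⟨Nb, hNb⟩ := exists_nat_gt (n * C0 / d1)
  have hNb' : n * C0 < Nb * d1 := by rwa [div_lt_iff₀ hd1] at hNb
  refine ⟨Nb * (2 * M), ?_⟩
  rintro ⟨X, q, Bf, he, hP, hne, hmono, hslack⟩
  set F : Fin n → ℕ → ℝ := fun j i => (D.x (X j i)).re + Bf (q j i) i with hF
  -- a block of small slack
  have hsum : ∑ β ∈ Finset.range Nb, (∑ j, (F j (β * (2 * M)) - F j ((β + 1) * (2 * M)))) ≤ n * C0 := by
    rw [Finset.sum_comm]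
    have h1 : ∀ j : Fin n, ∑ β ∈ Finset.range Nb, (F j (β * (2 * M)) - F j ((β + 1) * (2 * M))) =
        F j 0 - F j (Nb * (2 * M)) := by
      intro j
      have := Finset.sum_range_sub' (fun β => F j (β * (2 * M))) Nb
      simpa using this
    calc ∑ j, ∑ β ∈ Finset.range Nb, (F j (β * (2 * M)) - F j ((β + 1) * (2 * M)))
        = ∑ j, (F j 0 - F j (Nb * (2 * M))) := Finset.sum_congr rfl fun j _ => h1 j
      _ ≤ ∑ _j : Fin n, C0 := Finset.sum_le_sum fun j _ => hslack j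
      _ = n * C0 := by simp
  have hsum2 : ∑ β ∈ Finset.range Nb, (∑ j, (F j (β * (2 * M)) - F j ((β + 1) * (2 * M)))) <
      ∑ _β ∈ Finset.range Nb, d1 := by
    refine hsum.trans_lt ?_
    simpa using hNb'
  obtain ⟨β, hβ, hβ'⟩ := Finset.exists_lt_of_sum_lt hsum2
  rw [Finset.mem_range] at hβ
  have hle : (β + 1) * (2 * M) ≤ Nb * (2 * M) := Nat.mul_le_mul_right _ hβ
  set i0 := β * (2 * M) with hi0
  set i1 := (β + 1) * (2 * M) with hi1
  have hi01 : i1 = i0 + 2 * M := by rw [hi1, hi0]; ring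
  -- in this block every F_j is nearly constant
  have hvar : ∀ j j' : Fin n, j ≠ j' → ∀ i i', i ∈ Finset.Icc i0 i1 → i' ∈ Finset.Icc i0 i1 →
      |(F j' i - F j i) - (F j' i' - F j i')| ≤ d1 := by
    intro j j' hjj i i' hi hi'
    rw [Finset.mem_Icc] at hi hi'
    have hb : ∀ j, ∀ i, i0 ≤ i → i ≤ i1 → F j i1 ≤ F j i ∧ F j i ≤ F j i0 := by
      intro j i h1 h2
      exact ⟨hmono j i i1 h2 hle, hmono j i0 i h1 (h2.trans hle)⟩
    have hnn : ∀ j, 0 ≤ F j i0 - F j i1 := by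
      intro j
      have := hb j i0 le_rfl (by omega)
      linarith [this.1]
    have h2 : (F j i0 - F j i1) + (F j' i0 - F j' i1) ≤ ∑ j, (F j i0 - F j i1) := by
      have := Finset.add_le_sum (f := fun j => F j i0 - F j i1) (s := Finset.univ)
        (fun j _ => hnn j) (Finset.mem_univ j) (Finset.mem_univ j') hjj
      exact this
    have h3 := hb j i hi.1 hi.2
    have h4 := hb j i' hi'.1 hi'.2
    have h5 := hb j' i hi.1 hi.2
    have h6 := hb j' i' hi'.1 hi'.2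
    rw [abs_le]
    constructor <;> linarith [h3.1, h3.2, h4.1, h4.2, h5.1, h5.2, h6.1, h6.2]
  -- two words in the same state at each level
  have hpair : ∀ i : ℕ, ∃ jj : Fin n × Fin n, jj.1 ≠ jj.2 ∧ q jj.1 i = q jj.2 i := by
    intro i
    obtain ⟨a, b, hab, h⟩ := Fintype.exists_ne_map_eq_of_card_lt (fun j : Fin n => q j i)
      (by simp [hn])
    exact ⟨(a, b), hab, h⟩
  choose jj hjj1 hjj2 using hpair
  set w : ℕ → ℂ := fun i => D.x ((X (jj i).1 i)⁻¹ * X (jj i).2 i) with hw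
  have hmaps : ∀ i ∈ Finset.Icc i0 i1, (jj i, w i) ∈
      (Finset.univ : Finset (Fin n × Fin n)) ×ˢ Ω := by
    intro i hi
    rw [Finset.mem_Icc] at hi
    have h := hP (jj i).1 (jj i).2 i (hi.2.trans hle)
    refine Finset.mem_product.2 ⟨Finset.mem_univ _, ?_⟩
    rw [hΩ, Set.Finite.mem_toFinset]
    exact ⟨D.P_mem _ h.1, h.2⟩
  obtain ⟨⟨⟨j, j'⟩, om⟩, hmem, hfib⟩ := Finset.exists_lt_card_fiber_of_mul_lt_card_of_maps_to
    (n := 2) hmaps (by
      rw [Finset.card_product, Finset.card_univ, Fintype.card_prod, Fintype.card_fin,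
        Nat.card_Icc]
      omega)
  obtain ⟨a, b, c, ha, hb, hc, hab, hac, hbc⟩ := Finset.two_lt_card_iff.1 hfib
  simp only [Finset.mem_filter] at ha hb hc
  -- facts for a level with these data
  have hlev : ∀ i, (i ∈ Finset.Icc i0 i1 ∧ (jj i, w i) = ((j, j'), om)) →
      j ≠ j' ∧ (D.al ^ (i : ℤ) * om).re = F j' i - F j i ∧ om ≠ 0 := by
    rintro i ⟨hi, hi2⟩
    rw [Finset.mem_Icc] at hi
    have h1 : jj i = (j, j') := congrArg Prod.fst hi2
    have h2 : w i = om := congrArg Prod.snd hi2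
    have h3 := hjj1 i
    have h4 := hjj2 i
    rw [h1] at h3 h4
    simp only at h3 h4
    have h5 : w i = D.x ((X j i)⁻¹ * X j' i) := by rw [hw]; simp only [h1]
    rw [h2] at h5
    have hil := hi.2.trans hle
    refine ⟨h3, ?_, ?_⟩
    · have h6 : D.x (X j' i) = D.x (X j i) + D.al ^ (i : ℤ) * om := by
        have : X j' i = X j i * ((X j i)⁻¹ * X j' i) := by group
        rw [this, D.x_mul, he j i hil, ← h5]
      have h7 : F j' i - F j i = (D.x (X j' i)).re - (D.x (X j i)).re := by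
        simp only [hF, h4]; ring
      rw [h7, h6, Complex.add_re]; ring
    · intro h0
      rw [h0] at h5
      have h6 := D.P_inj _ (hP j j' i hil).1 h5.symm
      exact hne j j' i hil h3 h4 (by rw [inv_mul_eq_one] at h6; exact h6)
  have hjne := (hlev a ha).1
  have hom0 := (hlev a ha).2.2
  have homO : om ∈ D.O ∧ ‖om‖ ≤ K0 := by
    have := (Finset.mem_product.1 hmem).2
    rw [hΩ, Set.Finite.mem_toFinset] at this
    exact this
  have hom1 : 1 ≤ ‖om‖ := D.O_min om homO.1 hom0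
  let lv : Fin 3 → ℕ := ![a, b, c]
  have hlv : ∀ k, lv k ∈ Finset.Icc i0 i1 ∧ (jj (lv k), w (lv k)) = ((j, j'), om) := by
    intro k
    fin_cases k
    · exact ha
    · exact hb
    · exact hc
  have hlvinj : ∀ k k', k ≠ k' → lv k ≠ lv k' := by
    intro k k' hkk
    fin_cases k <;> fin_cases k'
    · exact absurd rfl hkk
    · exact hab
    · exact hac
    · exact hab.symm
    · exact absurd rfl hkk
    · exact hbc
    · exact hac.symm
    · exact hbc.symm
    · exact absurd rfl hkk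
  obtain ⟨k, k', hkk, hclose⟩ := three_points ‖om‖ d1
    (fun k => D.al ^ (lv k : ℤ) * om) (fun k => by rw [norm_mul, D.norm_al_zpow, one_mul])
    (fun k k' => by
      rw [(hlev _ (hlv k)).2.1, (hlev _ (hlv k')).2.1]
      exact hvar j j' hjne _ _ (hlv k).1 (hlv k').1)
  have hne' := hlvinj k k' hkk
  have h1 : D.al ^ (lv k : ℤ) * om - D.al ^ (lv k' : ℤ) * om =
      D.al ^ (lv k' : ℤ) * ((D.al ^ ((lv k : ℤ) - lv k') - 1) * om) := by
    rw [zpow_sub₀ D.al_ne_zero]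
    have := zpow_ne_zero (lv k' : ℤ) D.al_ne_zero
    field_simp
  rw [h1, norm_mul, norm_mul, D.norm_al_zpow, one_mul] at hclose
  have h2 : δ ≤ ‖D.al ^ ((lv k : ℤ) - lv k') - 1‖ := by
    apply hδ'
    · omega
    · have h3 := Finset.mem_Icc.1 (hlv k).1
      have h4 := Finset.mem_Icc.1 (hlv k').1
      rw [abs_le]
      constructor <;> push_cast <;> omega
  have h3 : δ ^ 2 ≤ (‖D.al ^ ((lv k : ℤ) - lv k') - 1‖ * ‖om‖) ^ 2 := by
    apply pow_le_pow_left₀ hδ.le
    nlinarith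
  have h4 : ‖om‖ ≤ |K0| := homO.2.trans (le_abs_self _)
  nlinarith

end Auto

end H57.QI
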