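import Pool.Agent.Lib_helper57.QI.Defs

/-!
# Module E : definitions and statements of the lemmas

`theorem main : Geo H → Auto D → False` is obtained by composing the statements below.
Each `LemX` is a `Prop`; the modules prove `LemX A` from the previous ones.
-/

set_option autoImplicit false

namespace H57.QI

variable {H : Type} [Group H]

/-- action on the plane -/
noncomputable def Geo.act (D : Geo H) (g : H) (z : ℂ) : ℂ := D.x g + D.al ^ (D.e g) * z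

/-- fixed point of `g` on the plane (if `e g ≠ 0`) -/
noncomputable def Geo.cen (D : Geo H) (g : H) : ℂ := D.x g / (1 - D.al ^ (D.e g))

/-- twice the Gromov product at the base vertex -/
def Geo.gp (D : Geo H) (a b : H) : ℤ := (D.L a : ℤ) + D.L b - D.L (a⁻¹ * b)

namespace Auto

variable {D : Geo H} (A : Auto D)

instance instFQ : Fintype A.Q := A.fQ
instance instFS : Fintype A.S := A.fS

/-- value of a word -/
def val (w : List A.S) : H := (w.map A.mu).prod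

/-- state reached from `p` by the word `w` -/
def st (p : A.Q) (w : List A.S) : A.Q := A.M.evalFrom p w

/-- the initial state -/
def q0 : A.Q := A.M.start

def acc (p : A.Q) : Prop := ∃ u, A.st A.q0 u = p

def coacc (q : A.Q) : Prop := ∃ z, A.st q z ∈ A.M.accept

/-- on some accepted path -/
def live (q : A.Q) : Prop := A.acc q ∧ A.coacc q

/-- same strong component -/
def sc (p q : A.Q) : Prop := (∃ V, A.st p V = q) ∧ (∃ V, A.st q V = p)

/-- vertical state: it has a loop with `e ≠ 0` -/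
def Vert (p : A.Q) : Prop := A.live p ∧ ∃ z, A.st p z = p ∧ D.e (A.val z) ≠ 0

/-- state of type E: its component contains a nonempty loop fixing the base vertex -/
def EE (p : A.Q) : Prop :=
  A.live p ∧ ∃ q y, A.sc p q ∧ y ≠ [] ∧ A.st q y = q ∧ D.L (A.val y) = 0

/-- Lemmas 1, 2 -/
def LemV : Prop := ∃ C : ℝ, 0 ≤ C ∧ ∀ (p : A.Q) (V : List A.S), A.Vert p → A.sc p (A.st p V) →
  (V.length : ℝ) ≤ C * (1 + D.L (A.val V))

/-- heights are bounded in non-vertical components -/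
def LemH : Prop := ∃ C : ℕ, ∀ (p : A.Q) (V : List A.S), A.live p → ¬ A.Vert p → A.sc p (A.st p V) →
  |D.e (A.val V)| ≤ C

/-- Lemma 3 -/
def LemE : Prop := ∃ (R : ℝ) (psi : A.Q → ℂ), 0 ≤ R ∧ ∀ p, A.EE p → psi p ≠ 0 ∧ ¬ A.Vert p ∧
  (∀ V, A.sc p (A.st p V) → (D.L (A.val V) : ℝ) ≤ R ∧ ‖D.x (A.val V) - V.length * psi p‖ ≤ R) ∧
  (∀ V, A.sc p (A.st p V) → psi p = D.al ^ (D.e (A.val V)) * psi (A.st p V))

/-- Lemma 4 -/
def LemF : Prop := ∃ C : ℝ, 0 ≤ C ∧ ∀ (p : A.Q) (V : List A.S), A.live p → ¬ A.Vert p → ¬ A.EE p →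
  A.sc p (A.st p V) → (V.length : ℝ) ≤ C * (1 + D.L (A.val V))

/-- Lemma Q : no E-state is reachable from a vertical state -/
def LemQ : Prop := ∀ (p : A.Q) (V : List A.S), A.Vert p → A.coacc (A.st p V) → ¬ A.EE (A.st p V)

/-- two loops with different centres -/
def NiceRoot (s : A.Q) : Prop := A.live s ∧ ∃ A1 A2, A.st s A1 = s ∧ A.st s A2 = s ∧
  D.e (A.val A1) ≠ 0 ∧ D.e (A.val A2) ≠ 0 ∧ D.cen (A.val A1) ≠ D.cen (A.val A2)

/-- reachable from a nice root -/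
def Nice (q : A.Q) : Prop := A.coacc q ∧ ∃ s V, A.NiceRoot s ∧ A.st s V = q

/-- Lemma R -/
def LemR : Prop := ∃ C : ℝ, 0 ≤ C ∧ ∀ (q : A.Q) (V : List A.S), A.Nice q → A.coacc (A.st q V) →
  (V.length : ℝ) ≤ C * (1 + D.L (A.val V))

/-- Lemma N -/
def LemN : Prop := ∃ s, A.NiceRoot s

/-- Lemma K -/
def LemK : Prop := ∃ C2 : ℕ, ∀ (K : ℝ) (B : ℕ) (p : A.Q), A.Nice p → ∃ (p0 : List A.S) (t1 : ℕ),
  A.st A.q0 p0 = p ∧ t1 ≤ p0.length ∧
  (∀ t ≤ t1, ∀ V, A.coacc (A.st p V) → B ≤ D.L ((A.val (p0.take t))⁻¹ * A.val (p0 ++ V))) ∧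
  (∀ V, A.coacc (A.st p V) → D.L (A.val p0) + D.L (A.val V) ≤ D.L (A.val (p0 ++ V)) + 2 * C2) ∧
  (∀ W, W ∈ A.M.accepts → t1 ≤ W.length →
    (∀ t ≤ t1, D.N ((A.val (p0.take t))⁻¹ * A.val (W.take t)) ≤ K) → A.Nice (A.st A.q0 (W.take t1)))

/-- `V` is an up-word of height `m` which reaches its final tree vertex only at the end -/
def FV (V : List A.S) (m : ℕ) : Prop := D.e (A.val V) = m ∧ D.L (A.val V) = m ∧
  ∀ t < V.length, 0 < D.L ((A.val (V.take t))⁻¹ * A.val V)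

def NiceM (m : ℕ) (q : A.Q) : Prop := ∃ p V, A.Nice p ∧ A.st p V = q ∧ A.coacc q ∧ A.FV V m

/-- Lemma M -/
def LemM : Prop := ∃ (NN : Set A.Q) (m1 : ℕ), (∀ m ≥ m1, ∀ q, A.NiceM m q ↔ q ∈ NN) ∧
  ∃ q ∈ NN, ∀ l : ℕ, ∃ V, A.coacc (A.st q V) ∧ D.e (A.val V) = l ∧ D.L (A.val V) = l

end Auto

end H57.QI
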