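import Pool.Agent.Lib_helper57.QI.EM
import Pool.Agent.Lib_helper57.QI.EComb

/-!
# The geometric part of the final argument
-/

set_option autoImplicit false

namespace H57.QI

variable {H : Type} [Group H]

theorem Geo.seg_shift (D : Geo H) {p0 v d : H} {C2 : ℕ} (hd : D.L d + D.L (d⁻¹ * v) = D.L v)
    (h : D.L p0 + D.L v ≤ D.L (p0 * v) + 2 * C2) (hn : C2 < D.L d) :
    D.L (p0 * d) + D.L (d⁻¹ * v) = D.L (p0 * v) := by
  have h4 := D.four (p0 * d) p0 1 (p0 * v)
  have e1 : (p0 * d)⁻¹ * p0 = d⁻¹ := by group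
  have e2 : (p0 * d)⁻¹ * (p0 * v) = d⁻¹ * v := by group
  have e3 : p0⁻¹ * (p0 * v) = v := by group
  rw [e1, e2, e3, mul_one, mul_one, inv_one, one_mul, D.L_inv, D.L_inv, D.L_inv] at h4
  have h5 := D.L_mul (p0 * d) (d⁻¹ * v)
  have e4 : p0 * d * (d⁻¹ * v) = p0 * v := by group
  rw [e4] at h5
  rcases min_le_iff.1 h4 with h6 | h6
  · omega
  · omega

namespace Auto

variable {D : Geo H} (A : Auto D)

theorem nice_after {W : List A.S} (hW : W ∈ A.M.accepts) {t1 t : ℕ}
    (h : A.Nice (A.st A.q0 (W.take t1))) (ht : t1 ≤ t) : A.Nice (A.st A.q0 (W.take t)) := by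
  have h1 : A.st A.q0 (W.take t) =
      A.st (A.st A.q0 (W.take t1)) ((W.drop t1).take (t - t1)) := by
    rw [← A.st_take_add]
    congr 2; omega
  rw [h1]
  apply A.Nice_st h
  rw [← h1]
  exact (A.live_of_mem hW _).2

theorem val_seg (W : List A.S) {a c : ℕ} (h : a ≤ c) :
    A.val ((W.drop a).take (c - a)) = (A.val (W.take a))⁻¹ * A.val (W.take c) := by
  have h1 : c = a + (c - a) := by omega
  conv_rhs => rw [h1, A.val_take_add]
  group

theorem st_seg (W : List A.S) {a c : ℕ} (h : a ≤ c) (p : A.Q) :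
    A.st (A.st p (W.take a)) ((W.drop a).take (c - a)) = A.st p (W.take c) := by
  rw [← A.st_take_add]
  congr 2; omega

theorem seg_bound {CR ξ : ℝ} (hξ0 : 0 ≤ ξ) (hξ : ∀ w : List A.S, D.N (A.val w) ≤ ξ * w.length)
    (hCR : ∀ (q : A.Q) (V : List A.S), A.Nice q → A.coacc (A.st q V) →
      (V.length : ℝ) ≤ CR * (1 + D.L (A.val V)))
    (hCR0 : 0 ≤ CR)
    {W : List A.S} (hW : W ∈ A.M.accepts) {t1 : ℕ} (hn : A.Nice (A.st A.q0 (W.take t1)))
    {a c : ℕ} (ha : t1 ≤ a) (hc : t1 ≤ c) (K : ℝ)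
    (hL : (D.L ((A.val (W.take a))⁻¹ * A.val (W.take c)) : ℝ) ≤ K) :
    D.N ((A.val (W.take a))⁻¹ * A.val (W.take c)) ≤ ξ * (CR * (1 + K)) := by
  wlog hac : a ≤ c generalizing a c
  · have h1 := this hc ha (by rw [D.L_inv_mul_comm]; exact hL) (by omega)
    have h2 : (A.val (W.take a))⁻¹ * A.val (W.take c) =
      ((A.val (W.take c))⁻¹ * A.val (W.take a))⁻¹ := by group
    rw [h2, D.N_inv]
    exact h1
  rw [← A.val_seg W hac] at hL ⊢
  refine (hξ _).trans ?_
  apply mul_le_mul_of_nonneg_left _ hξ0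
  refine (hCR (A.st A.q0 (W.take a)) _ (A.nice_after hW hn ha) ?_).trans ?_
  · rw [A.st_seg W hac]
    exact (A.live_of_mem hW _).2
  · apply mul_le_mul_of_nonneg_left _ hCR0
    linarith

/-- constants of the final argument -/
noncomputable def sseq (Kg : ℝ → ℝ) (c : ℝ) : ℕ → ℝ
  | 0 => 0
  | (n + 1) => Kg (sseq Kg c n) + c

theorem geom (hR : A.LemR) (hK : A.LemK) (hM : A.LemM) :
    ∃ K0 C0 : ℝ, ∀ l : ℕ, A.Config l (Fintype.card A.Q + 1) K0 C0 := by
  classical
  obtain ⟨CR, hCR0, hCR⟩ := hR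
  obtain ⟨C2, hK⟩ := hK
  obtain ⟨NN, m1, hNN, qs, hqs, hU⟩ := hM
  obtain ⟨ξ, hξ1, hξ⟩ := A.exists_xi
  have hξ0 : 0 ≤ ξ := by linarith
  have hk1 := A.one_le_k
  -- acceptance words
  have hz : ∀ p : A.Q, ∃ z : List A.S, A.coacc p → A.st p z ∈ A.M.accept := by
    intro p
    by_cases h : A.coacc p
    · obtain ⟨z, hz⟩ := h
      exact ⟨z, fun _ => hz⟩
    · exact ⟨[], fun h' => absurd h' h⟩
  choose ζ hζ using hz
  obtain ⟨cz, hcz0, hcz⟩ : ∃ c : ℝ, 0 ≤ c ∧ ∀ p : A.Q, D.N (A.val (ζ p)) ≤ c := by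
    refine ⟨∑ p : A.Q, D.N (A.val (ζ p)), Finset.sum_nonneg fun p _ => D.N_nonneg _, fun p => ?_⟩
    exact Finset.single_le_sum (f := fun p => D.N (A.val (ζ p)))
      (fun p _ => D.N_nonneg _) (Finset.mem_univ p)
  -- constants
  obtain ⟨Kf, hKf⟩ : ∃ Kf : ℝ → ℝ, ∀ s, Kf s = A.k * (cz + s + 3) := ⟨_, fun _ => rfl⟩
  obtain ⟨Kg, hKg⟩ : ∃ Kg : ℝ → ℝ, ∀ s, Kg s = Kf s + ξ * (CR * (1 + Kf s)) := ⟨_, fun _ => rfl⟩
  have hKfm : ∀ a b, a ≤ b → Kf a ≤ Kf b := by
    intro a b hab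
    rw [hKf, hKf]
    apply mul_le_mul_of_nonneg_left _ (by linarith)
    linarith
  have hKfpos : ∀ a, 0 ≤ a → a ≤ Kf a := by
    intro a ha
    rw [hKf]
    nlinarith
  have hξCR : 0 ≤ ξ * CR := mul_nonneg hξ0 hCR0
  have hKgm : ∀ a b, a ≤ b → Kg a ≤ Kg b := by
    intro a b hab
    rw [hKg, hKg]
    have h1 := hKfm a b hab
    have h2 : ξ * (CR * (1 + Kf a)) ≤ ξ * (CR * (1 + Kf b)) := by
      apply mul_le_mul_of_nonneg_left _ hξ0
      apply mul_le_mul_of_nonneg_left _ hCR0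
      linarith
    linarith
  have hKgf : ∀ a, 0 ≤ a → Kf a ≤ Kg a := by
    intro a ha
    rw [hKg]
    have h1 := (hKfpos a ha)
    have : 0 ≤ ξ * (CR * (1 + Kf a)) := by
      apply mul_nonneg hξ0
      apply mul_nonneg hCR0
      linarith
    linarith
  obtain ⟨s, hs0, hsS⟩ : ∃ s : ℕ → ℝ, s 0 = 0 ∧ ∀ n, s (n + 1) = Kg (s n) + (4 + ξ * CR) :=
    ⟨sseq Kg (4 + ξ * CR), rfl, fun _ => rfl⟩
  have hsnn : ∀ n, 0 ≤ s n := by
    intro n
    induction n with
    | zero => rw [hs0]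
    | succ n ih =>
      rw [hsS]
      have := hKgf _ ih
      have := hKfpos _ ih
      linarith
  have hsmono : Monotone s := by
    apply monotone_nat_of_le_succ
    intro n
    rw [hsS]
    have := hKgf _ (hsnn n)
    have := hKfpos _ (hsnn n)
    linarith
  set n0 := Fintype.card A.Q + 1 with hn0
  -- nice states of NN
  have hNNnice : ∀ q ∈ NN, A.Nice q ∧ A.coacc q := by
    intro q hq
    obtain ⟨p, V, hp, hV, hc, -⟩ := (hNN m1 le_rfl q).2 hq
    refine ⟨?_, hc⟩
    rw [← hV]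
    apply A.Nice_st hp
    rw [hV]; exact hc
  refine ⟨2 * Kg (s n0), Kg (s n0) + (4 + ξ * CR), fun l => ?_⟩
  -- choice of the optimal continuation
  set Sset : Set ℝ := {r | ∃ q ∈ NN, ∃ V, A.coacc (A.st q V) ∧ D.e (A.val V) = l ∧
    D.L (A.val V) = l ∧ r = (D.x (A.val V)).re} with hSset
  have hSne : Sset.Nonempty := by
    obtain ⟨V, h1, h2, h3⟩ := hU l
    exact ⟨_, qs, hqs, V, h1, h2, h3, rfl⟩
  have hre : ∀ V : List A.S, (D.x (A.val V)).re ≤ ξ * V.length := by
    intro V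
    exact (Complex.re_le_norm _).trans ((D.norm_x_le_N _).trans (hξ V))
  have hSbdd : BddAbove Sset := by
    refine ⟨ξ * (CR * (1 + l)), ?_⟩
    rintro r ⟨q, hq, V, h1, h2, h3, rfl⟩
    refine (hre V).trans ?_
    apply mul_le_mul_of_nonneg_left _ hξ0
    have := hCR q V (hNNnice q hq).1 h1
    rwa [h3] at this
  obtain ⟨r0, ⟨qq, hqq, Vp, hVp1, hVp2, hVp3, hr0⟩, hr0'⟩ :=
    exists_lt_of_lt_csSup hSne (show sSup Sset - 1 < sSup Sset by linarith)
  have hopt : ∀ q ∈ NN, ∀ V, A.coacc (A.st q V) → D.e (A.val V) = l → D.L (A.val V) = l →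
      (D.x (A.val V)).re ≤ (D.x (A.val Vp)).re + 1 := by
    intro q hq V h1 h2 h3
    have h4 : (D.x (A.val V)).re ≤ sSup Sset := le_csSup hSbdd ⟨q, hq, V, h1, h2, h3, rfl⟩
    rw [← hr0]
    linarith
  -- the initial part
  set m0 := m1 + C2 + 1 with hm0
  obtain ⟨p, V1, hp, hV1, hqqc, hFe, hFL, hFV⟩ := (hNN m0 (by omega) qq).2 hqq
  obtain ⟨B, hB⟩ := exists_nat_gt (Kf (s n0))
  obtain ⟨p0, t1, hp0, ht1, hfar0, hgeo, hnice⟩ := hK (Kf (s n0)) B p hp
  obtain ⟨VV, hVV⟩ : ∃ VV, VV = V1 ++ Vp := ⟨_, rfl⟩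
  set qe := A.st qq Vp with hqe
  have hstVV : A.st p VV = qe := by rw [hVV, A.st_append, hV1]
  have hVVc : A.coacc (A.st p VV) := by rw [hstVV]; exact hVp1
  have hup := D.up_mul (g := A.val V1) (h := A.val Vp) (by rw [hFe, hFL]) (by rw [hVp2, hVp3])
  rw [← A.val_append, ← hVV, hFL, hVp3] at hup
  have hLVV : D.L (A.val VV) = m0 + l := hup.2
  have heVV : D.e (A.val VV) = D.L (A.val VV) := hup.1
  set WS := p0 ++ VV ++ ζ qe with hWS
  have hWSacc : WS ∈ A.M.accepts := by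
    rw [A.mem_accepts, hWS, A.st_append, A.st_append, hp0, hstVV]
    exact hζ _ hVp1
  have htakeWS : ∀ t ≤ p0.length, WS.take t = p0.take t := by
    intro t ht
    rw [hWS, List.append_assoc, List.take_append_of_le_length ht]
  have htakeWS2 : ∀ t ≤ VV.length, WS.take (p0.length + t) = p0 ++ VV.take t := by
    intro t ht
    rw [hWS, List.take_append_of_le_length (by rw [List.length_append]; omega), List.take_append,
      List.take_of_length_le (by omega)]
    simp
  -- the target elements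
  have ha : ∀ j : Fin n0, ∃ a : H, D.L a = 0 ∧ ‖D.al ^ (l : ℤ) * D.x a - s j‖ ≤ 2 := by
    intro j
    obtain ⟨o, ho, h4⟩ := D.O_cover (D.al ^ (-(l : ℤ)) * s j)
    obtain ⟨a, ha, hax⟩ := D.P_surj o ho
    refine ⟨a, ha, ?_⟩
    have h6 : D.al ^ (l : ℤ) * D.al ^ (-(l : ℤ)) = 1 := by
      rw [← zpow_add₀ D.al_ne_zero]; simp
    have h5 : D.al ^ (l : ℤ) * D.x a - s j = -(D.al ^ (l : ℤ) * (D.al ^ (-(l : ℤ)) * s j - o)) := by
      rw [hax]
      linear_combination (s j : ℂ) * h6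
    rw [h5, norm_neg, norm_mul, D.norm_al_zpow, one_mul]
    exact h4
  choose a ha0 hax using ha
  have hxa : ∀ j, ‖D.x (a j)‖ ≤ s j + 2 := by
    intro j
    have h1 : ‖D.al ^ (l : ℤ) * D.x (a j)‖ ≤ ‖D.al ^ (l : ℤ) * D.x (a j) - s j‖ + ‖((s j : ℝ) : ℂ)‖ := by
      have := norm_add_le (D.al ^ (l : ℤ) * D.x (a j) - s j) ((s j : ℝ) : ℂ)
      simpa using this
    rw [norm_mul, D.norm_al_zpow, one_mul] at h1
    have h2 : ‖((s j : ℝ) : ℂ)‖ = s j := by
      rw [Complex.norm_real, Real.norm_of_nonneg (hsnn _)]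
    have := hax j
    linarith
  have hWex : ∀ j : Fin n0, ∃ W, W ∈ A.M.accepts ∧ A.val W = A.val p0 * A.val VV * a j := by
    intro j
    obtain ⟨W, h1, h2⟩ := A.exists_word (A.val p0 * A.val VV * a j)
    exact ⟨W, h1, h2⟩
  choose W hW hWv using hWex
  have hsj : ∀ j : Fin n0, s j ≤ s n0 := fun j => hsmono j.2.le
  -- fellow travelling
  have hft : ∀ j t, D.N ((A.val (WS.take t))⁻¹ * A.val ((W j).take t)) ≤ Kf (s j) := by
    intro j t
    refine (A.ft' hWSacc (hW j) t).trans ?_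
    rw [hKf]
    apply mul_le_mul_of_nonneg_left _ (by linarith)
    have h1 : (A.val WS)⁻¹ * A.val (W j) = (A.val (ζ qe))⁻¹ * a j := by
      rw [hWv, hWS, A.val_append, A.val_append]; group
    rw [h1]
    have h2 := D.N_mul (A.val (ζ qe))⁻¹ (a j)
    rw [D.N_inv] at h2
    have h3 : D.N (a j) = ‖D.x (a j)‖ := by
      unfold Geo.N
      rw [ha0 j]; simp
    have := hcz qe
    have := hxa j
    linarith
  have hftL : ∀ j t, (D.L ((A.val (WS.take t))⁻¹ * A.val ((W j).take t)) : ℝ) ≤ Kf (s j) :=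
    fun j t => (D.L_le_N _).trans (hft j t)
  have hclose : ∀ j, ∀ t ≤ t1, D.N ((A.val (p0.take t))⁻¹ * A.val ((W j).take t)) ≤ Kf (s n0) := by
    intro j t ht
    rw [← htakeWS t (by omega)]
    exact (hft j t).trans (hKfm _ _ (hsj j))
  -- nothing beyond `p0` is visited before `t1`
  have hfar : ∀ j, ∀ t ≤ t1, ∀ V, A.coacc (A.st p V) →
      0 < D.L ((A.val ((W j).take t))⁻¹ * A.val (p0 ++ V)) := by
    intro j t ht V hV
    have h1 := hfar0 t ht V hV
    have h2 : (D.L ((A.val (p0.take t))⁻¹ * A.val ((W j).take t)) : ℝ) ≤ Kf (s n0) :=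
      (D.L_le_N _).trans (hclose j t ht)
    have h3 : D.L ((A.val (p0.take t))⁻¹ * A.val ((W j).take t)) < B := by
      exact_mod_cast h2.trans_lt hB
    have h5 := D.L_tri (A.val (p0.take t)) (A.val ((W j).take t)) (A.val (p0 ++ V))
    omega
  have hlen : ∀ j, t1 ≤ (W j).length := by
    intro j
    by_contra hcon
    push Not at hcon
    have h1 := hfar j t1 le_rfl VV hVVc
    rw [List.take_of_length_le hcon.le, hWv, A.val_append] at h1
    have h2 : (A.val p0 * A.val VV * a j)⁻¹ * (A.val p0 * A.val VV) = (a j)⁻¹ := by group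
    rw [h2, D.L_inv, ha0 j] at h1
    omega
  have hniceW : ∀ j, A.Nice (A.st A.q0 ((W j).take t1)) := fun j =>
    hnice (W j) (hW j) (hlen j) (hclose j)
  have hniceS : A.Nice (A.st A.q0 (WS.take t1)) := by
    apply hnice WS hWSacc (by rw [hWS]; simp only [List.length_append]; omega)
    intro t ht
    rw [htakeWS t (by omega), inv_mul_cancel, D.N_one]
    have := hKfpos _ (hsnn n0)
    linarith [hsnn n0]
  -- the vertices
  have hτ : ∀ n : ℕ, ∃ T, n ≤ m0 + l → (T ≤ VV.length ∧ D.e (A.val (VV.take T)) = n ∧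
      D.L (A.val (VV.take T)) = n ∧ D.L ((A.val (VV.take T))⁻¹ * A.val VV) = m0 + l - n) := by
    intro n
    by_cases hn : n ≤ m0 + l
    · obtain ⟨T, h1, h2, h3, h4, h5, h6⟩ := A.split_up VV heVV n (by rw [hLVV]; exact hn)
      refine ⟨T, fun _ => ⟨h1, h2, h3, ?_⟩⟩
      rw [← A.val_take_mul_drop VV T, ← mul_assoc, inv_mul_cancel, one_mul, h5, hLVV]
    · exact ⟨0, fun h => absurd h hn⟩
  choose τ hτ using hτ
  set d : ℕ → H := fun n => A.val (VV.take (τ n)) with hd
  set b : ℕ → H := fun n => A.val p0 * d n with hb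
  have hdL : ∀ n ≤ m0 + l, D.L (d n) = n := fun n hn => (hτ n hn).2.2.1
  have hde : ∀ n ≤ m0 + l, D.e (d n) = n := fun n hn => (hτ n hn).2.1
  have hdV : ∀ n ≤ m0 + l, D.L ((d n)⁻¹ * A.val VV) = m0 + l - n := fun n hn => (hτ n hn).2.2.2
  have hbdist : ∀ n n', n ≤ n' → n' ≤ m0 + l → D.L ((b n)⁻¹ * b n') = n' - n := by
    intro n n' h1 h2
    have h3 : (b n)⁻¹ * b n' = (d n)⁻¹ * d n' := by simp only [hb]; group
    rw [h3, D.seg_dist (g := A.val VV) (by rw [hdL n (by omega), hdV n (by omega), hLVV]; omega)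
      (by rw [hdL n' h2, hdV n' h2, hLVV]; omega) (by rw [hdL n (by omega), hdL n' h2]; exact h1),
      hdL n (by omega), hdL n' h2]
  have hgeo' : D.L (A.val p0) + D.L (A.val VV) ≤ D.L (A.val p0 * A.val VV) + 2 * C2 := by
    have := hgeo VV hVVc
    rwa [A.val_append] at this
  have hbz : ∀ n, C2 + 1 ≤ n → n ≤ m0 + l →
      D.L (b n) + (m0 + l - n) = D.L (A.val p0 * A.val VV) := by
    intro n h1 h2
    have h3 := D.seg_shift (p0 := A.val p0) (v := A.val VV) (d := d n) (C2 := C2)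
      (by rw [hdL n h2, hdV n h2, hLVV]; omega) hgeo' (by rw [hdL n h2]; omega)
    rw [hdV n h2] at h3
    exact h3
  have hzL : ∀ j, D.L (A.val (W j)) = D.L (A.val p0 * A.val VV) := by
    intro j
    rw [hWv, D.L_mul_P (ha0 j)]
  have hbW : ∀ j n, n ≤ m0 + l → D.L ((b n)⁻¹ * A.val (W j)) = m0 + l - n := by
    intro j n h2
    have h3 : (b n)⁻¹ * A.val (W j) = (d n)⁻¹ * A.val VV * a j := by
      rw [hWv]; simp only [hb]; group
    rw [h3, D.L_mul_P (ha0 j), hdV n h2]
  have hTex : ∀ (j : Fin n0) (n : ℕ), ∃ T, C2 + 1 ≤ n → n ≤ m0 + l → (T ≤ (W j).length ∧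
      D.L ((A.val ((W j).take T))⁻¹ * b n) = 0 ∧
      ∀ t < T, 0 < D.L ((A.val ((W j).take t))⁻¹ * b n)) := by
    intro j n
    by_cases h1 : C2 + 1 ≤ n
    · by_cases h2 : n ≤ m0 + l
      · obtain ⟨T, h3, h4, h5⟩ := A.first_visit (W j) (b n)
          (by rw [hbW j n h2, hzL, hbz n h1 h2])
        exact ⟨T, fun _ _ => ⟨h3, h4, h5⟩⟩
      · exact ⟨0, fun _ h => absurd h h2⟩
    · exact ⟨0, fun h _ => absurd h h1⟩
  choose T hT using hTex
  have hTlen : ∀ j n, C2 + 1 ≤ n → n ≤ m0 + l → T j n ≤ (W j).length :=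
    fun j n h1 h2 => (hT j n h1 h2).1
  have hT0 : ∀ j n, C2 + 1 ≤ n → n ≤ m0 + l → D.L ((A.val ((W j).take (T j n)))⁻¹ * b n) = 0 :=
    fun j n h1 h2 => (hT j n h1 h2).2.1
  have hTfirst : ∀ j n, C2 + 1 ≤ n → n ≤ m0 + l → ∀ t < T j n,
      0 < D.L ((A.val ((W j).take t))⁻¹ * b n) := fun j n h1 h2 => (hT j n h1 h2).2.2
  have hTt1 : ∀ j n, C2 + 1 ≤ n → n ≤ m0 + l → t1 < T j n := by
    intro j n h1 h2
    by_contra hcon
    push Not at hcon
    have h3 := hfar j (T j n) hcon (VV.take (τ n)) (A.coacc_take hVVc _)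
    rw [A.val_append] at h3
    have h4 := hT0 j n h1 h2
    simp only [hb, hd] at h4
    omega
  have hTmono : ∀ j n n', C2 + 1 ≤ n → n ≤ n' → n' ≤ m0 + l → T j n ≤ T j n' := by
    intro j n n' h1 h2 h3
    have h4 := hT0 j n' (by omega) h3
    obtain ⟨t, ht, h5⟩ := A.visit ((W j).take (T j n')) (b n) (by
      rw [L_of_same' h4, L_same h4, hbdist n n' h2 h3]
      have := hbz n h1 (by omega)
      have := hbz n' (by omega) h3
      omega)
    rw [List.length_take] at ht
    have h6 : t ≤ T j n' := by omega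
    rw [List.take_take, min_eq_left h6] at h5
    by_contra hcon
    push Not at hcon
    have := hTfirst j n h1 (by omega) t (by omega)
    omega
  have hniceT : ∀ j n, C2 + 1 ≤ n → n ≤ m0 + l → A.Nice (A.st A.q0 ((W j).take (T j n))) := by
    intro j n h1 h2
    exact A.nice_after (hW j) (hniceW j) (hTt1 j n h1 h2).le
  -- comparison with `WS`
  have hCL : ∀ j n, C2 + 1 ≤ n → n ≤ m0 + l → ∀ T', t1 ≤ T' →
      D.L ((A.val (WS.take T'))⁻¹ * b n) = 0 →
      D.N ((A.val (WS.take T'))⁻¹ * A.val ((W j).take (T j n))) ≤ Kg (s j) := by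
    intro j n h1 h2 T' hT' h3
    have h4 : (D.L ((A.val (WS.take T'))⁻¹ * A.val (WS.take (T j n))) : ℝ) ≤ Kf (s j) := by
      rw [L_of_same h3, ← L_of_same (hT0 j n h1 h2), D.L_inv_mul_comm]
      exact hftL j (T j n)
    have h5 := A.seg_bound hξ0 hξ hCR hCR0 hWSacc hniceS hT' (hTt1 j n h1 h2).le _ h4
    have h6 := hft j (T j n)
    have h7 : (A.val (WS.take T'))⁻¹ * A.val ((W j).take (T j n)) =
        ((A.val (WS.take T'))⁻¹ * A.val (WS.take (T j n))) *
        ((A.val (WS.take (T j n)))⁻¹ * A.val ((W j).take (T j n))) := by group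
    rw [h7, hKg]
    refine (D.N_mul _ _).trans ?_
    linarith
  -- the configuration
  obtain ⟨y0, hy0⟩ : ∃ y0, y0 = A.val (p0 ++ V1) := ⟨_, rfl⟩
  have hlv : ∀ i, C2 + 1 ≤ m0 + i := fun i => by omega
  have hebn : ∀ n ≤ m0 + l, D.e (b n) = D.e (A.val p0) + n := by
    intro n hn
    simp only [hb]
    rw [D.e_mul, hde n hn]
  have heT : ∀ j n, C2 + 1 ≤ n → n ≤ m0 + l →
      D.e (A.val ((W j).take (T j n))) = D.e (A.val p0) + n := by
    intro j n h1 h2
    rw [e_same (hT0 j n h1 h2), hebn n h2]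
  have hey0 : D.e y0 = D.e (A.val p0) + m0 := by
    rw [hy0, A.val_append, D.e_mul, hFe]
  set X : Fin n0 → ℕ → H := fun j i => y0⁻¹ * A.val ((W j).take (T j (m0 + i))) with hX
  set q : Fin n0 → ℕ → A.Q := fun j i => A.st A.q0 ((W j).take (T j (m0 + i))) with hq
  set Bset : A.Q → ℕ → Set ℝ := fun q i => {r | ∃ V, A.coacc (A.st q V) ∧
    D.e (A.val V) = ((l - i : ℕ) : ℤ) ∧ D.L (A.val V) = l - i ∧
    r = (D.al ^ (i : ℤ) * D.x (A.val V)).re} with hBset
  have hqnice : ∀ j i, i ≤ l → A.Nice (q j i) := fun j i hi => hniceT j (m0 + i) (hlv i) (by omega)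
  have heX : ∀ j i, i ≤ l → D.e (X j i) = i := by
    intro j i hi
    simp only [hX]
    rw [D.e_mul, D.e_inv, hey0, heT j (m0 + i) (hlv i) (by omega)]
    push_cast; ring
  -- segments
  have hseg : ∀ j i i', i ≤ i' → i' ≤ l → ∃ S : List A.S, A.st (q j i) S = q j i' ∧
      X j i' = X j i * A.val S ∧ D.e (A.val S) = ((i' - i : ℕ) : ℤ) ∧ D.L (A.val S) = i' - i := by
    intro j i i' h1 h2
    have h3 := hTmono j (m0 + i) (m0 + i') (hlv i) (by omega) (by omega)
    have h4 := A.val_seg (W j) h3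
    refine ⟨_, A.st_seg (W j) h3 A.q0, ?_, ?_, ?_⟩
    · rw [h4]; simp only [hX]; group
    · rw [h4, D.e_mul, D.e_inv, heT j (m0 + i) (hlv i) (by omega),
        heT j (m0 + i') (hlv i') (by omega)]
      push_cast [h1]; ring
    · rw [h4, L_of_same (hT0 j (m0 + i) (hlv i) (by omega)),
        L_of_same' (hT0 j (m0 + i') (hlv i') (by omega)), hbdist _ _ (by omega) (by omega)]
      omega
  have hnormre : ∀ (i : ℕ) (z : ℂ), |(D.al ^ (i : ℤ) * z).re| ≤ ‖z‖ := by
    intro i z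
    refine (Complex.abs_re_le_norm _).trans ?_
    rw [norm_mul, D.norm_al_zpow, one_mul]
  have hBbdd : ∀ q i, A.Nice q → BddAbove (Bset q i) := by
    intro q i hqn
    refine ⟨ξ * (CR * (1 + l)), ?_⟩
    rintro r ⟨V, h1, h2, h3, rfl⟩
    refine ((le_abs_self _).trans (hnormre i _)).trans ?_
    refine ((D.norm_x_le_N _).trans (hξ V)).trans ?_
    apply mul_le_mul_of_nonneg_left _ hξ0
    refine (hCR q V hqn h1).trans ?_
    apply mul_le_mul_of_nonneg_left _ hCR0
    rw [h3]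
    have : ((l - i : ℕ) : ℝ) ≤ l := by exact_mod_cast Nat.sub_le l i
    linarith
  have hBne : ∀ j i, i ≤ l → (Bset (q j i) i).Nonempty := by
    intro j i hi
    obtain ⟨S, h1, h2, h3, h4⟩ := hseg j i l hi le_rfl
    refine ⟨_, S, ?_, h3, h4, rfl⟩
    rw [h1]
    exact (hqnice j l le_rfl).1
  have hmono : ∀ j i i', i ≤ i' → i' ≤ l →
      (D.x (X j i')).re + sSup (Bset (q j i') i') ≤ (D.x (X j i)).re + sSup (Bset (q j i) i) := by
    intro j i i' h1 h2
    obtain ⟨S, g1, g2, g3, g4⟩ := hseg j i i' h1 h2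
    have hxX : D.x (X j i') = D.x (X j i) + D.al ^ (i : ℤ) * D.x (A.val S) := by
      rw [g2, D.x_mul, heX j i (h1.trans h2)]
    have h3 : sSup (Bset (q j i') i') ≤ sSup (Bset (q j i) i) -
        (D.al ^ (i : ℤ) * D.x (A.val S)).re := by
      apply csSup_le (hBne j i' h2)
      rintro r ⟨V, k1, k2, k3, rfl⟩
      have k4 := D.up_mul (g := A.val S) (h := A.val V) (by rw [g3, g4]) (by rw [k2, k3])
      have k5 : (D.al ^ (i : ℤ) * D.x (A.val (S ++ V))).re ≤ sSup (Bset (q j i) i) := by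
        apply le_csSup (hBbdd _ i (hqnice j i (h1.trans h2)))
        refine ⟨S ++ V, ?_, ?_, ?_, rfl⟩
        · rw [A.st_append, g1]; exact k1
        · rw [A.val_append, k4.1, k4.2, g4, k3]
          congr 1; omega
        · rw [A.val_append, k4.2, g4, k3]; omega
      have k6 : D.al ^ (i : ℤ) * D.x (A.val (S ++ V)) =
          D.al ^ (i : ℤ) * D.x (A.val S) + D.al ^ (i' : ℤ) * D.x (A.val V) := by
        rw [A.val_append, D.x_mul, g3, mul_add, ← mul_assoc, ← zpow_add₀ D.al_ne_zero]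
        congr 3
        push_cast [h1]; ring
      rw [k6, Complex.add_re] at k5
      linarith
    rw [hxX, Complex.add_re]
    linarith
  -- level `0`
  have hqNN : ∀ j, q j 0 ∈ NN := by
    intro j
    rw [← hNN m1 le_rfl]
    have h1 : C2 + 1 ≤ m0 + l := by omega
    have h3 := hTmono j (C2 + 1) (m0 + 0) le_rfl (by omega) (by omega)
    have h4 := A.val_seg (W j) h3
    refine ⟨_, _, hniceT j (C2 + 1) le_rfl (by omega), A.st_seg (W j) h3 A.q0,
      (hqnice j 0 (Nat.zero_le _)).1, ?_, ?_, ?_⟩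
    · rw [h4, D.e_mul, D.e_inv, heT j (C2 + 1) le_rfl (by omega),
        heT j (m0 + 0) (hlv 0) (by omega)]
      push_cast [hm0]; ring
    · rw [h4, L_of_same (hT0 j (C2 + 1) le_rfl (by omega)),
        L_of_same' (hT0 j (m0 + 0) (hlv 0) (by omega)), hbdist _ _ (by omega) (by omega)]
      omega
    · intro t ht
      have h5 : t < T j (m0 + 0) - T j (C2 + 1) := by
        rw [List.length_take] at ht
        omega
      rw [List.take_take, min_eq_left h5.le, h4]
      have h6 : (A.val (((W j).drop (T j (C2 + 1))).take t))⁻¹ *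
          ((A.val ((W j).take (T j (C2 + 1))))⁻¹ * A.val ((W j).take (T j (m0 + 0)))) =
          (A.val ((W j).take (T j (C2 + 1) + t)))⁻¹ * A.val ((W j).take (T j (m0 + 0))) := by
        rw [A.val_take_add]; group
      rw [h6, L_of_same' (hT0 j (m0 + 0) (hlv 0) (by omega))]
      exact hTfirst j (m0 + 0) (hlv 0) (by omega) _ (by omega)
  have hB0 : ∀ j, sSup (Bset (q j 0) 0) ≤ (D.x (A.val Vp)).re + 1 := by
    intro j
    apply csSup_le (hBne j 0 (Nat.zero_le _))
    rintro r ⟨V, k1, k2, k3, rfl⟩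
    have := hopt (q j 0) (hqNN j) V k1 (by rw [k2]; simp) (by rw [k3]; simp)
    simpa using this
  have hX0 : ∀ j : Fin n0, ‖D.x (X j 0)‖ ≤ Kg (s j) := by
    intro j
    refine (D.norm_x_le_N _).trans ?_
    have h1 : WS.take (p0.length + V1.length) = p0 ++ V1 := by
      rw [htakeWS2 _ (by rw [hVV, List.length_append]; omega), hVV, List.take_left]
    have h2 := hCL j (m0 + 0) (hlv 0) (by omega) (p0.length + V1.length) (by omega) (by
      rw [h1, A.val_append]
      have h3 : (A.val p0 * A.val V1)⁻¹ * b (m0 + 0) = (A.val V1)⁻¹ * d (m0 + 0) := by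
        simp only [hb]; group
      rw [h3]
      have hvv : A.val VV = A.val V1 * A.val Vp := by rw [hVV, A.val_append]
      apply D.seg_unique (g := A.val VV)
      · have h4 : (A.val V1)⁻¹ * A.val VV = A.val Vp := by rw [hvv]; group
        rw [h4, hFL, hVp3, hLVV]
      · rw [hdL _ (by omega), hdV _ (by omega), hLVV]; omega
      · rw [hFL, hdL _ (by omega)])
    rw [h1, ← hy0] at h2
    exact h2
  -- level `l`
  have hXl : ∀ j : Fin n0, (D.x (A.val Vp)).re + s j - 2 - ξ * CR ≤ (D.x (X j l)).re := by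
    intro j
    have h1 : C2 + 1 ≤ m0 + l := hlv l
    set tl := (W j).drop (T j (m0 + l)) with htl
    have h2 : A.val tl = (A.val ((W j).take (T j (m0 + l))))⁻¹ * A.val (W j) := by
      rw [htl, ← A.val_take_mul_drop (W j) (T j (m0 + l))]; group
    have h3 : D.L (A.val tl) = 0 := by
      rw [h2, L_of_same (hT0 j (m0 + l) h1 le_rfl), hbW j _ le_rfl]; omega
    have h4 : (tl.length : ℝ) ≤ CR := by
      have := hCR (q j l) tl (hqnice j l le_rfl) (by
        simp only [hq, htl]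
        rw [A.take_append_drop_st]
        exact ⟨[], hW j⟩)
      rw [h3] at this
      simpa using this
    have h5 : ‖D.x (A.val tl)‖ ≤ ξ * CR := by
      refine ((D.norm_x_le_N _).trans (hξ tl)).trans ?_
      exact mul_le_mul_of_nonneg_left h4 hξ0
    have h6 : X j l * A.val tl = A.val Vp * a j := by
      rw [h2]
      simp only [hX]
      rw [hWv, hy0, hVV, A.val_append, A.val_append]; group
    have h7 := congrArg D.x h6
    rw [D.x_mul (X j l), D.x_mul (A.val Vp), heX j l le_rfl, hVp2] at h7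
    have h8 := congrArg Complex.re h7
    rw [Complex.add_re, Complex.add_re] at h8
    have h9 := (abs_le.1 ((hnormre l (D.x (A.val tl))).trans h5)).2
    have h10 := hax j
    have h11 : s j - 2 ≤ (D.al ^ (l : ℤ) * D.x (a j)).re := by
      have h12 := (Complex.abs_re_le_norm (D.al ^ (l : ℤ) * D.x (a j) - s j)).trans h10
      have h13 := (abs_le.1 h12).1
      rw [Complex.sub_re, Complex.ofReal_re] at h13
      linarith
    linarith
  have hBl : ∀ j, 0 ≤ sSup (Bset (q j l) l) := by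
    intro j
    apply le_csSup (hBbdd _ l (hqnice j l le_rfl))
    refine ⟨[], ?_, ?_, ?_, ?_⟩
    · rw [A.st_nil]; exact (hqnice j l le_rfl).1
    · rw [A.val_nil, D.e_one]; simp
    · rw [A.val_nil, D.L_one]; simp
    · rw [A.val_nil, D.x_one]; simp
  have hlow : ∀ j : Fin n0, s j - 3 - ξ * CR ≤ (D.x (X j 0)).re := by
    intro j
    have h1 := hmono j 0 l (Nat.zero_le _) le_rfl
    have h2 := hXl j
    have h3 := hB0 j
    have h4 := hBl j
    linarith
  have hX0ne : ∀ j j' : Fin n0, j < j' → X j 0 ≠ X j' 0 := by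
    intro j j' hjj h
    have h1 := hlow j'
    rw [← h] at h1
    have h2 := (Complex.re_le_norm (D.x (X j 0))).trans (hX0 j)
    have h3 : s (j + 1) ≤ s j' := hsmono (by exact_mod_cast hjj)
    rw [hsS] at h3
    linarith
  have hX0ne' : ∀ j j' : Fin n0, j ≠ j' → X j 0 ≠ X j' 0 := by
    intro j j' hjj
    rcases lt_or_gt_of_ne hjj with h | h
    · exact hX0ne j j' h
    · exact (hX0ne j' j h).symm
  refine ⟨X, q, fun q i => sSup (Bset q i), heX, ?_, ?_, hmono, ?_⟩
  · -- same vertex, bounded distance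
    intro j j' i hi
    have h0 : (X j i)⁻¹ * X j' i =
        (A.val ((W j).take (T j (m0 + i))))⁻¹ * A.val ((W j').take (T j' (m0 + i))) := by
      simp only [hX]; group
    rw [h0]
    constructor
    · rw [L_of_same (hT0 j (m0 + i) (hlv i) (by omega)),
        L_of_same' (hT0 j' (m0 + i) (hlv i) (by omega)), inv_mul_cancel, D.L_one]
    · have hτi := (hτ (m0 + i) (by omega)).1
      have h1 : D.L ((A.val (WS.take (p0.length + τ (m0 + i))))⁻¹ * b (m0 + i)) = 0 := by
        rw [htakeWS2 _ hτi, A.val_append]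
        simp only [hb, hd]
        rw [inv_mul_cancel, D.L_one]
      have h2 := hCL j (m0 + i) (hlv i) (by omega) _ (by omega) h1
      have h3 := hCL j' (m0 + i) (hlv i) (by omega) _ (by omega) h1
      have h4 := hKgm _ _ (hsj j)
      have h5 := hKgm _ _ (hsj j')
      refine (D.norm_x_le_N _).trans ?_
      have h6 : (A.val ((W j).take (T j (m0 + i))))⁻¹ * A.val ((W j').take (T j' (m0 + i))) =
          ((A.val (WS.take (p0.length + τ (m0 + i))))⁻¹ * A.val ((W j).take (T j (m0 + i))))⁻¹ *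
          ((A.val (WS.take (p0.length + τ (m0 + i))))⁻¹ * A.val ((W j').take (T j' (m0 + i)))) := by
        group
      rw [h6]
      refine (D.N_mul _ _).trans ?_
      rw [D.N_inv]
      linarith
  · -- distinctness
    intro j j' i hi hjj hqq' hXX
    have h1 : A.val ((W j).take (T j (m0 + i))) = A.val ((W j').take (T j' (m0 + i))) := by
      simp only [hX] at hXX
      exact mul_left_cancel hXX
    have h2 : (W j).take (T j (m0 + i)) = (W j').take (T j' (m0 + i)) :=
      A.uniq_path A.acc_q0 (hqnice j i hi).1 hqq' h1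
    have hl1 := hTlen j (m0 + i) (hlv i) (by omega)
    have hl2 := hTlen j' (m0 + i) (hlv i) (by omega)
    have h3 : T j (m0 + i) = T j' (m0 + i) := by
      have := congrArg List.length h2
      rw [List.length_take, List.length_take] at this
      omega
    have hm1 := hTmono j (m0 + 0) (m0 + i) (hlv 0) (by omega) (by omega)
    have hm2 := hTmono j' (m0 + 0) (m0 + i) (hlv 0) (by omega) (by omega)
    have h4 : ∀ t ≤ T j (m0 + i), (W j).take t = (W j').take t := by
      intro t ht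
      have := congrArg (List.take t) h2
      rw [List.take_take, List.take_take, min_eq_left ht, min_eq_left (by omega)] at this
      exact this
    have h5 : T j (m0 + 0) = T j' (m0 + 0) := by
      rcases lt_trichotomy (T j (m0 + 0)) (T j' (m0 + 0)) with h | h | h
      · have h6 := hTfirst j' (m0 + 0) (hlv 0) (by omega) _ h
        rw [← h4 _ (by omega)] at h6
        have := hT0 j (m0 + 0) (hlv 0) (by omega)
        omega
      · exact h
      · have h6 := hTfirst j (m0 + 0) (hlv 0) (by omega) _ h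
        rw [h4 _ (by omega)] at h6
        have := hT0 j' (m0 + 0) (hlv 0) (by omega)
        omega
    apply hX0ne' j j' hjj
    simp only [hX]
    rw [h4 _ (by omega), h5]
  · -- slack
    intro j
    have h1 := (Complex.re_le_norm (D.x (X j 0))).trans (hX0 j)
    have h2 := hB0 j
    have h3 := hXl j
    have h4 := hBl j
    have h5 := hKgm _ _ (hsj j)
    have h6 := hsnn j
    simp only
    linarith

theorem final (hR : A.LemR) (hK : A.LemK) (hM : A.LemM) : False := by
  obtain ⟨K0, C0, h⟩ := A.geom hR hK hM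
  obtain ⟨l, hl⟩ := A.comb K0 C0
  exact hl (h l)

end Auto

end H57.QI
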