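import Pool.Agent.Lib_helper57.QI.E0

/-!
# Lemma M
-/

set_option autoImplicit false

namespace H57.QI

variable {H : Type} [Group H]

namespace Auto

variable {D : Geo H} (A : Auto D)

theorem val_take_mul_drop (V : List A.S) (t : ℕ) :
    A.val (V.take t) * A.val (V.drop t) = A.val V := by
  rw [← A.val_append, List.take_append_drop]

theorem val_take_add (V : List A.S) (s t : ℕ) :
    A.val (V.take (s + t)) = A.val (V.take s) * A.val ((V.drop s).take t) := by
  rw [← A.val_append, List.take_add]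

theorem st_take_add (p : A.Q) (V : List A.S) (s t : ℕ) :
    A.st p (V.take (s + t)) = A.st (A.st p (V.take s)) ((V.drop s).take t) := by
  rw [← A.st_append, List.take_add]

/-- same tree vertex -/
theorem L_of_same {a b : H} (h : D.L (a⁻¹ * b) = 0) (c : H) : D.L (a⁻¹ * c) = D.L (b⁻¹ * c) := by
  have : a⁻¹ * c = (a⁻¹ * b) * (b⁻¹ * c) := by group
  rw [this, D.L_P_mul h]

theorem L_of_same' {a b : H} (h : D.L (a⁻¹ * b) = 0) (c : H) : D.L (c⁻¹ * a) = D.L (c⁻¹ * b) := by
  rw [D.L_inv_mul_comm, L_of_same h, D.L_inv_mul_comm]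

theorem L_same {a b : H} (h : D.L (a⁻¹ * b) = 0) : D.L a = D.L b := by
  have := L_of_same' h 1
  simpa using this

theorem e_same {a b : H} (h : D.L (a⁻¹ * b) = 0) : D.e a = D.e b := by
  have := D.e_of_L0 h
  rw [D.e_mul, D.e_inv] at this
  omega

/-- first visit -/
theorem first_visit (V : List A.S) (h : H) (hh : D.L h + D.L (h⁻¹ * A.val V) = D.L (A.val V)) :
    ∃ T ≤ V.length, D.L ((A.val (V.take T))⁻¹ * h) = 0 ∧
      ∀ t < T, 0 < D.L ((A.val (V.take t))⁻¹ * h) := by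
  classical
  have hex : ∃ t, t ≤ V.length ∧ D.L ((A.val (V.take t))⁻¹ * h) = 0 := by
    obtain ⟨t, ht, h1⟩ := A.visit V h hh
    exact ⟨t, ht, h1⟩
  refine ⟨Nat.find hex, (Nat.find_spec hex).1, (Nat.find_spec hex).2, fun t ht => ?_⟩
  have h1 := Nat.find_min hex ht
  have h2 := (Nat.find_spec hex).1
  by_contra h3
  exact h1 ⟨by omega, by omega⟩

/-- splitting an up-word at its first visit of an intermediate vertex -/
theorem split_up (V : List A.S) (hV : D.e (A.val V) = D.L (A.val V)) (n : ℕ)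
    (hn : n ≤ D.L (A.val V)) : ∃ T ≤ V.length, D.e (A.val (V.take T)) = n ∧
      D.L (A.val (V.take T)) = n ∧ D.e (A.val (V.drop T)) = ((D.L (A.val V) - n : ℕ) : ℤ) ∧
      D.L (A.val (V.drop T)) = D.L (A.val V) - n ∧
      ∀ t < T, 0 < D.L ((A.val (V.take t))⁻¹ * A.val (V.take T)) := by
  obtain ⟨h, h1, h2⟩ := D.L_geod (A.val V) n hn
  have hbt : D.L h + D.L (h⁻¹ * A.val V) = D.L (A.val V) := by omega
  obtain ⟨T, hT, h3, h4⟩ := A.first_visit V h hbt
  have h5 : D.L (A.val (V.take T)) = n := by rw [L_same h3, h1]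
  have h6 : A.val (V.drop T) = (A.val (V.take T))⁻¹ * A.val V := by
    rw [← A.val_take_mul_drop V T]; group
  have h7 : D.L (A.val (V.drop T)) = D.L (A.val V) - n := by
    rw [h6, L_of_same h3, h2]
  have h8 : D.e (A.val (V.take T)) + D.e (A.val (V.drop T)) = D.L (A.val V) := by
    rw [← D.e_mul, A.val_take_mul_drop, hV]
  have h9 := abs_le.1 (D.e_le (A.val (V.take T)))
  have h10 := abs_le.1 (D.e_le (A.val (V.drop T)))
  rw [h5] at h9
  rw [h7] at h10
  refine ⟨T, hT, by push_cast [hn] at *; omega, h5, by push_cast [hn] at *; omega, h7, ?_⟩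
  intro t ht
  rw [L_of_same' h3]
  exact h4 t ht

theorem NiceM_succ {m : ℕ} {q : A.Q} (h : A.NiceM (m + 1) q) : A.NiceM m q := by
  obtain ⟨p, V, hp, hV, hq, he, hL, hF⟩ := h
  obtain ⟨T, hT, h1, h2, h3, h4, h5⟩ := A.split_up V (by rw [he, hL]) 1 (by omega)
  refine ⟨A.st p (V.take T), V.drop T, ?_, ?_, hq, ?_, ?_, ?_⟩
  · apply A.Nice_st hp
    apply A.coacc_take
    rw [hV]; exact hq
  · rw [A.take_append_drop_st, hV]
  · rw [h3, hL]; simp
  · rw [h4, hL]; simp
  · intro t ht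
    rw [List.length_drop] at ht
    have h6 := hF (T + t) (by omega)
    rw [A.val_take_add] at h6
    have h7 : (A.val (V.take T) * A.val ((V.drop T).take t))⁻¹ * A.val V =
        (A.val ((V.drop T).take t))⁻¹ * A.val (V.drop T) := by
      rw [← A.val_take_mul_drop V T]; group
    rwa [h7] at h6

theorem NiceM_mono {m n : ℕ} (h : m ≤ n) {q : A.Q} (hq : A.NiceM n q) : A.NiceM m q := by
  induction n, h using Nat.le_induction with
  | base => exact hq
  | succ n _ ih => exact ih (A.NiceM_succ hq)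

/-- ascending extension with bounded translation part -/
theorem up_ext' (g : H) (n : ℕ) : ∃ h, D.e h = n ∧ D.L h = n ∧ D.L (g * h) = D.L g + n ∧
    ‖D.x h‖ ≤ 2 := by
  obtain ⟨h, h1, h2, h3⟩ := D.up_ext g n
  obtain ⟨o, ho, h4⟩ := D.O_cover (D.al ^ (-(n : ℤ)) * D.x h)
  obtain ⟨p, hp, hpx⟩ := D.P_surj (-o) (neg_mem ho)
  refine ⟨h * p, ?_, ?_, ?_, ?_⟩
  · rw [D.e_mul, D.e_of_L0 hp, h1, add_zero]
  · rw [D.L_mul_P hp, h2]
  · rw [← mul_assoc, D.L_mul_P hp, h3]
  · rw [D.x_mul, h1, hpx]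
    have h5 : D.x h + D.al ^ (n : ℤ) * -o = D.al ^ (n : ℤ) * (D.al ^ (-(n : ℤ)) * D.x h - o) := by
      have h6 : D.al ^ (n : ℤ) * D.al ^ (-(n : ℤ)) = 1 := by
        rw [← zpow_add₀ D.al_ne_zero]; simp
      linear_combination (-1 : ℂ) * h6 * D.x h
    rw [h5, norm_mul, D.norm_al_zpow, one_mul]
    exact h4

theorem NiceM_nonempty (hN : A.LemN) (hK : A.LemK) (m : ℕ) : ∃ q, A.NiceM m q := by
  obtain ⟨s, hs⟩ := hN
  obtain ⟨C2, hK⟩ := hK
  have hsn := A.NiceRoot_Nice hs
  obtain ⟨ζ, hζ⟩ := hsn.1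
  obtain ⟨K, hKdef⟩ : ∃ K : ℝ, K = A.k * (D.N (A.val ζ) + (m + 2) + 1) := ⟨_, rfl⟩
  obtain ⟨K', hK'⟩ := exists_nat_gt K
  obtain ⟨p0, t1, hp0, ht1, hB, -, hnice⟩ := hK K (K' + m + 1) s hsn
  obtain ⟨h, he, hL, hLp, hx⟩ := up_ext' (D := D) (A.val p0) m
  obtain ⟨W, hW, hWv⟩ := A.exists_word (A.val p0 * h)
  have hacc : p0 ++ ζ ∈ A.M.accepts := by
    rw [A.mem_accepts, A.st_append, hp0]; exact hζ
  have hft : ∀ t, D.N ((A.val ((p0 ++ ζ).take t))⁻¹ * A.val (W.take t)) ≤ K := by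
    intro t
    refine (A.ft' hacc hW t).trans ?_
    rw [hKdef]
    apply mul_le_mul_of_nonneg_left _ (by linarith [A.one_le_k])
    have h1 : (A.val (p0 ++ ζ))⁻¹ * A.val W = (A.val ζ)⁻¹ * h := by
      rw [hWv, A.val_append]; group
    rw [h1]
    have h2 := D.N_mul (A.val ζ)⁻¹ h
    rw [D.N_inv] at h2
    have h3 : D.N h ≤ m + 2 := by
      unfold Geo.N
      rw [hL]; linarith
    linarith
  have hclose : ∀ t ≤ t1, D.N ((A.val (p0.take t))⁻¹ * A.val (W.take t)) ≤ K := by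
    intro t ht
    have := hft t
    rwa [List.take_append_of_le_length (by omega)] at this
  -- no vertex of `[p0, p0 h]` is visited before `t1`
  have hfar : ∀ t ≤ t1, ∀ b : H, D.L ((A.val p0)⁻¹ * b) ≤ m → 0 < D.L ((A.val (W.take t))⁻¹ * b) := by
    intro t ht b hb
    have h1 := hB t ht [] (by rw [A.st_nil]; exact hsn.1)
    rw [List.append_nil] at h1
    have h2 : (D.L ((A.val (p0.take t))⁻¹ * A.val (W.take t)) : ℝ) ≤ K :=
      (D.L_le_N _).trans (hclose t ht)
    have h3 : D.L ((A.val (p0.take t))⁻¹ * A.val (W.take t)) < K' := by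
      exact_mod_cast h2.trans_lt hK'
    have h4 := D.L_tri (A.val (p0.take t)) b (A.val p0)
    have h5 := D.L_tri (A.val (p0.take t)) (A.val (W.take t)) b
    have h6 := D.L_inv_mul_comm b (A.val p0)
    omega
  have hlen : t1 ≤ W.length := by
    by_contra hcon
    push Not at hcon
    have h1 := hfar t1 le_rfl (A.val p0 * h) (by
      rw [← mul_assoc, inv_mul_cancel, one_mul, hL])
    rw [List.take_of_length_le hcon.le, hWv] at h1
    simp [D.L_one] at h1
  have hn1 := hnice W hW hlen hclose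
  -- visits
  have hseg : D.L (A.val p0) + D.L ((A.val p0)⁻¹ * A.val W) = D.L (A.val W) := by
    rw [hWv, ← mul_assoc, inv_mul_cancel, one_mul, hLp, hL]
  obtain ⟨Tm, hTm, hTm0, hTm1⟩ := A.first_visit W (A.val p0 * h) (by
    rw [hWv]; simp [D.L_one])
  have hseg2 : D.L (A.val p0) + D.L ((A.val p0)⁻¹ * A.val (W.take Tm)) = D.L (A.val (W.take Tm)) := by
    rw [L_of_same' hTm0, L_same hTm0, ← hWv]
    exact hseg
  obtain ⟨T0, hT0, hT00, hT01⟩ := A.first_visit (W.take Tm) (A.val p0) hseg2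
  rw [List.length_take] at hT0
  have hT0m : T0 ≤ Tm := by omega
  rw [List.take_take, min_eq_left hT0m] at hT00
  have ht1T0 : t1 < T0 := by
    by_contra hcon
    push Not at hcon
    have := hfar T0 hcon (A.val p0) (by simp [D.L_one])
    omega
  have hdecomp : W.take Tm = W.take T0 ++ (W.drop T0).take (Tm - T0) := by
    rw [← List.take_add]
    congr 1; omega
  have hvalV : A.val ((W.drop T0).take (Tm - T0)) =
      (A.val (W.take T0))⁻¹ * A.val (W.take Tm) := by
    rw [hdecomp, A.val_append]; group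
  refine ⟨A.st A.q0 (W.take Tm), A.st A.q0 (W.take T0), (W.drop T0).take (Tm - T0), ?_, ?_, ?_, ?_, ?_, ?_⟩
  · -- nice
    have h1 : A.st A.q0 (W.take T0) =
        A.st (A.st A.q0 (W.take t1)) ((W.drop t1).take (T0 - t1)) := by
      rw [← A.st_take_add]
      congr 2; omega
    rw [h1]
    apply A.Nice_st hn1
    rw [← h1]
    exact (A.live_of_mem hW _).2
  · rw [hdecomp, A.st_append]
  · exact (A.live_of_mem hW _).2
  · rw [hvalV, D.e_mul, D.e_inv, e_same hT00, e_same hTm0, D.e_mul, he]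
    ring
  · rw [hvalV, L_of_same hT00, L_of_same' hTm0, ← mul_assoc, inv_mul_cancel, one_mul, hL]
  · intro t ht
    have h1 : t < Tm - T0 := by
      rw [List.length_take] at ht
      omega
    rw [List.take_take, min_eq_left h1.le, hvalV]
    have h2 : (A.val ((W.drop T0).take t))⁻¹ * ((A.val (W.take T0))⁻¹ * A.val (W.take Tm)) =
        (A.val (W.take (T0 + t)))⁻¹ * A.val (W.take Tm) := by
      rw [A.val_take_add]; group
    rw [h2, L_of_same' hTm0]
    exact hTm1 _ (by omega)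

theorem lemM (hN : A.LemN) (hK : A.LemK) : A.LemM := by
  classical
  -- the decreasing chain stabilises
  obtain ⟨m1, hm1⟩ : ∃ m1, ∀ m, m1 ≤ m → {q | A.NiceM m1 q} = {q | A.NiceM m q} := by
    have h := WellFoundedGT.monotone_chain_condition (α := (Set A.Q)ᵒᵈ)
      ⟨fun m => OrderDual.toDual {q | A.NiceM m q}, fun m n hmn => by
        show {q | A.NiceM n q} ⊆ {q | A.NiceM m q}
        intro q hq
        exact A.NiceM_mono hmn hq⟩
    obtain ⟨n, hn⟩ := h
    exact ⟨n, fun m hm => congrArg OrderDual.ofDual (hn m hm)⟩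
  refine ⟨{q | A.NiceM m1 q}, m1, fun m hm q => ?_, ?_⟩
  · rw [hm1 m hm]; rfl
  · have h1 : ∀ l : ℕ, ∃ q, A.NiceM m1 q ∧ ∃ V, A.coacc (A.st q V) ∧ D.e (A.val V) = l ∧
        D.L (A.val V) = l := by
      intro l
      obtain ⟨q', p, V, hp, hV, hq, he, hL, hF⟩ := A.NiceM_nonempty hN hK (m1 + l)
      obtain ⟨T, hT, h1, h2, h3, h4, h5⟩ := A.split_up V (by rw [he, hL]) m1 (by omega)
      refine ⟨A.st p (V.take T), ⟨p, V.take T, hp, rfl, ?_, h1, h2, ?_⟩, V.drop T, ?_, ?_, ?_⟩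
      · apply A.coacc_take
        rw [hV]; exact hq
      · intro t ht
        rw [List.length_take] at ht
        have : t < T := by omega
        rw [List.take_take, min_eq_left this.le]
        exact h5 t this
      · rw [A.take_append_drop_st, hV]; exact hq
      · rw [h3, hL]; simp
      · rw [h4, hL]; simp
    by_contra hcon
    push Not at hcon
    have h2 : ∀ q : A.Q, ∃ l : ℕ, A.NiceM m1 q → ∀ V, A.coacc (A.st q V) → D.e (A.val V) = l →
        D.L (A.val V) ≠ l := by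
      intro q
      by_cases hq : A.NiceM m1 q
      · obtain ⟨l, hl⟩ := hcon q hq
        exact ⟨l, fun _ => hl⟩
      · exact ⟨0, fun h => absurd h hq⟩
    choose f hf using h2
    obtain ⟨q, hq, V, hV, he, hL⟩ := h1 (∑ q, f q)
    have h3 : f q ≤ ∑ q, f q := Finset.single_le_sum (fun _ _ => Nat.zero_le _) (Finset.mem_univ q)
    obtain ⟨T, hT, h4, h5, -⟩ := A.split_up V (by rw [he, hL]) (f q) (by rw [hL]; exact h3)
    exact hf q hq (V.take T) (A.coacc_take hV T) h4 h5

end Auto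

end H57.QI
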