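import Pool.Agent.Lib_helper57.QI.Defs

/-!
# The group `LM` : Zappa-Szep product of the free group on `t = of false`, `s = of true` and `ℤ × ℤ`

`(a, b) : ℤ × ℤ` stands for `a + b ω`, `ω = (1 + √-7) / 2`; multiplication by `ω` is
`(a, b) ↦ (-2 b, a + b)`; `p` is divisible by `ω` iff `2 ∣ p.1`.
-/

set_option autoImplicit false

namespace H57.QI

abbrev FB := FreeGroup Bool

/-- the letter `act p c` -/
def lam (c : Bool) (p : ℤ × ℤ) : Bool := if p.1 % 2 = 0 then c else !c

/-- `res p c` -/
def resF (c : Bool) (p : ℤ × ℤ) : ℤ × ℤ :=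
  if p.1 % 2 = 0 then (p.2 - p.1 / 2, -(p.1 / 2 + p.2))
  else
    match c with
    | false => (p.2 - (p.1 - 1) / 2 - 1, -((p.1 - 1) / 2 + p.2))
    | true => (p.2 - (p.1 + 1) / 2 + 1, -((p.1 + 1) / 2 + p.2))

/-- multiplication by `ω / ω'` of an element `q` divisible by `ω'` (i.e. `q.1 + q.2` even) -/
def alO (q : ℤ × ℤ) : ℤ × ℤ := (-2 * ((q.1 + q.2) / 2), (q.1 + q.2) / 2 - q.2)

/-- inverse of `resF c` -/
def resG (c : Bool) (q : ℤ × ℤ) : ℤ × ℤ :=
  if (q.1 + q.2) % 2 = 0 then alO q
  else
    match c with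
    | false => alO (q + (1, 0)) + (1, 0)
    | true => alO (q - (1, 0)) - (1, 0)

theorem resG_resF (c : Bool) (p : ℤ × ℤ) : resG c (resF c p) = p := by
  obtain ⟨a, b⟩ := p
  unfold resG resF alO
  cases c <;> by_cases h : a % 2 = 0
  · simp only [h, if_true]
    rw [if_pos (by omega)]
    ext <;> simp <;> omega
  · simp only [h, if_false]
    rw [if_neg (by omega)]
    ext <;> simp <;> omega
  · simp only [h, if_true]
    rw [if_pos (by omega)]
    ext <;> simp <;> omega
  · simp only [h, if_false]
    rw [if_neg (by omega)]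
    ext <;> simp <;> omega

theorem resF_resG (c : Bool) (q : ℤ × ℤ) : resF c (resG c q) = q := by
  obtain ⟨a, b⟩ := q
  unfold resG resF alO
  cases c <;> by_cases h : (a + b) % 2 = 0
  · simp only [h, if_true]
    rw [if_pos (by omega)]
    ext <;> simp <;> omega
  · simp only [h, if_false]
    rw [if_neg (by simp; omega)]
    ext <;> simp <;> omega
  · simp only [h, if_true]
    rw [if_pos (by omega)]
    ext <;> simp <;> omega
  · simp only [h, if_false]
    rw [if_neg (by simp; omega)]
    ext <;> simp <;> omega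

/-- right multiplication by the generator `c` as a permutation of `FB × (ℤ × ℤ)` -/
def rho0 (c : Bool) : Equiv.Perm (FB × (ℤ × ℤ)) where
  toFun fp := (fp.1 * FreeGroup.of (lam c fp.2), resF c fp.2)
  invFun gq := (gq.1 * (FreeGroup.of (lam c (resG c gq.2)))⁻¹, resG c gq.2)
  left_inv fp := by
    simp [resG_resF]
  right_inv gq := by
    simp [resF_resG]

/-- right multiplication by the free group -/
def rho : FB →* (Equiv.Perm (FB × (ℤ × ℤ)))ᵐᵒᵖ :=
  FreeGroup.lift fun c => MulOpposite.op (rho0 c)

/-- `p * g = act p g * res p g` for `p : ℤ × ℤ` and `g : FB` -/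
def act (p : ℤ × ℤ) (g : FB) : FB := ((rho g).unop (1, p)).1

def res (p : ℤ × ℤ) (g : FB) : ℤ × ℤ := ((rho g).unop (1, p)).2

theorem act_one (p : ℤ × ℤ) : act p 1 = 1 := by simp [act]

theorem res_one (p : ℤ × ℤ) : res p 1 = p := by simp [res]

theorem act_of (p : ℤ × ℤ) (c : Bool) : act p (FreeGroup.of c) = FreeGroup.of (lam c p) := by
  simp [act, rho, rho0]

theorem res_of (p : ℤ × ℤ) (c : Bool) : res p (FreeGroup.of c) = resF c p := by
  simp [res, rho, rho0]

theorem rho_apply (g : FB) : ∀ (f : FB) (p : ℤ × ℤ), (rho g).unop (f, p) = (f * act p g, res p g) := by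
  induction g using FreeGroup.induction_on with
  | C1 => intro f p; simp [act_one, res_one]
  | of c => intro f p; simp [act_of, res_of, rho, rho0]
  | inv_of c _ =>
    intro f p
    simp [act, res, rho, rho0]
  | mul x y hx hy =>
    intro f p
    have h1 : ∀ f p, (rho (x * y)).unop (f, p) = (rho y).unop ((rho x).unop (f, p)) := by
      intro f p; simp
    unfold act res
    rw [h1, h1, hx f p, hx 1 p, hy, hy]
    simp [mul_assoc]

theorem act_mul (p : ℤ × ℤ) (g h : FB) : act p (g * h) = act p g * act (res p g) h := by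
  have h1 : (rho (g * h)).unop (1, p) = (rho h).unop ((rho g).unop (1, p)) := by simp
  rw [rho_apply, rho_apply, rho_apply] at h1
  simpa using congrArg Prod.fst h1

theorem res_mul (p : ℤ × ℤ) (g h : FB) : res p (g * h) = res (res p g) h := by
  have h1 : (rho (g * h)).unop (1, p) = (rho h).unop ((rho g).unop (1, p)) := by simp
  rw [rho_apply, rho_apply, rho_apply] at h1
  simpa using congrArg Prod.snd h1

theorem lam_add (c : Bool) (p q : ℤ × ℤ) : lam c (p + q) = lam (lam c q) p := by
  obtain ⟨a, b⟩ := p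
  obtain ⟨a', b'⟩ := q
  unfold lam
  by_cases h1 : a % 2 = 0 <;> by_cases h2 : a' % 2 = 0
  · have : (a + a') % 2 = 0 := by omega
    simp [h1, h2, this]
  · have : ¬ (a + a') % 2 = 0 := by omega
    simp [h1, h2, this]
  · have : ¬ (a + a') % 2 = 0 := by omega
    simp [h1, h2, this]
  · have : (a + a') % 2 = 0 := by omega
    simp [h1, h2, this]

theorem resF_add (c : Bool) (p q : ℤ × ℤ) : resF c (p + q) = resF (lam c q) p + resF c q := by
  obtain ⟨a, b⟩ := p
  obtain ⟨a', b'⟩ := q
  unfold lam resF
  by_cases h1 : a % 2 = 0 <;> by_cases h2 : a' % 2 = 0 <;> cases c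
  all_goals
    by_cases h3 : (a + a') % 2 = 0
    all_goals first
      | (exfalso; omega)
      | (simp [h1, h2, h3]; constructor <;> omega)

theorem act_inv_of (p : ℤ × ℤ) (c : Bool) :
    act p (FreeGroup.of c)⁻¹ = (FreeGroup.of (lam c (resG c p)))⁻¹ := by
  simp [act, rho, rho0]

theorem res_inv_of (p : ℤ × ℤ) (c : Bool) : res p (FreeGroup.of c)⁻¹ = resG c p := by
  simp [res, rho, rho0]

theorem act_res_add (g : FB) : ∀ p q : ℤ × ℤ,
    act (p + q) g = act p (act q g) ∧ res (p + q) g = res p (act q g) + res q g := by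
  induction g using FreeGroup.induction_on with
  | C1 => intro p q; simp [act_one, res_one]
  | of c =>
    intro p q
    simp only [act_of, res_of]
    exact ⟨by rw [lam_add], by rw [resF_add]⟩
  | inv_of c _ =>
    intro p q
    -- p = c' P, where resF
    have key : resG c (p + q) = resG (lam c (resG c q)) p + resG c q := by
      have h := resF_add c (resG (lam c (resG c q)) p) (resG c q)
      rw [resF_resG, resF_resG] at h
      rw [← h, resG_resF]
    simp only [act_inv_of, res_inv_of]
    refine ⟨?_, key⟩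
    rw [key, lam_add]
  | mul x y hx hy =>
    intro p q
    constructor
    · rw [act_mul, (hx p q).1, (hx p q).2, (hy _ _).1, act_mul q, act_mul p]
    · rw [res_mul, (hx p q).2, (hy _ _).2, act_mul q, res_mul p, res_mul q]

theorem act_add (p q : ℤ × ℤ) (g : FB) : act (p + q) g = act p (act q g) := (act_res_add g p q).1

theorem res_add (p q : ℤ × ℤ) (g : FB) : res (p + q) g = res p (act q g) + res q g :=
  (act_res_add g p q).2

theorem act_zero (g : FB) : act 0 g = g := by
  have h1 : ∀ g : FB, act 0 g = g ∧ res 0 g = 0 := by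
    intro g
    induction g using FreeGroup.induction_on with
    | C1 => simp [act_one, res_one]
    | of c => simp [act_of, res_of, lam, resF]
    | inv_of c _ =>
      have : resG c 0 = 0 := by
        have h := resG_resF c 0
        have h2 : resF c 0 = 0 := by simp [resF]
        rwa [h2] at h
      simp [act_inv_of, res_inv_of, this, lam]
    | mul x y hx hy => rw [act_mul, res_mul, hx.1, hx.2, hy.1, hy.2]; simp
  exact (h1 g).1

theorem res_zero (g : FB) : res 0 g = 0 := by
  have h := res_add 0 0 g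
  rw [act_zero] at h
  simpa using h

/-- the group -/
@[ext] structure LM where
  f : FB
  p : ℤ × ℤ

namespace LM

instance : Mul LM := ⟨fun g h => ⟨g.f * act g.p h.f, res g.p h.f + h.p⟩⟩
instance : One LM := ⟨⟨1, 0⟩⟩
instance : Inv LM := ⟨fun g => ⟨act (-g.p) g.f⁻¹, res (-g.p) g.f⁻¹⟩⟩

theorem mul_f (g h : LM) : (g * h).f = g.f * act g.p h.f := rfl
theorem mul_p (g h : LM) : (g * h).p = res g.p h.f + h.p := rfl
@[simp] theorem one_f : (1 : LM).f = 1 := rfl
@[simp] theorem one_p : (1 : LM).p = 0 := rfl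
theorem inv_f (g : LM) : (g⁻¹).f = act (-g.p) g.f⁻¹ := rfl
theorem inv_p (g : LM) : (g⁻¹).p = res (-g.p) g.f⁻¹ := rfl

instance : Group LM := Group.ofLeftAxioms
  (by
    intro a b c
    ext1
    · rw [mul_f, mul_f, mul_f, mul_f, mul_p, act_add, act_mul, mul_assoc]
    · rw [mul_p, mul_p, mul_p, mul_f, mul_p, res_add, res_mul, add_assoc])
  (by
    intro a
    ext1
    · rw [mul_f]; simp [act_zero]
    · rw [mul_p]; simp [res_zero])
  (by
    intro a
    ext1
    · rw [mul_f, inv_f, inv_p, ← act_mul]; simp [act_one]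
    · rw [mul_p, inv_p, ← res_mul]; simp [res_one])

end LM

end H57.QI
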