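import Pool.Agent.Lib_helper57.QI.QIGen
import Pool.Agent.Lib_helper57.QI.LM

/-!
# Module B: the quasi-isometry between `F₂ × ℤ²` and a group acting on tree x plane
-/

set_option autoImplicit false

namespace H57.QI

/-! ### The product group -/

abbrev GG := FreeGroup Bool × Multiplicative (ℤ × ℤ)

def lF (c : Bool × Bool) : GG := (FreeGroup.mk [c], 1)
def lA (s : ℤ) : GG := (1, Multiplicative.ofAdd (s, 0))
def lB (s : ℤ) : GG := (1, Multiplicative.ofAdd (0, s))

noncomputable def SG : Finset GG := by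
  classical
  exact (Finset.univ.image lF) ∪ {lA 1, lA (-1), lB 1, lB (-1)}

/-- coordinates of the abelian factor -/
def zc (g : GG) : ℤ × ℤ := Multiplicative.toAdd g.2

noncomputable def NG (g : GG) : ℝ := (FreeGroup.norm g.1 : ℝ) + |((zc g).1 : ℝ)| + |((zc g).2 : ℝ)|

theorem zc_mul (g h : GG) : zc (g * h) = zc g + zc h := rfl
theorem zc_inv (g : GG) : zc g⁻¹ = - zc g := rfl

theorem prod_lF (w : List (Bool × Bool)) : (w.map lF).prod = (FreeGroup.mk w, 1) := by
  induction w with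
  | nil => rfl
  | cons c w ih =>
    rw [List.map_cons, List.prod_cons, ih]
    ext1
    · change FreeGroup.mk [c] * FreeGroup.mk w = _
      rw [FreeGroup.mul_mk]; rfl
    · change (1 : Multiplicative (ℤ × ℤ)) * 1 = 1
      rw [one_mul]

theorem prod_lA (n : ℕ) (s : ℤ) :
    (List.replicate n (lA s)).prod = (1, Multiplicative.ofAdd ((n : ℤ) * s, 0)) := by
  rw [List.prod_replicate]
  induction n with
  | zero => simp; rfl
  | succ n ih =>
    rw [pow_succ, ih]
    ext1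
    · change (1 : FreeGroup Bool) * 1 = 1
      rw [one_mul]
    · change Multiplicative.ofAdd ((n : ℤ) * s, (0:ℤ)) * Multiplicative.ofAdd (s, (0:ℤ)) = _
      rw [← ofAdd_add]
      congr 1
      ext <;> simp; ring

theorem prod_lB (n : ℕ) (s : ℤ) :
    (List.replicate n (lB s)).prod = (1, Multiplicative.ofAdd (0, (n : ℤ) * s)) := by
  rw [List.prod_replicate]
  induction n with
  | zero => simp; rfl
  | succ n ih =>
    rw [pow_succ, ih]
    ext1
    · change (1 : FreeGroup Bool) * 1 = 1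
      rw [one_mul]
    · change Multiplicative.ofAdd ((0:ℤ), (n : ℤ) * s) * Multiplicative.ofAdd ((0:ℤ), s) = _
      rw [← ofAdd_add]
      congr 1
      ext <;> simp; ring

theorem mem_SG_lF (c : Bool × Bool) : lF c ∈ SG := by
  classical
  unfold SG
  simp

theorem exists_sign (a : ℤ) : ∃ s : ℤ, (s = 1 ∨ s = -1) ∧ (a.natAbs : ℤ) * s = a := by
  rcases le_total 0 a with h | h
  · exact ⟨1, Or.inl rfl, by omega⟩
  · exact ⟨-1, Or.inr rfl, by omega⟩

theorem normGen_GG : NormGen SG NG 4 := by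
  refine ⟨by norm_num, ?_, ?_, ?_, ?_, ?_, ?_⟩
  · simp [NG, zc]
  · intro g
    unfold NG
    positivity
  · intro g
    unfold NG
    rw [zc_inv]
    simp
  · intro g h
    unfold NG
    rw [zc_mul]
    have h1 : ((FreeGroup.norm (g * h).1 : ℕ) : ℝ) ≤ FreeGroup.norm g.1 + FreeGroup.norm h.1 := by
      exact_mod_cast FreeGroup.norm_mul_le g.1 h.1
    have h2 : |(((zc g + zc h).1 : ℤ) : ℝ)| ≤ |((zc g).1 : ℝ)| + |((zc h).1 : ℝ)| := by
      rw [Prod.fst_add]; push_cast; exact abs_add_le _ _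
    have h3 : |(((zc g + zc h).2 : ℤ) : ℝ)| ≤ |((zc g).2 : ℝ)| + |((zc h).2 : ℝ)| := by
      rw [Prod.snd_add]; push_cast; exact abs_add_le _ _
    linarith
  · intro g hg
    classical
    unfold SG at hg
    simp only [Finset.mem_union, Finset.mem_image, Finset.mem_univ, true_and, Finset.mem_insert,
      Finset.mem_singleton] at hg
    rcases hg with ⟨c, rfl⟩ | rfl | rfl | rfl | rfl
    · have : FreeGroup.norm (lF c).1 ≤ 1 := by
        change FreeGroup.norm (FreeGroup.mk [c]) ≤ 1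
        exact FreeGroup.norm_mk_le
      have h1 : ((FreeGroup.norm (lF c).1 : ℕ) : ℝ) ≤ 1 := by exact_mod_cast this
      have h2 : zc (lF c) = 0 := rfl
      unfold NG
      rw [h2]
      simp
      linarith
    all_goals
      simp [NG, zc, lA, lB]
  · rintro ⟨f, z⟩
    obtain ⟨s, hs, hs1⟩ := exists_sign (Multiplicative.toAdd z).1
    obtain ⟨t, ht, ht1⟩ := exists_sign (Multiplicative.toAdd z).2
    refine ⟨f.toWord.map lF ++ (List.replicate (Multiplicative.toAdd z).1.natAbs (lA s) ++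
      List.replicate (Multiplicative.toAdd z).2.natAbs (lB t)), ?_, ?_, ?_⟩
    · intro g hg
      rw [List.mem_append, List.mem_append] at hg
      rcases hg with hg | hg | hg
      · rw [List.mem_map] at hg
        obtain ⟨c, -, rfl⟩ := hg
        exact mem_SG_lF c
      · rw [List.mem_replicate] at hg
        rw [hg.2]
        classical
        unfold SG
        rcases hs with rfl | rfl <;> simp
      · rw [List.mem_replicate] at hg
        rw [hg.2]
        classical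
        unfold SG
        rcases ht with rfl | rfl <;> simp
    · rw [List.prod_append, List.prod_append, prod_lF, prod_lA, prod_lB, hs1, ht1,
        FreeGroup.mk_toWord]
      ext1
      · change f * (1 * 1) = f
        rw [one_mul, mul_one]
      · change (1 : Multiplicative (ℤ × ℤ)) * (Multiplicative.ofAdd ((Multiplicative.toAdd z).1, (0:ℤ)) *
          Multiplicative.ofAdd ((0:ℤ), (Multiplicative.toAdd z).2)) = z
        rw [one_mul, ← ofAdd_add]
        simp
    · rw [List.length_append, List.length_append, List.length_map, List.length_replicate,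
        List.length_replicate]
      unfold NG zc
      have e1 : (((Multiplicative.toAdd z).1.natAbs : ℕ) : ℝ) = |((Multiplicative.toAdd z).1 : ℝ)| := by
        rw [Nat.cast_natAbs]; simp
      have e2 : (((Multiplicative.toAdd z).2.natAbs : ℕ) : ℝ) = |((Multiplicative.toAdd z).2 : ℝ)| := by
        rw [Nat.cast_natAbs]; simp
      push_cast
      rw [e1, e2]
      have e3 : ((f.toWord.length : ℕ) : ℝ) = (FreeGroup.norm f : ℝ) := rfl
      rw [e3]
      have p1 : (0:ℝ) ≤ (FreeGroup.norm f : ℝ) := by positivity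
      have p2 := abs_nonneg ((Multiplicative.toAdd z).1 : ℝ)
      have p3 := abs_nonneg ((Multiplicative.toAdd z).2 : ℝ)
      change _ ≤ 4 * ((FreeGroup.norm f : ℝ) + |((Multiplicative.toAdd z).1 : ℝ)| +
        |((Multiplicative.toAdd z).2 : ℝ)| + 1)
      linarith

/-! ### The group on tree x plane -/

variable {H : Type} [Group H]

theorem bq_e_one (D : Geo H) : D.e 1 = 0 := by
  have := D.e_mul 1 1
  rw [mul_one] at this
  omega

theorem bq_e_inv' (D : Geo H) (g : H) : D.e g⁻¹ = - D.e g := by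
  have := D.e_mul g g⁻¹
  rw [mul_inv_cancel, (bq_e_one D)] at this
  omega

theorem bq_al_ne0 (D : Geo H) : D.al ≠ 0 := by
  intro h
  have := D.al_norm
  rw [h, norm_zero] at this
  exact zero_ne_one this

theorem bq_x_one (D : Geo H) : D.x 1 = 0 := by
  have := D.x_mul 1 1
  rw [mul_one, (bq_e_one D), zpow_zero, one_mul] at this
  simpa using this

theorem bq_x_inv_mul (D : Geo H) (g h : H) :
    D.x (g⁻¹ * h) = D.al ^ (-(D.e g)) * (D.x h - D.x g) := by
  have h1 := D.x_mul g (g⁻¹ * h)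
  rw [mul_inv_cancel_left] at h1
  rw [h1, add_sub_cancel_left, ← mul_assoc, ← zpow_add₀ (bq_al_ne0 D), neg_add_cancel, zpow_zero,
    one_mul]

theorem bq_norm_al_zpow (D : Geo H) (n : ℤ) : ‖D.al ^ n‖ = 1 := by
  rw [norm_zpow, D.al_norm, one_zpow]

theorem bq_norm_x_inv_mul (D : Geo H) (g h : H) : ‖D.x (g⁻¹ * h)‖ = ‖D.x h - D.x g‖ := by
  rw [(bq_x_inv_mul D), norm_mul, (bq_norm_al_zpow D), one_mul]

theorem bq_N_nonneg (D : Geo H) (g : H) : 0 ≤ D.N g := by
  unfold Geo.N; positivity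

theorem bq_N_one (D : Geo H) : D.N 1 = 0 := by
  unfold Geo.N; rw [(bq_x_one D), D.L_one]; simp

theorem bq_N_inv (D : Geo H) (g : H) : D.N g⁻¹ = D.N g := by
  unfold Geo.N
  have := (bq_norm_x_inv_mul D) g 1
  rw [mul_one, (bq_x_one D), zero_sub, norm_neg] at this
  rw [this, D.L_inv]

theorem bq_N_mul (D : Geo H) (g h : H) : D.N (g * h) ≤ D.N g + D.N h := by
  unfold Geo.N
  have h1 : ‖D.x (g * h)‖ ≤ ‖D.x g‖ + ‖D.x h‖ := by
    rw [D.x_mul]
    refine (norm_add_le _ _).trans ?_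
    rw [norm_mul, (bq_norm_al_zpow D), one_mul]
  have h2 : ((D.L (g * h) : ℕ) : ℝ) ≤ D.L g + D.L h := by exact_mod_cast D.L_mul g h
  linarith

/-- balls for `N` are finite -/
theorem bq_finite_ball (D : Geo H) (R : ℝ) : {g : H | D.N g ≤ R}.Finite := by
  obtain ⟨S0, hS0⟩ := D.ball_fin ⌈R⌉₊
  -- bound of the plane parts of `S0`
  obtain ⟨B, hB⟩ : ∃ B : ℝ, ∀ s ∈ S0, ‖D.x s‖ ≤ B := by
    refine ⟨∑ s ∈ S0, ‖D.x s‖, fun s hs => ?_⟩
    exact Finset.single_le_sum (f := fun s => ‖D.x s‖) (fun _ _ => norm_nonneg _) hs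
  have hP : {p : H | D.L p = 0 ∧ ‖D.x p‖ ≤ R + B}.Finite := by
    apply Set.Finite.of_finite_image (f := D.x)
    · refine (D.O_fin (R + B)).subset ?_
      rintro _ ⟨p, ⟨hp, hp2⟩, rfl⟩
      exact ⟨D.P_mem p hp, hp2⟩
    · rintro p ⟨hp, -⟩ q ⟨hq, -⟩ hpq
      have h1 : D.L (p⁻¹ * q) = 0 := by
        have := D.L_mul p⁻¹ q
        rw [D.L_inv, hp, hq] at this
        omega
      have h2 : D.x (p⁻¹ * q) = 0 := by
        rw [(bq_x_inv_mul D), show D.x p = D.x q from hpq, sub_self, mul_zero]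
      have := D.P_inj _ h1 h2
      exact (inv_mul_eq_one.1 this)
  have hfin : (⋃ s ∈ (S0 : Set H), (fun p => s * p) '' {p : H | D.L p = 0 ∧ ‖D.x p‖ ≤ R + B}).Finite :=
    S0.finite_toSet.biUnion fun s _ => hP.image _
  refine hfin.subset ?_
  intro g hg
  have hg' : ‖D.x g‖ + D.L g ≤ R := hg
  have hL : D.L g ≤ ⌈R⌉₊ := by
    have h1 : (D.L g : ℝ) ≤ R := by
      have := norm_nonneg (D.x g)
      linarith
    have h2 : (D.L g : ℝ) ≤ (⌈R⌉₊ : ℝ) := h1.trans (Nat.le_ceil R)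
    exact_mod_cast h2
  obtain ⟨s, hs, hs2⟩ := hS0 g hL
  rw [Set.mem_iUnion₂]
  refine ⟨s, hs, s⁻¹ * g, ⟨hs2, ?_⟩, by simp⟩
  rw [(bq_norm_x_inv_mul D)]
  refine (norm_sub_le _ _).trans ?_
  have h3 := hB s hs
  have h4 : (0:ℝ) ≤ D.L g := by positivity
  linarith

theorem bq_exists_normGen (D : Geo H) : ∃ (T : Finset H) (C : ℝ), NormGen T D.N C := by
  obtain ⟨C, hC⟩ := D.gen
  refine ⟨((bq_finite_ball D) C).toFinset, C, by positivity, (bq_N_one D), (bq_N_nonneg D), (bq_N_inv D), (bq_N_mul D), ?_, ?_⟩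
  · intro s hs
    rw [Set.Finite.mem_toFinset] at hs
    exact hs
  · intro g
    obtain ⟨l, hl, hlen, hlC⟩ := hC g
    refine ⟨l, fun s hs => ?_, hl, ?_⟩
    · rw [Set.Finite.mem_toFinset]
      exact hlC s hs
    · exact hlen

/-- the Gaussian embedding of `ℤ²` -/
noncomputable def gi (z : ℤ × ℤ) : ℂ := ⟨(z.1 : ℝ), (z.2 : ℝ)⟩

theorem gi_sub (z w : ℤ × ℤ) : gi z - gi w = gi (z - w) := by
  apply Complex.ext <;> simp [gi]

theorem norm_gi_le (z : ℤ × ℤ) : ‖gi z‖ ≤ |(z.1 : ℝ)| + |(z.2 : ℝ)| :=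
  Complex.norm_le_abs_re_add_abs_im _

theorem le_norm_gi (z : ℤ × ℤ) : |(z.1 : ℝ)| + |(z.2 : ℝ)| ≤ 2 * ‖gi z‖ := by
  have h1 : |(z.1 : ℝ)| ≤ ‖gi z‖ := Complex.abs_re_le_norm (gi z)
  have h2 : |(z.2 : ℝ)| ≤ ‖gi z‖ := Complex.abs_im_le_norm (gi z)
  linarith

theorem exists_gi (w : ℂ) : ∃ z : ℤ × ℤ, ‖gi z - w‖ ≤ 1 := by
  refine ⟨(round w.re, round w.im), ?_⟩
  refine (Complex.norm_le_abs_re_add_abs_im _).trans ?_
  have h1 : |(gi (round w.re, round w.im) - w).re| ≤ 1 / 2 := by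
    have := abs_sub_round w.re
    rw [abs_sub_comm] at this
    exact this
  have h2 : |(gi (round w.re, round w.im) - w).im| ≤ 1 / 2 := by
    have := abs_sub_round w.im
    rw [abs_sub_comm] at this
    exact this
  linarith

/-- Module B, abstract form: `F h` is the free coordinate of `h`. -/
theorem isQI_geo (D : Geo H) (F : H → FreeGroup Bool) (sec : FreeGroup Bool → H)
    (hF : ∀ f, F (sec f) = f)
    (hL : ∀ a b, D.L (a⁻¹ * b) = FreeGroup.norm ((F a)⁻¹ * F b)) : IsQI GG H := by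
  have hFP : ∀ g p, D.L p = 0 → F (g * p) = F g := by
    intro g p hp
    have h1 := hL g (g * p)
    rw [inv_mul_cancel_left, hp] at h1
    have h2 := FreeGroup.norm_eq_zero.1 h1.symm
    exact (inv_mul_eq_one.1 h2).symm
  have hex : ∀ a : GG, ∃ h : H, F h = a.1 ∧ ‖D.x h - gi (zc a)‖ ≤ 2 := by
    intro a
    obtain ⟨o, ho, ho2⟩ := D.O_cover (D.al ^ (-(D.e (sec a.1))) * (gi (zc a) - D.x (sec a.1)))
    obtain ⟨p, hp, hpx⟩ := D.P_surj o ho
    refine ⟨sec a.1 * p, by rw [hFP _ _ hp, hF], ?_⟩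
    rw [D.x_mul, hpx]
    have e : D.x (sec a.1) + D.al ^ (D.e (sec a.1)) * o - gi (zc a) =
        - (D.al ^ (D.e (sec a.1)) * (D.al ^ (-(D.e (sec a.1))) * (gi (zc a) - D.x (sec a.1)) - o)) := by
      rw [mul_sub, ← mul_assoc, ← zpow_add₀ (bq_al_ne0 D), add_neg_cancel, zpow_zero]
      ring
    rw [e, norm_neg, norm_mul, (bq_norm_al_zpow D), one_mul]
    exact ho2
  choose φ hφ1 hφ2 using hex
  obtain ⟨T, C, hT⟩ := (bq_exists_normGen D)
  have hdist : ∀ a b : GG, ‖(D.x (φ b) - D.x (φ a)) - gi (zc b - zc a)‖ ≤ 4 := by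
    intro a b
    have e : (D.x (φ b) - D.x (φ a)) - gi (zc b - zc a) =
        (D.x (φ b) - gi (zc b)) - (D.x (φ a) - gi (zc a)) := by
      rw [← gi_sub]; ring
    rw [e]
    refine (norm_sub_le _ _).trans ?_
    have h1 := hφ2 a
    have h2 := hφ2 b
    linarith
  have hNG : ∀ a b : GG, NG (a⁻¹ * b) = (FreeGroup.norm (a.1⁻¹ * b.1) : ℝ) +
      (|(((zc b - zc a).1 : ℤ) : ℝ)| + |(((zc b - zc a).2 : ℤ) : ℝ)|) := by
    intro a b
    have e : zc (a⁻¹ * b) = zc b - zc a := by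
      rw [zc_mul, zc_inv, neg_add_eq_sub]
    have e2 : (a⁻¹ * b).1 = a.1⁻¹ * b.1 := rfl
    unfold NG
    rw [e, e2, add_assoc]
  have hNH : ∀ a b : GG, D.N ((φ a)⁻¹ * φ b) = ‖D.x (φ b) - D.x (φ a)‖ +
      (FreeGroup.norm (a.1⁻¹ * b.1) : ℝ) := by
    intro a b
    unfold Geo.N
    rw [(bq_norm_x_inv_mul D), hL, hφ1, hφ1]
  refine isQI_of_norms normGen_GG hT φ 8 (by norm_num) ?_ ?_ ?_
  · intro a b
    rw [hNG, hNH]
    have h1 := hdist a b
    have h2 := norm_gi_le (zc b - zc a)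
    have h3 : ‖D.x (φ b) - D.x (φ a)‖ ≤ ‖gi (zc b - zc a)‖ + 4 := by
      have := norm_add_le ((D.x (φ b) - D.x (φ a)) - gi (zc b - zc a)) (gi (zc b - zc a))
      rw [sub_add_cancel] at this
      linarith
    have p1 : (0:ℝ) ≤ (FreeGroup.norm (a.1⁻¹ * b.1) : ℝ) := by positivity
    have p2 := abs_nonneg (((zc b - zc a).1 : ℤ) : ℝ)
    have p3 := abs_nonneg (((zc b - zc a).2 : ℤ) : ℝ)
    linarith
  · intro a b
    rw [hNG, hNH]
    have h1 := hdist a b
    have h2 := le_norm_gi (zc b - zc a)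
    have h3 : ‖gi (zc b - zc a)‖ ≤ ‖D.x (φ b) - D.x (φ a)‖ + 4 := by
      have := norm_sub_le (D.x (φ b) - D.x (φ a)) ((D.x (φ b) - D.x (φ a)) - gi (zc b - zc a))
      rw [sub_sub_cancel] at this
      linarith
    have p1 : (0:ℝ) ≤ (FreeGroup.norm (a.1⁻¹ * b.1) : ℝ) := by positivity
    have p2 := norm_nonneg (D.x (φ b) - D.x (φ a))
    linarith
  · intro h
    obtain ⟨z, hz⟩ := exists_gi (D.x h)
    let g : GG := (F h, Multiplicative.ofAdd z)
    refine ⟨g, ?_⟩
    have e1 : F (φ g) = F h := hφ1 g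
    have e2 : ‖D.x (φ g) - gi z‖ ≤ 2 := hφ2 g
    unfold Geo.N
    rw [(bq_norm_x_inv_mul D), hL, e1, inv_mul_cancel, FreeGroup.norm_one]
    have h3 : ‖D.x h - D.x (φ g)‖ ≤ 3 := by
      have e : D.x h - D.x (φ g) = -(D.x (φ g) - gi z) - (gi z - D.x h) := by ring
      rw [e]
      refine (norm_sub_le _ _).trans ?_
      rw [norm_neg]
      linarith
    simp only [Nat.cast_zero, add_zero]
    linarith

/-- Module B for `LM`, given a `Geo LM` whose tree length is the length of the free coordinate. -/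
theorem modB_of (D : Geo LM) (hD : ∀ g : LM, D.L g = FreeGroup.norm g.f) : IsQI GG LM := by
  have h1 : ∀ p : ℤ × ℤ, D.L ⟨1, p⟩ = 0 := fun p => by rw [hD]; exact FreeGroup.norm_one
  have hle : ∀ (p : ℤ × ℤ) (f : FB), FreeGroup.norm (act p f) ≤ FreeGroup.norm f := by
    intro p f
    have h2 : ((⟨1, p⟩ : LM) * ⟨f, 0⟩).f = act p f := by
      rw [LM.mul_f]; exact one_mul _
    rw [← h2, ← hD]
    refine (D.L_mul _ _).trans ?_
    rw [h1, hD, zero_add]
  have hact : ∀ (p : ℤ × ℤ) (f : FB), FreeGroup.norm (act p f) = FreeGroup.norm f := by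
    intro p f
    apply le_antisymm (hle p f)
    have h2 : act (-p) (act p f) = f := by
      rw [← act_add, neg_add_cancel, act_zero]
    calc FreeGroup.norm f = FreeGroup.norm (act (-p) (act p f)) := by rw [h2]
      _ ≤ _ := hle _ _
  refine isQI_geo D LM.f (fun f => ⟨f, 0⟩) (fun f => rfl) ?_
  intro a b
  rw [hD, LM.mul_f, LM.inv_f, LM.inv_p, ← act_mul, hact]

end H57.QI
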