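import Pool.Agent.Lib_helper41.QI.C123

/-!
# Module C of the quasi-isometry project, second half (C0, C4, C5)

From the language-level normal form `C123` of an automatic group we obtain an `Auto D` structure.
-/

set_option autoImplicit false

namespace H57.QI

namespace C45

section Basic

variable {H : Type} [Group H] (D : Geo H)

include D in
theorem al_ne_zero : D.al ≠ 0 := by
  intro h
  have := D.al_norm
  rw [h] at this
  simp at this

theorem norm_al (n : ℤ) : ‖D.al ^ n‖ = 1 := by
  rw [norm_zpow, D.al_norm, one_zpow]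

theorem e_one : D.e 1 = 0 := by
  have := D.e_mul 1 1
  rw [mul_one] at this
  omega

theorem e_inv (g : H) : D.e g⁻¹ = - D.e g := by
  have := D.e_mul g g⁻¹
  rw [mul_inv_cancel, e_one] at this
  omega

theorem x_one : D.x 1 = 0 := by
  have := D.x_mul 1 1
  rw [mul_one, e_one, zpow_zero, one_mul] at this
  linear_combination -this

theorem x_inv (g : H) : D.x g⁻¹ = - (D.al ^ (- D.e g) * D.x g) := by
  have h := D.x_mul g⁻¹ g
  rw [inv_mul_cancel, x_one, e_inv] at h
  linear_combination -h

theorem norm_x_inv (g : H) : ‖D.x g⁻¹‖ = ‖D.x g‖ := by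
  rw [x_inv, norm_neg, norm_mul, norm_al, one_mul]

theorem norm_x_mul (g h : H) : ‖D.x (g * h)‖ ≤ ‖D.x g‖ + ‖D.x h‖ := by
  rw [D.x_mul]
  refine (norm_add_le _ _).trans ?_
  rw [norm_mul, norm_al, one_mul]

theorem N_nonneg (g : H) : 0 ≤ D.N g := by
  unfold Geo.N
  positivity

theorem N_one : D.N 1 = 0 := by
  unfold Geo.N
  rw [x_one, D.L_one]
  simp

theorem N_inv (g : H) : D.N g⁻¹ = D.N g := by
  unfold Geo.N
  rw [norm_x_inv, D.L_inv]

theorem N_mul (g h : H) : D.N (g * h) ≤ D.N g + D.N h := by
  unfold Geo.N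
  have h1 := norm_x_mul D g h
  have h2 : (D.L (g * h) : ℝ) ≤ D.L g + D.L h := by exact_mod_cast D.L_mul g h
  linarith

/-- `x` is injective on the stabiliser of the base vertex -/
theorem P_inj' (p q : H) (hp : D.L p = 0) (hq : D.L q = 0) (h : D.x p = D.x q) : p = q := by
  have h1 : D.L (p⁻¹ * q) = 0 := by
    have := D.L_mul p⁻¹ q
    rw [D.L_inv] at this
    omega
  have h2 : D.x (p⁻¹ * q) = 0 := by
    rw [D.x_mul, x_inv, e_inv, h]
    ring
  have := D.P_inj _ h1 h2
  rw [inv_mul_eq_one] at this
  exact this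

/-- properness -/
theorem N_fin (R : ℝ) : {g : H | D.N g ≤ R}.Finite := by
  obtain ⟨S, hS⟩ := D.ball_fin ⌈R⌉₊
  obtain ⟨B, hB⟩ : ∃ B : ℝ, ∀ s ∈ S, ‖D.x s‖ ≤ B := by
    refine ⟨∑ s ∈ S, ‖D.x s‖, fun s hs => ?_⟩
    exact Finset.single_le_sum (f := fun s => ‖D.x s‖) (fun _ _ => norm_nonneg _) hs
  have hP : {p : H | D.L p = 0 ∧ ‖D.x p‖ ≤ B + R}.Finite := by
    refine Set.Finite.of_finite_image (f := D.x) ((D.O_fin (B + R)).subset ?_) ?_
    · rintro _ ⟨p, ⟨hp, hp'⟩, rfl⟩
      exact ⟨D.P_mem p hp, hp'⟩
    · intro p hp q hq hpq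
      exact P_inj' D p q hp.1 hq.1 hpq
  refine (Set.Finite.image2 (fun s p => s * p) S.finite_toSet hP).subset ?_
  intro g hg
  have hg' : D.N g ≤ R := hg
  have hx : ‖D.x g‖ ≤ R := by
    unfold Geo.N at hg'
    have : (0 : ℝ) ≤ D.L g := by positivity
    linarith
  have hL : D.L g ≤ ⌈R⌉₊ := by
    have : (D.L g : ℝ) ≤ R := by
      unfold Geo.N at hg'
      have : (0 : ℝ) ≤ ‖D.x g‖ := by positivity
      linarith
    exact_mod_cast this.trans (Nat.le_ceil R)
  obtain ⟨s, hs, hs'⟩ := hS g hL
  refine ⟨s, hs, s⁻¹ * g, ⟨hs', ?_⟩, by simp⟩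
  refine (norm_x_mul D _ _).trans ?_
  rw [norm_x_inv]
  linarith [hB s hs]

/-- an element of tree length `≤ n + 1` is a product of `n + 1` elements of tree length `≤ 1` -/
theorem fac (n : ℕ) : ∀ g : H, D.L g ≤ n + 1 →
    ∃ l : List H, l.length = n + 1 ∧ l.prod = g ∧ ∀ s ∈ l, D.L s ≤ 1 := by
  induction n with
  | zero =>
    intro g hg
    exact ⟨[g], rfl, by simp, by simpa using hg⟩
  | succ n ih =>
    intro g hg
    by_cases h : D.L g ≤ n + 1
    · obtain ⟨l, h1, h2, h3⟩ := ih g h
      refine ⟨1 :: l, by simp [h1], by simp [h2], ?_⟩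
      intro s hs
      rcases List.mem_cons.mp hs with rfl | hs
      · rw [D.L_one]; omega
      · exact h3 s hs
    · obtain ⟨h0, h1, h2⟩ := D.L_geod g 1 (by omega)
      obtain ⟨l, h3, h4, h5⟩ := ih (h0⁻¹ * g) (by omega)
      refine ⟨h0 :: l, by simp [h3], by simp [h4], ?_⟩
      intro s hs
      rcases List.mem_cons.mp hs with rfl | hs
      · omega
      · exact h5 s hs

end Basic

section Sub

variable {α : Type} (m : ℕ)

/-- the block of the letter `a` -/
def blk (a : α) : List (α × Fin (m + 1)) := (List.finRange (m + 1)).map (fun i => (a, i))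

theorem blk_length (a : α) : (blk m a).length = m + 1 := by
  simp [blk]

theorem blk_getElem (a : α) (i : ℕ) (h : i < (blk m a).length) :
    (blk m a)[i] = (a, ⟨i, by rwa [blk_length] at h⟩) := by
  simp [blk]

/-- the subdivided word -/
def sub (w : List α) : List (α × Fin (m + 1)) := w.flatMap (blk m)

theorem sub_nil : sub m ([] : List α) = [] := rfl

theorem sub_cons (a : α) (w : List α) : sub m (a :: w) = blk m a ++ sub m w := by
  simp [sub]

theorem sub_append (w w' : List α) : sub m (w ++ w') = sub m w ++ sub m w' := by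
  simp [sub]

theorem sub_snoc (w : List α) (a : α) : sub m (w ++ [a]) = sub m w ++ blk m a := by
  simp [sub]

theorem sub_length (w : List α) : (sub m w).length = (m + 1) * w.length := by
  induction w with
  | nil => simp [sub]
  | cons a w ih =>
    rw [sub_cons, List.length_append, blk_length, ih, List.length_cons]
    ring

variable {σ : Type} (W : DFA α σ)

open Classical in
/-- the step of the subdivision automaton: state `(s, o, j)` : state `s` of `W`, current letter `o`,
next index `j` -/
noncomputable def step (st : Option (σ × Option α × Fin (m + 1))) (l : α × Fin (m + 1)) :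
    Option (σ × Option α × Fin (m + 1)) :=
  match st with
  | none => none
  | some (s, o, j) =>
    if l.2 = j ∧ (j = 0 ∨ o = some l.1) then
      some (if j = 0 then W.step s l.1 else s, some l.1, j + 1)
    else none

/-- the subdivision automaton -/
noncomputable def subDFA : DFA (α × Fin (m + 1)) (Option (σ × Option α × Fin (m + 1))) where
  step := step m W
  start := some (W.start, none, 0)
  accept := {st | ∃ s o, st = some (s, o, 0) ∧ s ∈ W.accept}

theorem subDFA_step (st : Option (σ × Option α × Fin (m + 1))) (l : α × Fin (m + 1)) :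
    (subDFA m W).step st l = step m W st l := rfl

open Classical in
theorem step_some (s : σ) (o : Option α) (j : Fin (m + 1)) (l : α × Fin (m + 1)) :
    step m W (some (s, o, j)) l =
      if l.2 = j ∧ (j = 0 ∨ o = some l.1) then
        some (if j = 0 then W.step s l.1 else s, some l.1, j + 1)
      else none := rfl

theorem take_succ_blk (a : α) (j : ℕ) (hj : j < m + 1) :
    (blk m a).take (j + 1) = (blk m a).take j ++ [(a, ⟨j, hj⟩)] := by
  rw [List.take_succ_eq_append_getElem (by rw [blk_length]; exact hj), blk_getElem]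

/-- reading a block -/
theorem eval_take (s : σ) (o : Option α) (a : α) (j : ℕ) (hj : j ≤ m + 1) (h0 : 0 < j) :
    (subDFA m W).evalFrom (some (s, o, 0)) ((blk m a).take j) =
      some (W.step s a, some a, Fin.ofNat (m + 1) j) := by
  induction j with
  | zero => omega
  | succ j ih =>
    rw [take_succ_blk m a j (by omega), DFA.evalFrom_append_singleton]
    rcases Nat.eq_zero_or_pos j with rfl | hj0
    · simp only [List.take_zero, DFA.evalFrom_nil]
      rw [subDFA_step, step_some]
      rw [if_pos ⟨by rfl, Or.inl rfl⟩, if_pos rfl]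
      congr 3
      simp [Fin.ext_iff, Fin.val_add]
    · rw [ih (by omega) hj0]
      rw [subDFA_step, step_some]
      have hne : (Fin.ofNat (m + 1) j : Fin (m + 1)) ≠ 0 := by
        intro h
        have := congrArg Fin.val h
        simp only [Fin.ofNat_eq_cast, Fin.val_natCast, Fin.coe_ofNat_eq_mod, Nat.zero_mod] at this
        rw [Nat.mod_eq_of_lt (by omega)] at this
        omega
      have hc : (⟨j, by omega⟩ : Fin (m + 1)) = Fin.ofNat (m + 1) j := by
        apply Fin.ext
        simp only [Fin.ofNat_eq_cast, Fin.val_natCast]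
        exact (Nat.mod_eq_of_lt (by omega)).symm
      rw [if_pos ⟨hc, Or.inr rfl⟩, if_neg hne]
      congr 3
      simp [Fin.ext_iff, Fin.val_add]

theorem eval_blk (s : σ) (o : Option α) (a : α) :
    (subDFA m W).evalFrom (some (s, o, 0)) (blk m a) = some (W.step s a, some a, 0) := by
  have := eval_take m W s o a (m + 1) le_rfl (by omega)
  rw [List.take_of_length_le (by rw [blk_length])] at this
  rw [this]
  congr 3
  simp [Fin.ext_iff]

theorem eval_sub (w : List α) : ∀ (s : σ) (o : Option α),
    ∃ o', (subDFA m W).evalFrom (some (s, o, 0)) (sub m w) = some (W.evalFrom s w, o', 0) := by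
  induction w with
  | nil => intro s o; exact ⟨o, rfl⟩
  | cons a w ih =>
    intro s o
    obtain ⟨o', h⟩ := ih (W.step s a) (some a)
    refine ⟨o', ?_⟩
    rw [sub_cons, DFA.evalFrom_of_append, eval_blk, h, DFA.evalFrom_cons]

theorem eval_inv (w' : List (α × Fin (m + 1))) : ∀ (s : σ) (o : Option α) (j : Fin (m + 1)),
    (subDFA m W).evalFrom (some (W.start, none, 0)) w' = some (s, o, j) →
    (j = 0 ∧ ∃ w, w' = sub m w ∧ s = W.evalFrom W.start w) ∨
    (j ≠ 0 ∧ ∃ w a, o = some a ∧ w' = sub m w ++ (blk m a).take j ∧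
      s = W.evalFrom W.start (w ++ [a])) := by
  induction w' using List.reverseRecOn with
  | nil =>
    intro s o j h
    simp only [DFA.evalFrom_nil, Option.some.injEq, Prod.mk.injEq] at h
    exact Or.inl ⟨h.2.2.symm, [], rfl, h.1.symm⟩
  | append_singleton w' l ih =>
    intro s o j h
    rw [DFA.evalFrom_append_singleton] at h
    rcases hst : (subDFA m W).evalFrom (some (W.start, none, 0)) w' with _ | ⟨s1, o1, j1⟩
    · rw [hst] at h
      rw [subDFA_step] at h
      simp [step] at h
    · rw [hst] at h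
      rw [subDFA_step, step_some] at h
      split_ifs at h with h1 h2
      · -- j1 = 0
        simp only [Option.some.injEq, Prod.mk.injEq] at h
        obtain ⟨hs, ho, hj⟩ := h
        rcases ih s1 o1 j1 hst with ⟨_, w, hw, hs1⟩ | ⟨hne, _⟩
        swap
        · exact absurd h2 hne
        obtain ⟨b, i⟩ := l
        simp only at h1 hs ho hj
        have hi : i = 0 := h1.1.trans h2
        subst hi
        subst h2
        have hb : [(b, (0 : Fin (m + 1)))] = (blk m b).take 1 := by
          rw [take_succ_blk m b 0 (by omega)]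
          simp
        by_cases hm : m = 0
        · subst hm
          left
          refine ⟨Fin.ext (by omega), w ++ [b], ?_, ?_⟩
          · rw [sub_snoc, hw, hb, List.take_of_length_le (by rw [blk_length])]
          · rw [DFA.evalFrom_append_singleton, ← hs1, hs]
        · right
          have hj1 : (j : ℕ) = 1 := by
            rw [← hj]
            simp only [zero_add, Fin.val_one']
            exact Nat.mod_eq_of_lt (by omega)
          refine ⟨?_, w, b, ho.symm, ?_, ?_⟩
          · intro h0
            rw [h0] at hj1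
            simp at hj1
          · rw [hj1, hw, hb]
          · rw [DFA.evalFrom_append_singleton, ← hs1, hs]
      · -- j1 ≠ 0
        simp only [Option.some.injEq, Prod.mk.injEq] at h
        obtain ⟨hs, ho, hj⟩ := h
        rcases ih s1 o1 j1 hst with ⟨h0, _⟩ | ⟨hne, w, a, ho1, hw, hs1⟩
        · exact absurd h0 h2
        obtain ⟨b, i⟩ := l
        simp only at h1 hs ho hj
        have hi : i = j1 := h1.1
        have hb : a = b := by
          rcases h1.2 with h3 | h3
          · exact absurd h3 h2
          · rw [ho1] at h3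
            exact Option.some.inj h3
        subst hb
        subst hi
        have hw' : w' ++ [(a, i)] = sub m w ++ (blk m a).take ((i : ℕ) + 1) := by
          rw [take_succ_blk m a i i.2, hw, List.append_assoc]
        by_cases hlast : (i : ℕ) = m
        · left
          refine ⟨?_, w ++ [a], ?_, ?_⟩
          · rw [← hj]
            apply Fin.ext
            simp [Fin.val_add, hlast]
          · rw [hw', sub_snoc, hlast, List.take_of_length_le (by rw [blk_length])]
          · rw [← hs, hs1]
        · right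
          have hi2 : (i : ℕ) < m := by
            have := i.2
            omega
          have hj1 : (j : ℕ) = i + 1 := by
            rw [← hj]
            simp only [Fin.val_add, Fin.val_one']
            rw [Nat.add_mod_mod, Nat.mod_eq_of_lt (by omega)]
          refine ⟨?_, w, a, ho.symm, ?_, ?_⟩
          · intro h0
            rw [h0] at hj1
            simp at hj1
          · rw [hw', hj1]
          · rw [← hs, hs1]

theorem mem_subDFA (w' : List (α × Fin (m + 1))) :
    w' ∈ (subDFA m W).accepts ↔ ∃ w ∈ W.accepts, w' = sub m w := by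
  rw [DFA.mem_accepts]
  constructor
  · rintro ⟨s, o, h, hs⟩
    rcases eval_inv m W w' s o 0 h with ⟨_, w, hw, hs'⟩ | ⟨h0, _⟩
    · refine ⟨w, ?_, hw⟩
      rw [DFA.mem_accepts]
      change W.evalFrom W.start w ∈ _
      rw [← hs']
      exact hs
    · exact absurd rfl h0
  · rintro ⟨w, hw, rfl⟩
    obtain ⟨o', h⟩ := eval_sub m W w W.start none
    exact ⟨_, o', h, (DFA.mem_accepts W).mp hw⟩

end Sub

section Chain

variable {H : Type} [Group H] (D : Geo H)

/-- C4: chains of letters -/
theorem chain {α σ : Type} (μ : α → H) (W : DFA α σ) (F : Set H) (k : ℕ)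
    (hsurj : ∀ g : H, ∃ w, w ∈ W.accepts ∧ (w.map μ).prod = g)
    (huniq : ∀ w w', w ∈ W.accepts → w' ∈ W.accepts → (w.map μ).prod = (w'.map μ).prod → w = w')
    (hft : ∀ (a : α) (w w' : List α), w ∈ W.accepts → w' ∈ W.accepts →
      (w.map μ).prod * μ a = (w'.map μ).prod →
      (∀ t : ℕ, ((w.take t).map μ).prod⁻¹ * ((w'.take t).map μ).prod ∈ F) ∧
      w'.length ≤ w.length + k ∧ w.length ≤ w'.length + k)
    (B : ℝ) (hB : ∀ f ∈ F, D.N f ≤ B) (l : List α) :
    ∀ w w' : List α, w ∈ W.accepts → w' ∈ W.accepts →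
      (w.map μ).prod * (l.map μ).prod = (w'.map μ).prod →
      (∀ t : ℕ, D.N (((w.take t).map μ).prod⁻¹ * ((w'.take t).map μ).prod) ≤ l.length * B) ∧
      w'.length ≤ w.length + l.length * k ∧ w.length ≤ w'.length + l.length * k := by
  induction l with
  | nil =>
    intro w w' hw hw' h
    rw [List.map_nil, List.prod_nil, mul_one] at h
    have := huniq w w' hw hw' h
    subst this
    refine ⟨fun t => ?_, by simp, by simp⟩
    rw [inv_mul_cancel, N_one]
    simp
  | cons a l ih =>
    intro w w' hw hw' h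
    obtain ⟨w'', hw'', hv⟩ := hsurj ((w.map μ).prod * μ a)
    obtain ⟨h1, h2, h3⟩ := hft a w w'' hw hw'' hv.symm
    obtain ⟨h4, h5, h6⟩ := ih w'' w' hw'' hw' (by
      rw [hv, ← h, List.map_cons, List.prod_cons, mul_assoc])
    refine ⟨fun t => ?_, ?_, ?_⟩
    · have e : ((w.take t).map μ).prod⁻¹ * ((w'.take t).map μ).prod =
          (((w.take t).map μ).prod⁻¹ * ((w''.take t).map μ).prod) *
          (((w''.take t).map μ).prod⁻¹ * ((w'.take t).map μ).prod) := by group
      rw [e]
      refine (N_mul D _ _).trans ?_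
      have := hB _ (h1 t)
      have := h4 t
      rw [List.length_cons]
      push_cast
      linarith
    · rw [List.length_cons]
      have : (l.length + 1) * k = l.length * k + k := by ring
      omega
    · rw [List.length_cons]
      have : (l.length + 1) * k = l.length * k + k := by ring
      omega

/-- every element is a short product of letters -/
theorem short {α : Type} (μ : α → H) (hgen : ∀ g : H, ∃ w : List α, (w.map μ).prod = g) :
    ∃ C : ℕ, ∀ h : H, ∃ l : List α, (l.map μ).prod = h ∧ (l.length : ℝ) ≤ C * (D.N h + 1) := by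
  obtain ⟨C, hC⟩ := D.gen
  choose wd hwd using hgen
  have hfin : {s : H | D.N s ≤ C}.Finite := N_fin D C
  obtain ⟨M, hM⟩ : ∃ M : ℕ, ∀ s, D.N s ≤ C → (wd s).length ≤ M := by
    refine ⟨∑ s ∈ hfin.toFinset, (wd s).length, fun s hs => ?_⟩
    exact Finset.single_le_sum (f := fun s => (wd s).length) (fun _ _ => Nat.zero_le _)
      (by simpa using hs)
  refine ⟨C * M, fun h => ?_⟩
  obtain ⟨l, hl, hlen, hs⟩ := hC h
  refine ⟨l.flatMap wd, ?_, ?_⟩
  · rw [← hl]
    clear hl hlen hs
    induction l with
    | nil => simp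
    | cons a l ih =>
      rw [List.flatMap_cons, List.map_append, List.prod_append, ih, hwd, List.prod_cons]
  · have h1 : (l.flatMap wd).length ≤ l.length * M := by
      clear hl hlen
      induction l with
      | nil => simp
      | cons a l ih =>
        rw [List.flatMap_cons, List.length_append, List.length_cons]
        have h2 := ih (fun s hs' => hs s (List.mem_cons_of_mem _ hs'))
        have h3 := hM a (hs a (List.mem_cons_self))
        have : (l.length + 1) * M = l.length * M + M := by ring
        omega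
    have h2 : ((l.flatMap wd).length : ℝ) ≤ l.length * M := by exact_mod_cast h1
    refine h2.trans ?_
    push_cast
    have h3 : (l.length : ℝ) ≤ C * (D.N h + 1) := by
      unfold Geo.N
      exact hlen
    calc (l.length : ℝ) * M ≤ (C * (D.N h + 1)) * M := by gcongr
      _ = C * M * (D.N h + 1) := by ring

end Chain

section Final

variable {H : Type} [Group H] (D : Geo H)

theorem sub_prod {α : Type} (m : ℕ) (μ : α → H) (f : α → Fin (m + 1) → H)
    (hf : ∀ a, ((blk m a).map (fun q => f q.1 q.2)).prod = μ a) (w : List α) :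
    ((sub m w).map (fun q => f q.1 q.2)).prod = (w.map μ).prod := by
  induction w with
  | nil => simp [sub]
  | cons a w ih =>
    rw [sub_cons, List.map_append, List.prod_append, ih, hf, List.map_cons, List.prod_cons]

/-- prefixes of subdivided words -/
theorem sub_take {α : Type} (m : ℕ) (w : List α) : ∀ t : ℕ,
    (∃ a, (sub m w).take t = sub m (w.take (t / (m + 1))) ++ (blk m a).take (t % (m + 1))) ∨
    (sub m w).take t = sub m (w.take (t / (m + 1))) := by
  induction w with
  | nil => intro t; right; simp [sub]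
  | cons a w ih =>
    intro t
    by_cases ht : t < m + 1
    · left
      refine ⟨a, ?_⟩
      rw [Nat.div_eq_of_lt ht, Nat.mod_eq_of_lt ht, List.take_zero, sub_nil, List.nil_append,
        sub_cons, List.take_append_of_le_length (by rw [blk_length]; omega)]
    · have ht' : m + 1 ≤ t := by omega
      obtain ⟨t', rfl⟩ := Nat.exists_eq_add_of_le ht'
      have h1 : (m + 1 + t') / (m + 1) = t' / (m + 1) + 1 := by
        rw [Nat.add_div_left _ (by omega)]
      have h2 : (m + 1 + t') % (m + 1) = t' % (m + 1) := by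
        rw [Nat.add_mod_left]
      have h3 : (sub m (a :: w)).take (m + 1 + t') = blk m a ++ (sub m w).take t' := by
        rw [sub_cons, List.take_append, List.take_of_length_le (by rw [blk_length]; omega),
          blk_length]
        congr 2
        omega
      rw [h1, h2, h3, List.take_succ_cons, sub_cons]
      rcases ih t' with ⟨b, hb⟩ | hb
      · left
        exact ⟨b, by rw [hb, List.append_assoc]⟩
      · right
        rw [hb]

end Final

end C45

open C45

/-- Module C from its language part. -/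
theorem modC_of (hC : C123_Stmt) {H : Type} [Group H] (D : Geo H) (h : IsAut H) :
    Nonempty (Auto D) := by
  obtain ⟨α, hα, μ, σ, hσ, W, F, k, hF, hsurj, huniq, hft⟩ := hC H h
  -- bound on F
  obtain ⟨B, hB0, hB⟩ : ∃ B : ℝ, 0 ≤ B ∧ ∀ f ∈ F, D.N f ≤ B := by
    refine ⟨∑ f ∈ hF.toFinset, D.N f, Finset.sum_nonneg (fun f _ => N_nonneg D f), fun f hf => ?_⟩
    exact Finset.single_le_sum (f := fun f => D.N f) (fun _ _ => N_nonneg D _) (by simpa using hf)
  obtain ⟨C, hC'⟩ := short D μ (fun g => by
    obtain ⟨w, _, hw⟩ := hsurj g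
    exact ⟨w, hw⟩)
  -- subdivision of the letters
  obtain ⟨m, hm⟩ : ∃ m : ℕ, ∀ a, D.L (μ a) ≤ m + 1 := by
    refine ⟨∑ a, D.L (μ a), fun a => ?_⟩
    have := Finset.single_le_sum (f := fun a => D.L (μ a)) (fun _ _ => Nat.zero_le _)
      (Finset.mem_univ a)
    omega
  choose fl hfl1 hfl2 hfl3 using fun a => fac D m (μ a) (hm a)
  let f : α → Fin (m + 1) → H := fun a i => (fl a)[(i : ℕ)]'(by rw [hfl1]; exact i.2)
  have hblk : ∀ a, (blk m a).map (fun q => f q.1 q.2) = fl a := by
    intro a
    apply List.ext_getElem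
    · rw [List.length_map, blk_length, hfl1]
    · intro i h1 h2
      rw [List.getElem_map, blk_getElem]
  have hf : ∀ a, ((blk m a).map (fun q => f q.1 q.2)).prod = μ a := by
    intro a
    rw [hblk, hfl2]
  have hfL : ∀ a i, D.L (f a i) ≤ 1 := fun a i => hfl3 a _ (List.getElem_mem _)
  -- bound on partial blocks
  obtain ⟨B2, hB20, hB2⟩ : ∃ B2 : ℝ, 0 ≤ B2 ∧ ∀ a, ∀ j ∈ Finset.range (m + 1),
      D.N ((((blk m a).take j).map (fun q => f q.1 q.2)).prod) ≤ B2 := by
    refine ⟨∑ a, ∑ j ∈ Finset.range (m + 1),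
      D.N ((((blk m a).take j).map (fun q => f q.1 q.2)).prod),
      Finset.sum_nonneg (fun _ _ => Finset.sum_nonneg (fun _ _ => N_nonneg D _)),
      fun a j hj => ?_⟩
    refine (Finset.single_le_sum (f := fun j =>
      D.N ((((blk m a).take j).map (fun q => f q.1 q.2)).prod)) (fun _ _ => N_nonneg D _) hj).trans
      ?_
    exact Finset.single_le_sum (f := fun a => ∑ j ∈ Finset.range (m + 1),
      D.N ((((blk m a).take j).map (fun q => f q.1 q.2)).prod))
      (fun _ _ => Finset.sum_nonneg (fun _ _ => N_nonneg D _)) (Finset.mem_univ a)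
  have htake : ∀ (w : List α) (t : ℕ), D.N (((((w.take (t / (m + 1)))).map μ).prod)⁻¹ *
      (((sub m w).take t).map (fun q => f q.1 q.2)).prod) ≤ B2 := by
    intro w t
    rcases sub_take m w t with ⟨a, ha⟩ | ha
    · rw [ha, List.map_append, List.prod_append, sub_prod m μ f hf, inv_mul_cancel_left]
      exact hB2 a _ (Finset.mem_range.mpr (Nat.mod_lt _ (by omega)))
    · rw [ha, sub_prod m μ f hf, inv_mul_cancel, N_one]
      exact hB20
  have key : ∀ w w' : List α, w ∈ W.accepts → w' ∈ W.accepts →
      ∃ n : ℕ, (n : ℝ) ≤ C * (D.N (((w.map μ).prod)⁻¹ * (w'.map μ).prod) + 1) ∧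
      (∀ t : ℕ, D.N (((w.take t).map μ).prod⁻¹ * ((w'.take t).map μ).prod) ≤ n * B) ∧
      w'.length ≤ w.length + n * k ∧ w.length ≤ w'.length + n * k := by
    intro w w' hw hw'
    obtain ⟨l, hl, hlen⟩ := hC' (((w.map μ).prod)⁻¹ * (w'.map μ).prod)
    refine ⟨l.length, hlen, ?_⟩
    exact chain D μ W F k hsurj huniq hft B hB l w w' hw hw' (by rw [hl, mul_inv_cancel_left])
  refine ⟨{
    Q := Option (σ × Option α × Fin (m + 1))
    S := α × Fin (m + 1)
    M := subDFA m W
    mu := fun q => f q.1 q.2
    mu_L := fun q => hfL q.1 q.2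
    surj := ?_
    uniq := ?_
    k := 1 + C * B + 2 * B2 + C * k * (m + 1)
    one_le_k := ?_
    ft := ?_
    ll := ?_ }⟩
  · intro g
    obtain ⟨w, hw, hg⟩ := hsurj g
    exact ⟨sub m w, (mem_subDFA m W _).mpr ⟨w, hw, rfl⟩, by rw [sub_prod m μ f hf, hg]⟩
  · intro w w' hw hw' he
    obtain ⟨u, hu, rfl⟩ := (mem_subDFA m W _).mp hw
    obtain ⟨v, hv, rfl⟩ := (mem_subDFA m W _).mp hw'
    rw [sub_prod m μ f hf, sub_prod m μ f hf] at he
    rw [huniq u v hu hv he]
  · have : 0 ≤ (C : ℝ) * B + 2 * B2 + C * k * (m + 1) := by positivity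
    linarith
  · intro w w' hw hw' t
    obtain ⟨u, hu, rfl⟩ := (mem_subDFA m W _).mp hw
    obtain ⟨v, hv, rfl⟩ := (mem_subDFA m W _).mp hw'
    rw [sub_prod m μ f hf, sub_prod m μ f hf]
    obtain ⟨n, hn, h1, -, -⟩ := key u v hu hv
    set N0 := D.N (((u.map μ).prod)⁻¹ * (v.map μ).prod) with hN0
    have hN00 : 0 ≤ N0 := N_nonneg D _
    have e : (((sub m u).take t).map (fun q => f q.1 q.2)).prod⁻¹ *
        (((sub m v).take t).map (fun q => f q.1 q.2)).prod =
        ((((u.take (t / (m + 1))).map μ).prod)⁻¹ *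
          (((sub m u).take t).map (fun q => f q.1 q.2)).prod)⁻¹ *
        ((((u.take (t / (m + 1))).map μ).prod)⁻¹ * (((v.take (t / (m + 1))).map μ).prod)) *
        ((((v.take (t / (m + 1))).map μ).prod)⁻¹ *
          (((sub m v).take t).map (fun q => f q.1 q.2)).prod) := by group
    rw [e]
    refine (N_mul D _ _).trans ?_
    have h2 := N_mul D ((((u.take (t / (m + 1))).map μ).prod)⁻¹ *
          (((sub m u).take t).map (fun q => f q.1 q.2)).prod)⁻¹
        ((((u.take (t / (m + 1))).map μ).prod)⁻¹ * (((v.take (t / (m + 1))).map μ).prod))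
    rw [N_inv] at h2
    have h3 := htake u t
    have h4 := htake v t
    have h5 := h1 (t / (m + 1))
    have h6 : (n : ℝ) * B ≤ C * (N0 + 1) * B := by gcongr
    have h7 : (0 : ℝ) ≤ C * k * (m + 1) := by positivity
    have h8 : (1 + C * B + 2 * B2 + C * k * (m + 1)) * (N0 + 1) - (C * (N0 + 1) * B + 2 * B2) =
      (N0 + 1) + 2 * B2 * N0 + C * k * (m + 1) * (N0 + 1) := by ring
    have h9 : 0 ≤ (N0 + 1) + 2 * B2 * N0 + C * k * (m + 1) * (N0 + 1) := by positivity
    linarith
  · intro w w' hw hw'
    obtain ⟨u, hu, rfl⟩ := (mem_subDFA m W _).mp hw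
    obtain ⟨v, hv, rfl⟩ := (mem_subDFA m W _).mp hw'
    rw [sub_prod m μ f hf, sub_prod m μ f hf]
    obtain ⟨n, hn, -, h1, h2⟩ := key u v hu hv
    set N0 := D.N (((u.map μ).prod)⁻¹ * (v.map μ).prod) with hN0
    have hN00 : 0 ≤ N0 := N_nonneg D _
    rw [sub_length, sub_length]
    push_cast
    have h1' : (v.length : ℝ) ≤ u.length + n * k := by exact_mod_cast h1
    have h2' : (u.length : ℝ) ≤ v.length + n * k := by exact_mod_cast h2
    have h3 : |((m : ℝ) + 1) * u.length - (m + 1) * v.length| ≤ (m + 1) * (n * k) := by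
      rw [← mul_sub, abs_mul, abs_of_nonneg (by positivity : (0 : ℝ) ≤ m + 1)]
      gcongr
      rw [abs_le]
      constructor <;> linarith
    refine h3.trans ?_
    have h6 : ((m : ℝ) + 1) * (n * k) ≤ (m + 1) * ((C * (N0 + 1)) * k) := by gcongr
    have h8 : (1 + C * B + 2 * B2 + C * k * (m + 1)) * (N0 + 1) -
      (m + 1) * ((C * (N0 + 1)) * k) = (1 + C * B + 2 * B2) * (N0 + 1) := by ring
    have h9 : 0 ≤ (1 + C * B + 2 * B2) * (N0 + 1) := by positivity
    linarith

/-- Module C. -/
theorem modC {H : Type} [Group H] (D : Geo H) (h : IsAut H) : Nonempty (Auto D) :=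
  modC_of C123 D h

end H57.QI
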