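import Pool.Agent.Lib_helper57.QI.DArith

/-!
# `geoLM : Geo LM`
-/

set_option autoImplicit false

open FreeGroup (of toWord)


namespace H57.QI

/-! ### ascending elements -/

/-- the positive word -/
def posW (cs : List Bool) : List (Bool × Bool) := cs.map fun c => (c, true)

@[simp] theorem posW_length (cs : List Bool) : (posW cs).length = cs.length := by simp [posW]

theorem posW_reduced (cs : List Bool) : FreeGroup.IsReduced (posW cs) := by
  induction cs with
  | nil => exact FreeGroup.IsReduced.nil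
  | cons c cs ih =>
    cases cs with
    | nil => exact FreeGroup.IsReduced.singleton
    | cons d cs =>
      simp only [posW, List.map_cons] at ih ⊢
      rw [FreeGroup.isReduced_cons_cons]
      exact ⟨fun _ => rfl, ih⟩

theorem norm_posW (cs : List Bool) : FreeGroup.norm (FreeGroup.mk (posW cs) : FB) = cs.length := by
  rw [norm_mk_of_reduced (posW_reduced cs), posW_length]

theorem mk_posW_cons (c : Bool) (cs : List Bool) :
    (FreeGroup.mk (posW (c :: cs)) : FB) = of c * FreeGroup.mk (posW cs) := by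
  have : posW (c :: cs) = (c, true) :: posW cs := rfl
  rw [this, mk_cons]; rfl

theorem ee_posW (cs : List Bool) : ee (FreeGroup.mk (posW cs)) = cs.length := by
  induction cs with
  | nil => exact ee_one
  | cons c cs ih =>
    rw [mk_posW_cons, ee_mul, ee_of, ih]
    push_cast [List.length_cons]; ring

/-- an element with exponent sum equal to its length is positive -/
theorem exists_posW (f : FB) (h : ee f = FreeGroup.norm f) : ∃ cs : List Bool, f = FreeGroup.mk (posW cs) := by
  have key : ∀ w : List (Bool × Bool), ee (FreeGroup.mk w) = w.length → ∃ cs : List Bool, w = posW cs := by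
    intro w
    induction w with
    | nil => intro _; exact ⟨[], rfl⟩
    | cons x w ih =>
      intro hw
      rw [mk_cons, ee_mul] at hw
      have h1 := (ee_word w).1
      rw [abs_le] at h1
      simp only [List.length_cons, Nat.cast_add, Nat.cast_one] at hw
      rcases ee_letter x with h2 | h2
      · rw [h2] at hw
        obtain ⟨cs, hcs⟩ := ih (by omega)
        obtain ⟨c, s⟩ := x
        cases s
        · exfalso
          have : (FreeGroup.mk [(c, false)] : FB) = (of c)⁻¹ := rfl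
          rw [this, ee_inv, ee_of] at h2
          norm_num at h2
        · exact ⟨c :: cs, by rw [hcs]; rfl⟩
      · rw [h2] at hw
        omega
  obtain ⟨cs, hcs⟩ := key f.toWord (by rw [FreeGroup.mk_toWord]; exact h)
  exact ⟨cs, by rw [← hcs, FreeGroup.mk_toWord]⟩

/-- `ω'^n x(g)` in `ℤ[ω]` -/
def kk : List Bool → RO → RO
  | [], a => a
  | c :: cs, a => (if c then wcR ^ cs.length else 0) + wR * kk cs a

theorem omc_xc (c : Bool) : omc * xc c = if c then 1 else 0 := by
  cases c
  · simp [xc]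
  · simp only [xc, if_true]
    rw [mul_add, mul_one, mul_comm omc al, al_mul_omc, add_comm, om_add]

theorem psi_kk (cs : List Bool) (a : RO) :
    psi (kk cs a) = omc ^ cs.length * LM.x ⟨FreeGroup.mk (posW cs), (a.re, a.im)⟩ := by
  induction cs with
  | nil =>
    simp only [kk, List.length_nil, pow_zero, one_mul, LM.x]
    have : (FreeGroup.mk (posW []) : FB) = 1 := rfl
    rw [this, XF_one, ee_one, zpow_zero, one_mul, zero_add, psi_eq_iota]
  | cons c cs ih =>
    have h1 : LM.x ⟨FreeGroup.mk (posW (c :: cs)), (a.re, a.im)⟩ = xc c + al * LM.x ⟨FreeGroup.mk (posW cs), (a.re, a.im)⟩ := by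
      rw [LM.x_eq, LM.x_eq]
      simp only
      have h1 : ∀ (x y : FB) (z : ℂ), AA (x * y) z = AA x (AA y z) := fun x y z => by simp
      rw [mk_posW_cons, h1, AA_of, add_comm]
    rw [kk, map_add, map_mul, ih, h1, psi_wR, List.length_cons, pow_succ]
    have h2 : psi (if c = true then wcR ^ cs.length else 0) = omc ^ cs.length * (omc * xc c) := by
      rw [omc_xc]
      cases c
      · simp
      · simp [psi_wcR]
    rw [h2]
    linear_combination (-(omc ^ cs.length * LM.x ⟨FreeGroup.mk (posW cs), (a.re, a.im)⟩)) * al_mul_omc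

theorem wR_not_dvd (n : ℕ) : ¬ wR ∣ wcR ^ n := by
  intro h
  have hu : IsUnit wR := (wR_coprime.pow_right (n := n)).isUnit_of_dvd' dvd_rfl h
  obtain ⟨v, hv⟩ := hu.exists_right_inv
  have h1 := congrArg (fun z => ‖psi z‖ ^ 2) hv
  simp only [map_mul, norm_mul, mul_pow, psi_wR, norm_om_sq, map_one, norm_one, one_pow,
    normSq_psi] at h1
  have h2 : (2 * nm v : ℤ) = 1 := by exact_mod_cast h1
  omega

theorem wR_ne : wR ≠ 0 := by
  intro h
  exact om_ne (by rw [← psi_wR, h, map_zero])

theorem kk_inj (cs : List Bool) : ∀ (ds : List Bool) (a b : RO), cs.length = ds.length →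
    kk cs a = kk ds b → cs = ds ∧ a = b := by
  induction cs with
  | nil =>
    intro ds a b hl h
    have : ds = [] := List.length_eq_zero_iff.1 hl.symm
    subst this
    exact ⟨rfl, h⟩
  | cons c cs ih =>
    intro ds a b hl h
    cases ds with
    | nil => simp at hl
    | cons d ds =>
      have hl' : cs.length = ds.length := by simpa using hl
      simp only [kk] at h
      by_cases hcd : c = d
      · subst hcd
        rw [hl'] at h
        have h1 : wR * kk cs a = wR * kk ds b := add_left_cancel h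
        have h2 : kk cs a = kk ds b := by
          apply psi_injective
          have := congrArg psi h1
          rw [map_mul, map_mul, psi_wR] at this
          exact mul_left_cancel₀ om_ne this
        obtain ⟨h3, h4⟩ := ih ds a b hl' h2
        exact ⟨by rw [h3], h4⟩
      · exfalso
        apply wR_not_dvd cs.length
        cases c <;> cases d
        · exact absurd rfl hcd
        · simp only [Bool.false_eq_true, if_false, if_true] at h
          rw [hl']
          exact ⟨kk cs a - kk ds b, by linear_combination (-1 : RO) * h⟩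
        · simp only [Bool.false_eq_true, if_false, if_true] at h
          exact ⟨kk ds b - kk cs a, by linear_combination h⟩
        · exact absurd rfl hcd

theorem LM.up_inj (g h : LM) (hg : LM.e g = LM.L g) (hh : LM.e h = LM.L h) (he : LM.e g = LM.e h)
    (hx : LM.x g = LM.x h) : g = h := by
  obtain ⟨cs, hcs⟩ := exists_posW g.f hg
  obtain ⟨ds, hds⟩ := exists_posW h.f hh
  have hl : cs.length = ds.length := by
    have h1 : LM.L g = cs.length := by rw [LM.L, hcs, norm_posW]
    have h2 : LM.L h = ds.length := by rw [LM.L, hds, norm_posW]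
    rw [hg, hh, h1, h2] at he
    exact_mod_cast he
  have e1 : g = ⟨FreeGroup.mk (posW cs), (((⟨g.p.1, g.p.2⟩ : RO)).re, ((⟨g.p.1, g.p.2⟩ : RO)).im)⟩ := by
    ext1
    · exact hcs
    · rfl
  have e2 : h = ⟨FreeGroup.mk (posW ds), (((⟨h.p.1, h.p.2⟩ : RO)).re, ((⟨h.p.1, h.p.2⟩ : RO)).im)⟩ := by
    ext1
    · exact hds
    · rfl
  have h3 : kk cs ⟨g.p.1, g.p.2⟩ = kk ds ⟨h.p.1, h.p.2⟩ := by
    apply psi_injective
    rw [psi_kk, psi_kk, ← e1, ← e2, hx, hl]
  obtain ⟨h4, h5⟩ := kk_inj cs ds _ _ hl h3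
  ext1
  · rw [hcs, hds, h4]
  · have h6 := congrArg QuadraticAlgebra.re h5
    have h7 := congrArg QuadraticAlgebra.im h5
    ext
    · exact h6
    · exact h7

theorem wR_dvd {a : RO} (h : a.re % 2 = 0) : wR ∣ a := by
  refine ⟨⟨a.im + a.re / 2, -(a.re / 2)⟩, ?_⟩
  ext
  · simp only [wR, QuadraticAlgebra.re_mul]; omega
  · simp only [wR, QuadraticAlgebra.im_mul]; omega

theorem wcR_pow_odd (n : ℕ) : (wcR ^ n).re % 2 = 1 := by
  induction n with
  | zero => simp [QuadraticAlgebra.re_one]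
  | succ n ih =>
    rw [pow_succ, QuadraticAlgebra.re_mul]
    simp only [wcR] at ih ⊢
    omega

theorem kk_surj (n : ℕ) : ∀ k : RO, ∃ (cs : List Bool) (a : RO), cs.length = n ∧ kk cs a = k := by
  induction n with
  | zero => intro k; exact ⟨[], k, rfl, rfl⟩
  | succ n ih =>
    intro k
    rcases Int.emod_two_eq_zero_or_one k.re with h | h
    · obtain ⟨b, hb⟩ := wR_dvd h
      obtain ⟨cs, a, h1, h2⟩ := ih b
      exact ⟨false :: cs, a, by simp [h1], by simp [kk, h2, hb]⟩
    · have h3 : (k - wcR ^ n).re % 2 = 0 := by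
        rw [QuadraticAlgebra.re_sub]
        have := wcR_pow_odd n
        omega
      obtain ⟨b, hb⟩ := wR_dvd h3
      obtain ⟨cs, a, h1, h2⟩ := ih b
      refine ⟨true :: cs, a, by simp [h1], ?_⟩
      simp only [kk, if_true, h1, h2]
      rw [← hb]; ring

/-- reduction modulo `N` -/
def redN (N : ℕ) : RO →+* QuadraticAlgebra (ZMod N) (-2) 1 where
  toFun z := ⟨z.re, z.im⟩
  map_one' := by ext <;> simp [QuadraticAlgebra.re_one, QuadraticAlgebra.im_one]
  map_zero' := by ext <;> simp
  map_add' z w := by ext <;> simp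
  map_mul' z w := by
    ext
    · simp only [QuadraticAlgebra.re_mul]; push_cast; ring
    · simp only [QuadraticAlgebra.im_mul]; push_cast; ring

theorem exists_pow_congr (D : ℕ) : ∃ m : ℕ, 0 < m ∧ ∃ k : RO,
    wcR ^ m - wR ^ m = ((2 * D + 1 : ℕ) : RO) * k := by
  set N := 2 * D + 1 with hN
  have hN0 : NeZero N := ⟨by omega⟩
  let Q := QuadraticAlgebra (ZMod N) (-2) 1
  have hfin : Finite Q := Finite.of_equiv _ (QuadraticAlgebra.equivProd (-2 : ZMod N) 1).symm
  have h2 : (2 : Q) * ((D + 1 : ℕ) : Q) = 1 := by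
    have e : (2 : Q) * ((D + 1 : ℕ) : Q) = ((N + 1 : ℕ) : Q) := by
      have e0 : N + 1 = 2 * (D + 1) := by omega
      rw [e0]; push_cast; ring
    rw [e]
    push_cast
    have h0 : ((N : ℕ) : Q) = 0 := by
      ext
      · rw [QuadraticAlgebra.re_natCast]; simp
      · rw [QuadraticAlgebra.im_natCast]; simp
    rw [h0, zero_add]
  have hmul : redN N wR * redN N wcR = 2 := by rw [← map_mul, wR_mul, map_ofNat]
  have hu1 : IsUnit (redN N wR) := by
    refine IsUnit.of_mul_eq_one (redN N wcR * ((D + 1 : ℕ) : Q)) ?_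
    rw [← mul_assoc, hmul, h2]
  have hu2 : IsUnit (redN N wcR) := by
    refine IsUnit.of_mul_eq_one (redN N wR * ((D + 1 : ℕ) : Q)) ?_
    rw [← mul_assoc, mul_comm (redN N wcR), hmul, h2]
  obtain ⟨u1, hu1⟩ := hu1
  obtain ⟨u2, hu2⟩ := hu2
  have hfu : Finite Qˣ := inferInstance
  refine ⟨Nat.card Qˣ, Nat.card_pos, ?_⟩
  have e1 : redN N (wcR ^ Nat.card Qˣ - wR ^ Nat.card Qˣ) = 0 := by
    rw [map_sub, map_pow, map_pow, ← hu1, ← hu2, ← Units.val_pow_eq_pow_val,
      ← Units.val_pow_eq_pow_val, pow_card_eq_one', pow_card_eq_one', sub_self]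
  set z := wcR ^ Nat.card Qˣ - wR ^ Nat.card Qˣ with hz
  have h3 : (z.re : ZMod N) = 0 := congrArg QuadraticAlgebra.re e1
  have h4 : (z.im : ZMod N) = 0 := congrArg QuadraticAlgebra.im e1
  rw [ZMod.intCast_zmod_eq_zero_iff_dvd] at h3 h4
  obtain ⟨a, ha⟩ := h3
  obtain ⟨b, hb⟩ := h4
  refine ⟨⟨a, b⟩, ?_⟩
  ext
  · rw [QuadraticAlgebra.re_mul]; simp [ha]
  · rw [QuadraticAlgebra.im_mul]; simp [hb]

theorem LM.special (D : ℕ) (hD : 0 < D) : ∃ g : LM, 0 < LM.e g ∧ LM.e g = LM.L g ∧
    (D : ℂ) * (LM.x g / (1 - al ^ (LM.e g))) ∉ OO2 := by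
  obtain ⟨m, hm, k, hk⟩ := exists_pow_congr D
  obtain ⟨cs, a, hl, hkk⟩ := kk_surj m k
  have hk0 : k ≠ 0 := by
    rintro rfl
    rw [mul_zero, sub_eq_zero] at hk
    exact pow_ne_pow hm hk
  have hpk : psi k ≠ 0 := by
    intro h0
    apply hk0
    apply psi_injective
    rw [h0, map_zero]
  refine ⟨⟨FreeGroup.mk (posW cs), (a.re, a.im)⟩, ?_, ?_, ?_⟩
  · rw [LM.e, ee_posW, hl]; exact_mod_cast hm
  · rw [LM.e, LM.L, ee_posW, norm_posW]
  · have he : LM.e ⟨FreeGroup.mk (posW cs), (a.re, a.im)⟩ = (m : ℤ) := by rw [LM.e, ee_posW, hl]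
    have hx := psi_kk cs a
    rw [hkk, hl] at hx
    have h1 := pow_ne_zero m omc_ne
    have hN : ((2 * D + 1 : ℕ) : ℂ) ≠ 0 := Nat.cast_ne_zero.2 (by omega)
    have h2 : LM.x ⟨FreeGroup.mk (posW cs), (a.re, a.im)⟩ / (1 - al ^ ((m : ℤ))) = 1 / ((2 * D + 1 : ℕ) : ℂ) := by
      rw [zpow_natCast, one_sub_al_pow, hk, map_mul, hx, map_natCast]
      have h3 : LM.x ⟨FreeGroup.mk (posW cs), (a.re, a.im)⟩ ≠ 0 := by
        intro h0
        rw [h0, mul_zero] at hx
        exact hpk hx
      field_simp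
    rw [he, h2]
    intro hmem
    obtain ⟨n, hn⟩ := mem_OO2.1 hmem
    obtain ⟨b, hb⟩ := mem_OO.1 hn
    have h4 : psi (((2 * D + 1 : ℕ) : RO) * b) = psi ((2 ^ n * D : ℕ) : RO) := by
      rw [map_mul, hb, map_natCast, map_natCast]
      push_cast at hN ⊢
      field_simp
    have h5 := congrArg QuadraticAlgebra.re (psi_injective h4)
    rw [QuadraticAlgebra.re_mul, QuadraticAlgebra.re_natCast, QuadraticAlgebra.im_natCast,
      QuadraticAlgebra.re_natCast] at h5
    simp only [mul_zero, zero_mul, add_zero] at h5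
    have h6 : ((2 * D + 1 : ℕ) : ℤ) ∣ ((2 ^ n * D : ℕ) : ℤ) := ⟨b.re, h5.symm⟩
    rw [Int.natCast_dvd_natCast] at h6
    have hc1 : Nat.Coprime (2 * D + 1) (2 ^ n) := by
      apply Nat.Coprime.pow_right
      rw [Nat.coprime_two_right]
      exact ⟨D, rfl⟩
    have hc2 : Nat.Coprime (2 * D + 1) D := by
      have : Nat.Coprime (D * 2 + 1) D := by simp
      rwa [mul_comm] at this
    have h7 := (Nat.Coprime.mul_right hc1 hc2).eq_one_of_dvd h6
    omega

/-! ### generation -/

theorem norm_xc (c : Bool) : ‖xc c‖ ≤ 2 := by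
  cases c
  · simp [xc]
  · simp only [xc, if_true]
    calc ‖(1 : ℂ) + al‖ ≤ ‖(1 : ℂ)‖ + ‖al‖ := norm_add_le _ _
      _ = 2 := by rw [al_norm, norm_one]; norm_num

theorem norm_XF_letter (x : Bool × Bool) : ‖XF (FreeGroup.mk [x])‖ ≤ 2 := by
  obtain ⟨c, s⟩ := x
  cases s
  · have : (FreeGroup.mk [(c, false)] : FB) = (of c)⁻¹ := rfl
    rw [this, XF, AA_inv_of, zero_sub, norm_mul, norm_neg, norm_inv, al_norm, inv_one, one_mul]
    exact norm_xc c
  · have : (FreeGroup.mk [(c, true)] : FB) = of c := rfl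
    rw [this, XF_of]
    exact norm_xc c

theorem norm_zpow_al (n : ℤ) : ‖al ^ n‖ = 1 := by rw [norm_zpow, al_norm, one_zpow]

theorem norm_XF_word (w : List (Bool × Bool)) : ‖XF (FreeGroup.mk w)‖ ≤ 2 * w.length := by
  induction w with
  | nil =>
    have : (FreeGroup.mk ([] : List (Bool × Bool)) : FB) = 1 := rfl
    rw [this]; simp
  | cons x w ih =>
    rw [mk_cons, XF_mul]
    calc ‖XF (FreeGroup.mk [x]) + al ^ ee (FreeGroup.mk [x]) * XF (FreeGroup.mk w)‖
        ≤ ‖XF (FreeGroup.mk [x])‖ + ‖al ^ ee (FreeGroup.mk [x]) * XF (FreeGroup.mk w)‖ := norm_add_le _ _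
      _ ≤ 2 + 2 * w.length := by
          rw [norm_mul, norm_zpow_al, one_mul]
          exact add_le_add (norm_XF_letter x) ih
      _ = 2 * ((x :: w).length : ℕ) := by push_cast [List.length_cons]; ring

theorem norm_XF (f : FB) : ‖XF f‖ ≤ 2 * FreeGroup.norm f := by
  have := norm_XF_word f.toWord
  rwa [FreeGroup.mk_toWord] at this

theorem prod_letters (w : List (Bool × Bool)) :
    (w.map fun x => (⟨FreeGroup.mk [x], 0⟩ : LM)).prod = ⟨FreeGroup.mk w, 0⟩ := by
  induction w with
  | nil => rfl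
  | cons x w ih =>
    rw [List.map_cons, List.prod_cons, ih]
    ext1
    · rw [LM.mul_f]
      simp only
      rw [act_zero, ← mk_cons]
    · rw [LM.mul_p]
      simp only
      rw [res_zero, add_zero]

theorem pow_ofZ (p : ℤ × ℤ) (n : ℕ) : (⟨1, p⟩ : LM) ^ n = ⟨1, n • p⟩ := by
  induction n with
  | zero => rw [pow_zero, zero_smul]; rfl
  | succ n ih =>
    rw [pow_succ, ih]
    ext1
    · rw [LM.mul_f]; simp [act_one]
    · rw [LM.mul_p]; simp [res_one, add_smul]

theorem LM.gen : ∃ C : ℕ, ∀ h : LM, ∃ l : List LM, l.prod = h ∧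
    (l.length : ℝ) ≤ C * (‖LM.x h‖ + LM.L h + 1) ∧ ∀ s ∈ l, ‖LM.x s‖ + LM.L s ≤ C := by
  refine ⟨7, fun h => ?_⟩
  set a := h.p.1 with ha
  set b := h.p.2 with hb
  set l1 : List LM := h.f.toWord.map fun x => (⟨FreeGroup.mk [x], 0⟩ : LM) with hl1
  set l2 : List LM := List.replicate a.natAbs ⟨1, (a.sign, 0)⟩ with hl2
  set l3 : List LM := List.replicate b.natAbs ⟨1, (0, b.sign)⟩ with hl3
  refine ⟨l1 ++ (l2 ++ l3), ?_, ?_, ?_⟩
  · rw [List.prod_append, List.prod_append, hl1, hl2, hl3, prod_letters, List.prod_replicate,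
      List.prod_replicate, pow_ofZ, pow_ofZ, FreeGroup.mk_toWord]
    ext1
    · rw [LM.mul_f, LM.mul_f]
      simp only
      rw [act_one, mul_one, act_one, mul_one]
    · rw [LM.mul_p, LM.mul_p, LM.mul_f]
      simp only
      rw [act_one, mul_one, res_one, res_one, zero_add]
      have e1 : (a.natAbs : ℤ) * a.sign = a := by rw [mul_comm]; exact Int.sign_mul_natAbs a
      have e2 : (b.natAbs : ℤ) * b.sign = b := by rw [mul_comm]; exact Int.sign_mul_natAbs b
      ext
      · simp only [Prod.fst_add, Prod.smul_fst, smul_zero, add_zero]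
        rw [nsmul_eq_mul]
        exact e1
      · simp only [Prod.snd_add, Prod.smul_snd, smul_zero, zero_add]
        rw [nsmul_eq_mul]
        exact e2
  · have h1 : (l1 ++ (l2 ++ l3)).length = LM.L h + a.natAbs + b.natAbs := by
      simp only [List.length_append, hl1, hl2, hl3, List.length_map, List.length_replicate, LM.L,
        FreeGroup.norm]
      ring
    rw [h1]
    have h2 : (a.natAbs : ℝ) = |(a : ℝ)| := by rw [Nat.cast_natAbs, Int.cast_abs]
    have h3 : (b.natAbs : ℝ) = |(b : ℝ)| := by rw [Nat.cast_natAbs, Int.cast_abs]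
    have h4 := iota_re_bound h.p
    have h5 := iota_im_bound h.p
    have h6 : ‖iota h.p‖ ≤ ‖LM.x h‖ + ‖XF h.f‖ := by
      have e : al ^ (ee h.f) * iota h.p = LM.x h - XF h.f := by rw [LM.x]; ring
      calc ‖iota h.p‖ = ‖al ^ (ee h.f) * iota h.p‖ := by rw [norm_mul, norm_zpow_al, one_mul]
        _ = ‖LM.x h - XF h.f‖ := by rw [e]
        _ ≤ _ := norm_sub_le _ _
    have h7 := norm_XF h.f
    have h8 : (FreeGroup.norm h.f : ℝ) = LM.L h := rfl
    rw [h8] at h7
    push_cast
    rw [h2, h3]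
    have h9 : (0:ℝ) ≤ LM.L h := Nat.cast_nonneg _
    have h10 := norm_nonneg (LM.x h)
    linarith
  · intro s hs
    rw [List.mem_append, List.mem_append] at hs
    rcases hs with hs | hs | hs
    · rw [hl1, List.mem_map] at hs
      obtain ⟨x, -, rfl⟩ := hs
      have h1 : LM.x ⟨FreeGroup.mk [x], 0⟩ = XF (FreeGroup.mk [x]) := by simp [LM.x]
      have h2 : LM.L ⟨FreeGroup.mk [x], 0⟩ = 1 := by
        rw [LM.L]
        exact norm_mk_of_reduced FreeGroup.IsReduced.singleton
      rw [h1, h2]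
      have := norm_XF_letter x
      push_cast
      linarith
    · rw [hl2] at hs
      rw [List.eq_of_mem_replicate hs]
      have h1 : LM.x ⟨1, (a.sign, 0)⟩ = (a.sign : ℂ) := by simp [LM.x, iota]
      have h2 : LM.L ⟨1, (a.sign, 0)⟩ = 0 := by simp [LM.L]
      rw [h1, h2]
      have h3 : ‖((a.sign : ℤ) : ℂ)‖ ≤ 1 := by
        rw [Complex.norm_intCast]
        rcases lt_trichotomy a 0 with h | h | h
        · rw [Int.sign_eq_neg_one_of_neg h]; simp
        · rw [h]; simp
        · rw [Int.sign_eq_one_of_pos h]; simp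
      push_cast
      linarith
    · rw [hl3] at hs
      rw [List.eq_of_mem_replicate hs]
      have h1 : LM.x ⟨1, (0, b.sign)⟩ = (b.sign : ℂ) * om := by simp [LM.x, iota]
      have h2 : LM.L ⟨1, (0, b.sign)⟩ = 0 := by simp [LM.L]
      rw [h1, h2, norm_mul]
      have h3 : ‖((b.sign : ℤ) : ℂ)‖ ≤ 1 := by
        rw [Complex.norm_intCast]
        rcases lt_trichotomy b 0 with h | h | h
        · rw [Int.sign_eq_neg_one_of_neg h]; simp
        · rw [h]; simp
        · rw [Int.sign_eq_one_of_pos h]; simp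
      have h4 : ‖om‖ ≤ 2 := by
        have := norm_om_sq
        nlinarith [norm_nonneg om]
      push_cast
      nlinarith [norm_nonneg om]

/-! ### the structure -/

theorem LM.P_div (p g : LM) (hp : LM.L p = 0) (h2 : ∃ z ∈ OO, LM.x p = 2 * z) (hg : LM.L g ≤ 1) :
    LM.L (g⁻¹ * p * g) = 0 := by
  obtain ⟨z, hz, hxz⟩ := h2
  obtain ⟨q, rfl⟩ := mem_OO_iota.1 hz
  have hpf : p.f = 1 := LM.L_eq_zero.1 hp
  have hx : LM.x p = iota p.p := by rw [LM.x, hpf]; simp
  have h3 : p.p = q + q := by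
    apply iota_injective
    rw [iota_add, ← hx, hxz]; ring
  have h4 : p.p.1 % 2 = 0 := by rw [h3, Prod.fst_add]; omega
  have h5 : p.p.2 % 2 = 0 := by rw [h3, Prod.snd_add]; omega
  have h6 : act p.p g.f = g.f := LM.act_even h4 h5 g.f hg
  rw [mul_assoc, LM.L_inv_mul, LM.mul_f, hpf, one_mul, h6, inv_mul_cancel]
  exact FreeGroup.norm_one

/-- The geometric structure on `LM`. -/
noncomputable def geoLM : Geo LM where
  al := al
  al_norm := al_norm
  al_ne := al_ne
  e := LM.e
  e_mul := LM.e_mul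
  x := LM.x
  x_mul := LM.x_mul
  L := LM.L
  L_one := LM.L_one
  L_inv := LM.L_inv
  L_mul := LM.L_mul
  L_hyp := LM.L_hyp
  L_even := LM.L_even
  L_geod := LM.L_geod
  e_le := LM.e_le
  O := OO
  O_min := OO_min
  O_fin := OO_fin
  O_cover := OO_cover
  O_int := OO_int
  P_mem g hg := by
    rw [LM.x, LM.L_eq_zero.1 hg, XF_one, ee_one, zpow_zero, one_mul, zero_add]
    exact iota_mem _
  P_surj z hz := by
    obtain ⟨q, rfl⟩ := mem_OO_iota.1 hz
    exact ⟨⟨1, q⟩, by simp [LM.L], by simp [LM.x]⟩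
  P_inj g hg hx := by
    have hf := LM.L_eq_zero.1 hg
    rw [LM.x, hf, XF_one, ee_one, zpow_zero, one_mul, zero_add] at hx
    have : g.p = 0 := iota_injective (by rw [hx, iota_zero])
    ext1
    · exact hf
    · exact this
  P_div := LM.P_div
  ball_fin := LM.ball_fin
  up_inj := LM.up_inj
  up_ext := LM.up_ext
  O2 := OO2
  O_le := OO_le
  x_mem := LM.x_mem
  O2_al := OO2_al
  cen_den := cen_den
  special := LM.special
  gen := LM.gen

end H57.QI
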