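import Pool.Agent.Lib_helper96.QI.ModA
import Pool.Agent.Lib_helper57.QI.ModB
import Pool.Agent.Lib_helper57.QI.ModC
import Pool.Agent.Lib_helper57.QI.ModD
import Pool.Agent.Lib_helper69.QI.E1
import Pool.Agent.Lib_helper35.QI.E4
import Pool.Agent.Lib_helper30.QI.Q
import Pool.Agent.Lib_helper68.QI.ER
import Pool.Agent.Lib_helper41.QI.EK
import Pool.Agent.Lib_helper57.QI.EM
import Pool.Agent.Lib_helper57.QI.EGeom
import Pool.Agent.Lib_helper3.QI.EN

/-!
# Automaticity is not invariant under quasi-isometry
-/

set_option autoImplicit false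

namespace H57.QI

/-- a group with the geometry `Geo` has no automatic structure -/
theorem no_auto {H : Type} [Group H] {D : Geo H} (A : Auto D) : False := by
  have hV := A.lemV
  have hH := A.lemH
  have hN := A.lemN hH
  have hE := A.lemE
  have hF := A.lemF hH
  have hQ := A.lemQ hV hE hF
  have hR := A.lemR hV hE hF hQ
  have hK := lemK A hH hR
  exact A.final hR hK (A.lemM hN hK)

/-- the group `LM` is not automatic -/
theorem not_isAut_LM : ¬ IsAut LM := by
  intro h
  obtain ⟨A⟩ := modC geoLM h
  exact no_auto A

theorem isQI_LM : IsQI (FreeGroup Bool × Multiplicative (ℤ × ℤ)) LM :=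
  modB_of geoLM (fun _ => rfl)

/-- there are quasi-isometric groups, one automatic and the other not -/
theorem not_qi_invariant : ¬ ∀ (G H : Type) [Group G] [Group H], IsAut G → IsQI G H → IsAut H := by
  intro h
  exact not_isAut_LM (h _ _ modA isQI_LM)

end H57.QI
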