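import Pool.Agent.Lib_helper57.QI.Defs

/-!
# A criterion for quasi-isometry via norms
-/

set_option autoImplicit false

namespace H57.QI

/-- the Cayley graph of the frozen statement -/
abbrev Cay {G : Type} [Group G] (S : Finset G) : SimpleGraph G :=
  SimpleGraph.fromRel (fun g k : G => ∃ s ∈ S, k = g * s)

/-- `N` is a length function comparable with the word length of `S` -/
structure NormGen {G : Type} [Group G] (S : Finset G) (N : G → ℝ) (C : ℝ) : Prop where
  C0 : 0 ≤ C
  one : N 1 = 0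
  nonneg : ∀ g, 0 ≤ N g
  inv : ∀ g, N g⁻¹ = N g
  mul : ∀ g h, N (g * h) ≤ N g + N h
  bound : ∀ s ∈ S, N s ≤ C
  gen : ∀ g, ∃ l : List G, (∀ s ∈ l, s ∈ S) ∧ l.prod = g ∧ (l.length : ℝ) ≤ C * (N g + 1)

variable {G : Type} [Group G] {S : Finset G} {N : G → ℝ} {C : ℝ}

theorem exists_walk (S : Finset G) (l : List G) : (∀ s ∈ l, s ∈ S) → ∀ g : G,
    ∃ w : (Cay S).Walk g (g * l.prod), w.length ≤ l.length := by
  induction l with
  | nil =>
    intro _ g
    rw [List.prod_nil, mul_one]
    exact ⟨SimpleGraph.Walk.nil, le_rfl⟩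
  | cons s l ih =>
    intro hs g
    have ih' := ih (fun t ht => hs t (List.mem_cons_of_mem _ ht))
    rw [List.prod_cons, ← mul_assoc]
    by_cases h : s = 1
    · subst h
      rw [mul_one]
      obtain ⟨w, hw⟩ := ih' g
      exact ⟨w, hw.trans (by simp)⟩
    · obtain ⟨w, hw⟩ := ih' (g * s)
      have hadj : (Cay S).Adj g (g * s) := by
        rw [SimpleGraph.fromRel_adj]
        refine ⟨fun h' => h ?_, Or.inl ⟨s, hs s (List.mem_cons_self), rfl⟩⟩
        exact (mul_eq_left.1 h'.symm)
      exact ⟨SimpleGraph.Walk.cons hadj w, by simp only [SimpleGraph.Walk.length_cons, List.length_cons]; omega⟩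

theorem NormGen.closure (h : NormGen S N C) : Subgroup.closure (S : Set G) = ⊤ := by
  rw [eq_top_iff]
  intro g _
  obtain ⟨l, hl, rfl, -⟩ := h.gen g
  exact Subgroup.list_prod_mem _ fun s hs => Subgroup.subset_closure (hl s hs)

theorem NormGen.walk (h : NormGen S N C) (a b : G) :
    ∃ w : (Cay S).Walk a b, (w.length : ℝ) ≤ C * (N (a⁻¹ * b) + 1) := by
  obtain ⟨l, hl, hp, hlen⟩ := h.gen (a⁻¹ * b)
  obtain ⟨w, hw⟩ := exists_walk S l hl a
  have e : a * l.prod = b := by rw [hp]; group
  subst e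
  refine ⟨w, le_trans ?_ hlen⟩
  exact_mod_cast hw

theorem NormGen.dist_le (h : NormGen S N C) (a b : G) :
    ((Cay S).dist a b : ℝ) ≤ C * (N (a⁻¹ * b) + 1) := by
  obtain ⟨w, hw⟩ := h.walk a b
  refine le_trans ?_ hw
  exact_mod_cast SimpleGraph.dist_le w

theorem NormGen.connected (h : NormGen S N C) : (Cay S).Connected := by
  have : Nonempty G := ⟨1⟩
  refine SimpleGraph.Connected.mk fun a b => ?_
  obtain ⟨w, -⟩ := h.walk a b
  exact ⟨w⟩

theorem NormGen.le_walk (h : NormGen S N C) {a b : G} (w : (Cay S).Walk a b) :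
    N (a⁻¹ * b) ≤ C * w.length := by
  induction w with
  | nil => simp [h.one]
  | @cons a c b hadj w ih =>
    have h1 : N (a⁻¹ * c) ≤ C := by
      rw [SimpleGraph.fromRel_adj] at hadj
      rcases hadj.2 with ⟨s, hs, rfl⟩ | ⟨s, hs, rfl⟩
      · rw [inv_mul_cancel_left]; exact h.bound s hs
      · have : (c * s)⁻¹ * c = s⁻¹ := by group
        rw [this, h.inv]; exact h.bound s hs
    have h2 : a⁻¹ * b = (a⁻¹ * c) * (c⁻¹ * b) := by group
    rw [h2]
    refine (h.mul _ _).trans ?_
    rw [SimpleGraph.Walk.length_cons]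
    push_cast
    linarith

theorem NormGen.le_dist (h : NormGen S N C) (a b : G) :
    N (a⁻¹ * b) ≤ C * (Cay S).dist a b := by
  obtain ⟨w, hw⟩ := (h.connected a b).exists_walk_length_eq_dist
  rw [← hw]
  exact h.le_walk w

theorem isQI_of_norms {G H : Type} [Group G] [Group H] {S : Finset G} {T : Finset H}
    {NG : G → ℝ} {NH : H → ℝ} {CG CH : ℝ} (hG : NormGen S NG CG) (hH : NormGen T NH CH)
    (f : G → H) (K : ℝ) (hK : 0 ≤ K)
    (h1 : ∀ a b, NH ((f a)⁻¹ * f b) ≤ K * (NG (a⁻¹ * b) + 1))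
    (h2 : ∀ a b, NG (a⁻¹ * b) ≤ K * (NH ((f a)⁻¹ * f b) + 1))
    (h3 : ∀ h, ∃ g, NH ((f g)⁻¹ * h) ≤ K) : IsQI G H := by
  have hCG := hG.C0
  have hCH := hH.C0
  -- constants
  obtain ⟨A, hA⟩ := exists_nat_ge (CH * (K * CG) + CG * (K * CH))
  obtain ⟨B, hB⟩ := exists_nat_ge (CH * (K + 1) + CG * (K + 1))
  refine ⟨S, T, f, A, B, hG.closure, hH.closure, ?_, ?_, ?_⟩
  · intro a b
    have e1 := hH.dist_le (f a) (f b)
    have e2 := h1 a b
    have e3 := hG.le_dist a b
    have hd : (0:ℝ) ≤ ((Cay S).dist a b : ℝ) := by positivity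
    have key : ((Cay T).dist (f a) (f b) : ℝ) ≤ A * (Cay S).dist a b + B := by
      calc ((Cay T).dist (f a) (f b) : ℝ) ≤ CH * (NH ((f a)⁻¹ * f b) + 1) := e1
        _ ≤ CH * (K * (CG * (Cay S).dist a b + 1) + 1) := by gcongr; exact e2.trans (by gcongr)
        _ = (CH * (K * CG)) * (Cay S).dist a b + CH * (K + 1) := by ring
        _ ≤ A * (Cay S).dist a b + B := by
          have q1 : CH * (K * CG) ≤ A := by
            have : 0 ≤ CG * (K * CH) := by positivity
            linarith
          have q2 : CH * (K + 1) ≤ B := by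
            have : 0 ≤ CG * (K + 1) := by positivity
            linarith
          gcongr
    exact_mod_cast key
  · intro a b
    have e1 := hG.dist_le a b
    have e2 := h2 a b
    have e3 := hH.le_dist (f a) (f b)
    have hd : (0:ℝ) ≤ ((Cay T).dist (f a) (f b) : ℝ) := by positivity
    have key : ((Cay S).dist a b : ℝ) ≤ A * (Cay T).dist (f a) (f b) + B := by
      calc ((Cay S).dist a b : ℝ) ≤ CG * (NG (a⁻¹ * b) + 1) := e1
        _ ≤ CG * (K * (CH * (Cay T).dist (f a) (f b) + 1) + 1) := by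
          gcongr; exact e2.trans (by gcongr)
        _ = (CG * (K * CH)) * (Cay T).dist (f a) (f b) + CG * (K + 1) := by ring
        _ ≤ A * (Cay T).dist (f a) (f b) + B := by
          have q1 : CG * (K * CH) ≤ A := by
            have : 0 ≤ CH * (K * CG) := by positivity
            linarith
          have q2 : CG * (K + 1) ≤ B := by
            have : 0 ≤ CH * (K + 1) := by positivity
            linarith
          gcongr
    exact_mod_cast key
  · intro h
    obtain ⟨g, hg⟩ := h3 h
    refine ⟨g, ?_⟩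
    have e1 := hH.dist_le (f g) h
    have key : ((Cay T).dist (f g) h : ℝ) ≤ B := by
      calc ((Cay T).dist (f g) h : ℝ) ≤ CH * (NH ((f g)⁻¹ * h) + 1) := e1
        _ ≤ CH * (K + 1) := by gcongr
        _ ≤ B := by
          have : 0 ≤ CG * (K + 1) := by positivity
          linarith
    exact_mod_cast key

end H57.QI
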